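import Pool.Agent.Lib.Helper43.CompFP

/-!
An abstract back-and-forth lemma, effective when the partial isomorphisms are decidable.
-/

namespace Pool.Agent.P.MP_dc233e_lc

open Pool.Agent.Lib.Helper43

theorem bnf_seq (D : List (ℕ × ℕ) → Bool)
    (forth : ∀ q, D q = true → ∀ a, ∃ b, D ((a, b) :: q) = true)
    (back : ∀ q, D q = true → ∀ b, ∃ a, D ((a, b) :: q) = true)
    (q0 : List (ℕ × ℕ)) (h0 : D q0 = true) :
    ∃ (Q : ℕ → List (ℕ × ℕ)) (f g : ℕ → ℕ), (Computable D → Computable f) ∧ Q 0 = q0 ∧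
      (∀ n, D (Q n) = true) ∧ ∀ n, Q (n + 1) = (g n, n) :: (n, f n) :: Q n := by
  have e1 : ∀ x : ℕ × List (ℕ × ℕ), ∃ b, (D ((x.1, b) :: x.2) || !D x.2) = true := by
    intro x
    cases h : D x.2
    · exact ⟨0, by simp⟩
    · obtain ⟨b, hb⟩ := forth _ h x.1
      exact ⟨b, by simp [hb]⟩
  have e2 : ∀ x : ℕ × List (ℕ × ℕ), ∃ a, (D ((a, x.1) :: x.2) || !D x.2) = true := by
    intro x
    cases h : D x.2
    · exact ⟨0, by simp⟩
    · obtain ⟨b, hb⟩ := back _ h x.1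
      exact ⟨b, by simp [hb]⟩
  let F : ℕ × List (ℕ × ℕ) → ℕ := fun x => Nat.find (e1 x)
  let G : ℕ × List (ℕ × ℕ) → ℕ := fun x => Nat.find (e2 x)
  let Q : ℕ → List (ℕ × ℕ) := fun n => @Nat.rec (fun _ => List (ℕ × ℕ)) q0
    (fun m q => (G (m, (m, F (m, q)) :: q), m) :: (m, F (m, q)) :: q) n
  refine ⟨Q, fun n => F (n, Q n), fun n => G (n, (n, F (n, Q n)) :: Q n), fun hD => ?_, rfl,
    fun n => ?_, fun n => rfl⟩
  · have hF : Computable F := CFP.find (p := fun (x : ℕ × List (ℕ × ℕ)) b =>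
      D ((x.1, b) :: x.2) || !D x.2) (by fun_prop) e1
    have hG : Computable G := CFP.find (p := fun (x : ℕ × List (ℕ × ℕ)) a =>
      D ((a, x.1) :: x.2) || !D x.2) (by fun_prop) e2
    have hQ : Computable Q := CFP.natRec CFP.id (CFP.const _) (by fun_prop)
    fun_prop
  · induction n with
    | zero => exact h0
    | succ n ih =>
      have h1 : D ((n, F (n, Q n)) :: Q n) = true := by
        have : (D ((n, F (n, Q n)) :: Q n) || !D (Q n)) = true := Nat.find_spec (e1 (n, Q n))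
        simpa only [ih, Bool.not_true, Bool.or_false] using this
      have : (D (Q (n + 1)) || !D ((n, F (n, Q n)) :: Q n)) = true :=
        Nat.find_spec (e2 (n, (n, F (n, Q n)) :: Q n))
      simpa only [h1, Bool.not_true, Bool.or_false] using this

theorem bnf {M N : Type} {μ : ℕ → M} {ν : ℕ → N} (hμ : Function.Surjective μ)
    (hν : Function.Surjective ν) (PI : List (M × N) → Prop)
    (inj : ∀ p, PI p → ∀ x ∈ p, ∀ y ∈ p, (x.1 = y.1 ↔ x.2 = y.2))
    (forth : ∀ p, PI p → ∀ a, ∃ b, PI ((a, b) :: p))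
    (back : ∀ p, PI p → ∀ b, ∃ a, PI ((a, b) :: p))
    (D : List (ℕ × ℕ) → Bool) (hD : ∀ q, D q = true ↔ PI (q.map (Prod.map μ ν)))
    (q0 : List (ℕ × ℕ)) (h0 : D q0 = true) :
    ∃ (θ : M ≃ N) (f : ℕ → ℕ), (Computable D → Computable f) ∧ (∀ n, θ (μ n) = ν (f n)) ∧
      (∀ x ∈ q0, θ (μ x.1) = ν x.2) ∧ ∀ l : List M, ∃ p, PI p ∧ ∀ a ∈ l, (a, θ a) ∈ p := by
  obtain ⟨Q, f, g, hf, hQ0, hQ, hs⟩ := bnf_seq D
    (fun q hq a => by
      obtain ⟨b, hb⟩ := forth _ ((hD q).1 hq) (μ a)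
      obtain ⟨b, rfl⟩ := hν b
      exact ⟨b, (hD _).2 hb⟩)
    (fun q hq b => by
      obtain ⟨a, ha⟩ := back _ ((hD q).1 hq) (ν b)
      obtain ⟨a, rfl⟩ := hμ a
      exact ⟨a, (hD _).2 ha⟩) q0 h0
  have mono : ∀ {m n}, m ≤ n → ∀ x ∈ Q m, x ∈ Q n := by
    intro m n h x hx
    induction n, h using Nat.le_induction with
    | base => exact hx
    | succ n _ ih => rw [hs]; simp [ih]
  have key : ∀ {m n} {x y : ℕ × ℕ}, x ∈ Q m → y ∈ Q n → (μ x.1 = μ y.1 ↔ ν x.2 = ν y.2) := by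
    intro m n x y hx hy
    exact inj _ ((hD _).1 (hQ (max m n))) (Prod.map μ ν x)
      (List.mem_map_of_mem (mono (le_max_left _ _) x hx)) (Prod.map μ ν y)
      (List.mem_map_of_mem (mono (le_max_right _ _) y hy))
  have hfm : ∀ n, (n, f n) ∈ Q (n + 1) := fun n => by rw [hs]; simp
  have hgm : ∀ n, (g n, n) ∈ Q (n + 1) := fun n => by rw [hs]; simp
  let θ : M → N := fun a => ν (f (Function.surjInv hμ a))
  have hθ : ∀ {m} {x : ℕ × ℕ}, x ∈ Q m → θ (μ x.1) = ν x.2 := fun hx =>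
    (key (hfm _) hx).1 (Function.surjInv_eq hμ _)
  have hb : Function.Bijective θ := by
    constructor
    · intro a a' h
      have := (key (hfm _) (hfm _)).2 h
      simpa only [Function.surjInv_eq] using this
    · intro b
      obtain ⟨b, rfl⟩ := hν b
      exact ⟨_, hθ (hgm b)⟩
  refine ⟨Equiv.ofBijective θ hb, f, hf, fun n => hθ (hfm n),
    fun x hx => hθ (m := 0) (by rw [hQ0]; exact hx), fun l => ?_⟩
  have : ∃ n, ∀ a ∈ l, (a, θ a) ∈ (Q n).map (Prod.map μ ν) := by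
    induction l with
    | nil => exact ⟨0, by simp⟩
    | cons a l ih =>
      obtain ⟨n, hn⟩ := ih
      obtain ⟨m, rfl⟩ := hμ a
      refine ⟨max n (m + 1), fun a ha => ?_⟩
      rcases List.mem_cons.1 ha with rfl | ha
      · exact List.mem_map.2 ⟨(m, f m), mono (le_max_right _ _) _ (hfm m), by
          simp [hθ (hfm m)]⟩
      · obtain ⟨x, hx, e⟩ := List.mem_map.1 (hn a ha)
        exact List.mem_map.2 ⟨x, mono (le_max_left _ _) _ hx, e⟩
  obtain ⟨n, hn⟩ := this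
  exact ⟨_, (hD _).1 (hQ n), hn⟩

end Pool.Agent.P.MP_dc233e_lc
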