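import Pool.Agent.P.MP_dc233e_lc.ReqM
import Pool.Agent.P.MP_dc233e_lc.BnF

/-!
Coloured structures: generic models and effective back-and-forth.
-/

namespace Pool.Agent.P.MP_dc233e_lc

open Pool.Agent.Lib.Helper43

abbrev CS := ℕ → List ℕ → Bool

def ar (j : ℕ) : ℕ := if j % 2 = 0 then j / 2 + 1 else j / 2 + eX (j / 2) + eY (j / 2) + 2

theorem ar_even (x : ℕ) : ar (2 * x) = x + 1 := by simp [ar]

theorem ar_odd (l : ℕ) : ar (2 * l + 1) = l + eX l + eY l + 2 := by
  have h1 : (2 * l + 1) / 2 = l := by omega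
  have h2 : (2 * l + 1) % 2 ≠ 0 := by omega
  rw [ar, if_neg h2, h1]

theorem le_ar (j : ℕ) : j / 2 + 1 ≤ ar j := by unfold ar; split_ifs <;> omega

attribute [local irreducible] eX eY in
@[fun_prop] theorem c_ar {γ : Type} [Primcodable γ] {j : γ → ℕ} (h : Computable j) :
    Computable (fun a => ar (j a)) := by unfold ar; fun_prop

def par (B : CS) (l : ℕ) (t : List ℕ) : Bool :=
  xor (B (2 * eX l) (t.take (eX l + 1))) (B (2 * eY l) (t.take (eY l + 1)))

def Valid (ψ : ℕ → Bool) (B : CS) : Prop :=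
  ∀ l t, Alive l → t.length = ar (2 * l + 1) → t.Nodup → B (2 * l + 1) t = true → par B l t = ψ l

def PI (B B' : CS) (p : List (ℕ × ℕ)) : Prop :=
  (∀ x ∈ p, ∀ y ∈ p, (x.1 = y.1 ↔ x.2 = y.2)) ∧
  ∀ j (t : List (ℕ × ℕ)), (∀ x ∈ t, x ∈ p) → t.length = ar j → (t.map Prod.fst).Nodup →
    B j (t.map Prod.fst) = B' j (t.map Prod.snd)

def Gen (ψ : ℕ → Bool) (B : CS) : Prop :=
  ∀ B', Valid ψ B' → ∀ p, PI B' B p → ∀ a, ∃ b, PI B' B ((a, b) :: p)

def shift (w : ℕ → Bool) (B : CS) : CS :=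
  fun j t => if j % 2 = 0 then xor (B j t) (w (j / 2)) else B j t

theorem shift_even (w : ℕ → Bool) (B : CS) (x : ℕ) (t : List ℕ) :
    shift w B (2 * x) t = xor (B (2 * x) t) (w x) := by simp [shift]

theorem shift_odd (w : ℕ → Bool) (B : CS) (l : ℕ) (t : List ℕ) :
    shift w B (2 * l + 1) t = B (2 * l + 1) t := by
  have h2 : (2 * l + 1) % 2 ≠ 0 := by omega
  rw [shift, if_neg h2]

theorem shift_shift (w : ℕ → Bool) (B : CS) : shift w (shift w B) = B := by
  funext j t
  unfold shift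
  split_ifs <;> simp

theorem Valid.shift {ψ ψ' w : ℕ → Bool} {B : CS} (h : Valid ψ B)
    (hw : ∀ l, Alive l → ψ' l = xor (ψ l) (xor (w (eX l)) (w (eY l)))) :
    Valid ψ' (shift w B) := by
  intro l t h1 h2 h3 h4
  rw [shift_odd] at h4
  rw [hw l h1, ← h l t h1 h2 h3 h4, par, par, shift_even, shift_even]
  generalize B (2 * eX l) (t.take (eX l + 1)) = a
  generalize B (2 * eY l) (t.take (eY l + 1)) = b
  generalize w (eX l) = c
  generalize w (eY l) = d
  revert a b c d; decide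

theorem PI.shift {B B' : CS} {p : List (ℕ × ℕ)} (h : PI B B' p) (w : ℕ → Bool) :
    PI (shift w B) (shift w B') p :=
  ⟨h.1, fun j t h1 h2 h3 => by unfold MP_dc233e_lc.shift; rw [h.2 j t h1 h2 h3]⟩

theorem Gen.shift {ψ ψ' w : ℕ → Bool} {B : CS} (h : Gen ψ B)
    (hw : ∀ l, Alive l → ψ' l = xor (ψ l) (xor (w (eX l)) (w (eY l)))) :
    Gen ψ' (shift w B) := by
  intro B' hV p hp a
  have h1 : Valid ψ (MP_dc233e_lc.shift w B') := hV.shift (fun l hl => by rw [hw l hl]; simp)
  have h2 := hp.shift w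
  rw [shift_shift] at h2
  obtain ⟨b, hb⟩ := h _ h1 p h2 a
  have h3 := hb.shift w
  rw [shift_shift] at h3
  exact ⟨b, h3⟩

theorem nodup_snd {p t : List (ℕ × ℕ)} (h : ∀ x ∈ p, ∀ y ∈ p, (x.1 = y.1 ↔ x.2 = y.2))
    (ht : ∀ x ∈ t, x ∈ p) : (t.map Prod.fst).Nodup ↔ (t.map Prod.snd).Nodup := by
  simp only [List.Nodup, List.pairwise_map]
  constructor
  · exact fun h1 => h1.imp_of_mem (fun hx hy e e' => e ((h _ (ht _ hx) _ (ht _ hy)).2 e'))
  · exact fun h1 => h1.imp_of_mem (fun hx hy e e' => e ((h _ (ht _ hx) _ (ht _ hy)).1 e'))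

theorem PI.symm {B B' : CS} {p : List (ℕ × ℕ)} (h : PI B B' p) : PI B' B (p.map Prod.swap) := by
  refine ⟨fun x hx y hy => ?_, fun j t h1 h2 h3 => ?_⟩
  · obtain ⟨x', hx', rfl⟩ := List.mem_map.1 hx
    obtain ⟨y', hy', rfl⟩ := List.mem_map.1 hy
    exact (h.1 x' hx' y' hy').symm
  · have h4 : ∀ x ∈ t.map Prod.swap, x ∈ p := by
      intro x hx
      obtain ⟨x', hx', rfl⟩ := List.mem_map.1 hx
      obtain ⟨y, hy, rfl⟩ := List.mem_map.1 (h1 x' hx')
      simpa using hy
    have h5 := h.2 j (t.map Prod.swap) h4 (by simpa using h2)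
      ((nodup_snd h.1 h4).2 (by simpa [List.map_map, Function.comp_def] using h3))
    simpa [List.map_map, Function.comp_def] using h5.symm

theorem Gen.back {ψ : ℕ → Bool} {B B' : CS} (h : Gen ψ B) (hV : Valid ψ B')
    {p : List (ℕ × ℕ)} (hp : PI B B' p) (b : ℕ) : ∃ a, PI B B' ((a, b) :: p) := by
  obtain ⟨a, ha⟩ := h _ hV _ hp.symm b
  refine ⟨a, ?_⟩
  simpa [List.map_map] using ha.symm

theorem PI_nil (B B' : CS) : PI B B' [] := by
  refine ⟨by simp, fun j t h1 h2 _ => ?_⟩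
  obtain rfl : t = [] := List.eq_nil_iff_forall_not_mem.2 (fun x hx => by simpa using h1 x hx)
  have := le_ar j
  simp at h2; omega

/-! ### deciding partial isomorphisms -/

def tuples {X : Type} (k : ℕ) (q : List X) : List (List X) :=
  @Nat.rec (fun _ => List (List X)) [[]] (fun _ ih => ih.flatMap (fun t => q.map (fun x => x :: t))) k

theorem mem_tuples {X : Type} {k : ℕ} {q t : List X} :
    t ∈ tuples k q ↔ t.length = k ∧ ∀ x ∈ t, x ∈ q := by
  induction k generalizing t with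
  | zero =>
    simp only [tuples, Nat.rec_zero, List.mem_singleton, List.length_eq_zero_iff]
    exact ⟨fun h => by simp [h], fun h => h.1⟩
  | succ k ih =>
    have : tuples (k + 1) q = (tuples k q).flatMap (fun t => q.map (fun x => x :: t)) := rfl
    rw [this, List.mem_flatMap]
    constructor
    · rintro ⟨s, hs, ht⟩
      obtain ⟨x, hx, rfl⟩ := List.mem_map.1 ht
      obtain ⟨h1, h2⟩ := ih.1 hs
      exact ⟨by simp [h1], by simpa [hx] using h2⟩
    · rintro ⟨h1, h2⟩
      cases t with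
      | nil => simp at h1
      | cons x s =>
        exact ⟨s, ih.2 ⟨by simpa using h1, fun y hy => h2 y (by simp [hy])⟩,
          List.mem_map.2 ⟨x, h2 x (by simp), rfl⟩⟩

@[fun_prop] theorem c_tuples {γ X : Type} [Primcodable γ] [Primcodable X] {k : γ → ℕ}
    {q : γ → List X} (hk : Computable k) (hq : Computable q) :
    Computable (fun a => tuples (k a) (q a)) :=
  CFP.natRec (σ := List (List X)) (g := fun _ => [[]])
    (h := fun a _ ih => ih.flatMap (fun t => (q a).map (fun x => x :: t))) hk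
    (CFP.const _) (by fun_prop)

def ndE (E : ℕ × ℕ → Bool) (l : List ℕ) : Bool :=
  (List.range l.length).all (fun i => (List.range l.length).all
    (fun j => (i == j) || !E (l.getD i 0, l.getD j 0)))

theorem c_ndE {E : ℕ × ℕ → Bool} (hE : Computable E) : Computable (ndE E) := by
  unfold ndE; fun_prop

theorem ndE_iff {E : ℕ × ℕ → Bool} {μ : ℕ → ℕ} (hE : ∀ a b, E (a, b) = true ↔ μ a = μ b)
    (l : List ℕ) : ndE E l = true ↔ (l.map μ).Nodup := by
  simp only [ndE, List.all_eq_true, List.mem_range, Bool.or_eq_true, beq_iff_eq,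
    Bool.not_eq_true', Bool.eq_false_iff, ne_eq, hE]
  rw [List.nodup_iff_injective_getElem]
  constructor
  · intro h i j hij
    have hi : i.1 < l.length := by simpa using i.2
    have hj : j.1 < l.length := by simpa using j.2
    rcases h i.1 hi j.1 hj with h | h
    · exact Fin.ext h
    · refine absurd ?_ h
      simpa [List.getD_eq_getElem?_getD, hi, hj] using hij
  · intro h i hi j hj
    by_cases hij : i = j
    · exact Or.inl hij
    · refine Or.inr (fun h2 => hij ?_)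
      have := @h ⟨i, by simpa using hi⟩ ⟨j, by simpa using hj⟩
        (by simpa [List.getD_eq_getElem?_getD, hi, hj] using h2)
      exact congrArg Fin.val this

def CompCS (μ : ℕ → ℕ) (B : CS) : Prop :=
  ∃ (E : ℕ × ℕ → Bool) (F : ℕ × List ℕ → Bool), Computable E ∧ Computable F ∧
    (∀ a b, E (a, b) = true ↔ μ a = μ b) ∧
    ∀ j t, t.length = ar j → (t.map μ).Nodup → F (j, t) = B j (t.map μ)

theorem exists_lift {X Y : Type} {g : X → Y} {q : List X} {t : List Y}
    (h : ∀ y ∈ t, y ∈ q.map g) : ∃ s : List X, (∀ x ∈ s, x ∈ q) ∧ t = s.map g := by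
  induction t with
  | nil => exact ⟨[], by simp, rfl⟩
  | cons y t ih =>
    obtain ⟨s, h1, rfl⟩ := ih (fun y hy => h y (by simp [hy]))
    obtain ⟨x, hx, rfl⟩ := List.mem_map.1 (h y (by simp))
    exact ⟨x :: s, by simpa [hx] using h1, rfl⟩

theorem length_le_of {p t : List (ℕ × ℕ)} (h1 : ∀ x ∈ t, x ∈ p) (h2 : (t.map Prod.fst).Nodup) :
    t.length ≤ p.length :=
  (List.subperm_of_subset (List.Nodup.of_map _ h2) h1).length_le

open Classical in
theorem c_PI {μ ν : ℕ → ℕ} {B B' : CS} (h : CompCS μ B) (h' : CompCS ν B') :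
    Computable (fun q : List (ℕ × ℕ) => decide (PI B B' (q.map (Prod.map μ ν)))) := by
  obtain ⟨E, F, e1, e2, e3, e4⟩ := h
  obtain ⟨E', F', e1', e2', e3', e4'⟩ := h'
  have hn := c_ndE e1
  have hc : Computable (fun q : List (ℕ × ℕ) =>
      q.all (fun x => q.all (fun y => E (x.1, y.1) == E' (x.2, y.2))) &&
      (List.range (2 * q.length + 1)).all (fun j => (tuples (ar j) q).all (fun t =>
        !ndE E (t.map (fun x => x.1)) ||
          F (j, t.map (fun x => x.1)) == F' (j, t.map (fun x => x.2))))) := by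
    fun_prop
  refine hc.of_eq (fun q => ?_)
  rw [Bool.eq_iff_iff]
  simp only [Bool.and_eq_true, List.all_eq_true, beq_iff_eq, List.mem_range, Bool.or_eq_true,
    Bool.not_eq_true', decide_eq_true_eq, mem_tuples]
  have k1 : (∀ x ∈ q, ∀ y ∈ q, E (x.1, y.1) = E' (x.2, y.2)) ↔
      ∀ x ∈ q.map (Prod.map μ ν), ∀ y ∈ q.map (Prod.map μ ν), (x.1 = y.1 ↔ x.2 = y.2) := by
    simp only [List.forall_mem_map, Prod.map_fst, Prod.map_snd, ← e3, ← e3']
    exact forall₄_congr (fun _ _ _ _ => Bool.eq_iff_iff)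
  have m1 : ∀ s : List (ℕ × ℕ), (s.map (Prod.map μ ν)).map Prod.fst =
      (s.map (fun x => x.1)).map μ := fun s => by simp [List.map_map, Function.comp_def]
  have m2 : ∀ s : List (ℕ × ℕ), (s.map (Prod.map μ ν)).map Prod.snd =
      (s.map (fun x => x.2)).map ν := fun s => by simp [List.map_map, Function.comp_def]
  rw [k1]
  refine and_congr_right (fun hinj => ⟨fun h j t h1 h2 h3 => ?_, fun h j _ s hs => ?_⟩)
  · have h4 := length_le_of h1 h3
    have h5 := (nodup_snd hinj h1).1 h3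
    obtain ⟨s, hs, rfl⟩ := exists_lift h1
    have h6 := le_ar j
    simp only [List.length_map] at h2 h4
    rw [m1] at h3 ⊢
    rw [m2] at h5 ⊢
    rcases h j (by omega) s ⟨h2, hs⟩ with h7 | h7
    · rw [(ndE_iff e3 _).2 h3] at h7; simp at h7
    · rw [← e4 _ _ (by simpa using h2) h3, ← e4' _ _ (by simpa using h2) h5, h7]
  · by_cases h3 : ndE E (s.map (fun x => x.1)) = true
    · right
      rw [ndE_iff e3] at h3
      have h1 : ∀ x ∈ s.map (Prod.map μ ν), x ∈ q.map (Prod.map μ ν) := fun x hx => by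
        obtain ⟨y, hy, rfl⟩ := List.mem_map.1 hx
        exact List.mem_map_of_mem (hs.2 y hy)
      have h4 := h j _ h1 (by simpa using hs.1) (by rw [m1]; exact h3)
      have h5 := (nodup_snd hinj h1).1 (by rw [m1]; exact h3)
      rw [m2] at h5
      rw [m1, m2] at h4
      rw [e4 _ _ (by simpa using hs.1) h3, e4' _ _ (by simpa using hs.1) h5, h4]
    · left; simpa using h3

theorem cs_iso {ψ : ℕ → Bool} {B B' : CS} (hV : Valid ψ B) (hG : Gen ψ B) (hV' : Valid ψ B')
    (hG' : Gen ψ B') {μ ν : ℕ → ℕ} (hμ : Function.Surjective μ) (hν : Function.Surjective ν)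
    (q0 : List (ℕ × ℕ)) (h0 : PI B B' (q0.map (Prod.map μ ν))) :
    ∃ (θ : ℕ ≃ ℕ) (f : ℕ → ℕ), (CompCS μ B → CompCS ν B' → Computable f) ∧
      (∀ n, θ (μ n) = ν (f n)) ∧ (∀ x ∈ q0, θ (μ x.1) = ν x.2) ∧
      ∀ j t, t.length = ar j → t.Nodup → B j t = B' j (t.map θ) := by
  classical
  obtain ⟨θ, f, h1, h2, h3, h4⟩ := bnf hμ hν (PI B B') (fun p hp => hp.1)
    (fun p hp a => hG' _ hV p hp a) (fun p hp b => hG.back hV' hp b)
    (fun q => decide (PI B B' (q.map (Prod.map μ ν)))) (fun q => by simp) q0 (by simpa using h0)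
  refine ⟨θ, f, fun c c' => h1 (by convert c_PI c c'), h2, h3, fun j t h5 h6 => ?_⟩
  obtain ⟨p, hp, h7⟩ := h4 t
  have := hp.2 j (t.map (fun a => (a, θ a))) (fun x hx => by
    obtain ⟨a, ha, rfl⟩ := List.mem_map.1 hx
    exact h7 a ha) (by simpa using h5) (by simpa [List.map_map, Function.comp_def] using h6)
  simpa [List.map_map, Function.comp_def] using this

/-- in a generic structure every label relation has an instance -/
theorem Gen.exists_rel {ψ w : ℕ → Bool} {B : CS} (h : Gen ψ B)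
    (hw : ∀ l, Alive l → ψ l = xor (w (eX l)) (w (eY l))) (l : ℕ) :
    ∃ t : List ℕ, t.length = ar (2 * l + 1) ∧ t.Nodup ∧ B (2 * l + 1) t = true := by
  let B0 : CS := fun j _ => j % 2 != 0
  have hV : Valid ψ (MP_dc233e_lc.shift w B0) := by
    refine Valid.shift (ψ := fun _ => false) (fun l t _ _ _ _ => ?_) (fun l hl => ?_)
    · simp [par, B0]
    · simp [hw l hl]
  have key : ∀ s : List ℕ, ∃ p, PI (MP_dc233e_lc.shift w B0) B p ∧ p.map Prod.fst = s := by
    intro s
    induction s with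
    | nil => exact ⟨[], PI_nil _ _, rfl⟩
    | cons a s ih =>
      obtain ⟨p, hp, rfl⟩ := ih
      obtain ⟨b, hb⟩ := h _ hV p hp a
      exact ⟨_, hb, rfl⟩
  obtain ⟨p, hp, hs⟩ := key (List.range (ar (2 * l + 1)))
  have h1 : p.length = ar (2 * l + 1) := by simpa using congrArg List.length hs
  have h2 : (p.map Prod.fst).Nodup := hs ▸ List.nodup_range
  refine ⟨p.map Prod.snd, by simpa using h1, (nodup_snd hp.1 (fun _ hx => hx)).1 h2, ?_⟩
  rw [← hp.2 _ p (fun _ hx => hx) h1 h2, shift_odd]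
  simp [B0]

end Pool.Agent.P.MP_dc233e_lc
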