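import Pool.Agent.P.MP_dc233e_lc.Tree
import Pool.Agent.Lib.Helper43.CompFP

/-!
The tree construction is computable.
-/

namespace Pool.Agent.P.MP_dc233e_lc

open Pool.Agent.Lib.Helper43

set_option synthInstance.maxSize 2048

def nsEquiv : NS ≃ ℕ × ℕ × Bool × ℕ × List ℕ × List (ℕ × ℕ × ℕ) where
  toFun z := (z.ph, z.bi, z.ta, z.cu, z.du, z.ck)
  invFun p := ⟨p.1, p.2.1, p.2.2.1, p.2.2.2.1, p.2.2.2.2.1, p.2.2.2.2.2⟩
  left_inv _ := rfl
  right_inv _ := rfl

instance : Primcodable NS := Primcodable.ofEquiv _ nsEquiv

section
variable {γ : Type} [Primcodable γ]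

theorem c_nsEquiv {z : γ → NS} (h : Computable z) : Computable (fun a => nsEquiv (z a)) :=
  (Primrec.of_equiv (e := nsEquiv)).to_comp.comp h

@[fun_prop] theorem c_ph {z : γ → NS} (h : Computable z) : Computable (fun a => (z a).ph) :=
  CFP.fst (c_nsEquiv h)
@[fun_prop] theorem c_bi {z : γ → NS} (h : Computable z) : Computable (fun a => (z a).bi) :=
  CFP.fst (CFP.snd (c_nsEquiv h))
@[fun_prop] theorem c_ta {z : γ → NS} (h : Computable z) : Computable (fun a => (z a).ta) :=
  CFP.fst (CFP.snd (CFP.snd (c_nsEquiv h)))
@[fun_prop] theorem c_cu {z : γ → NS} (h : Computable z) : Computable (fun a => (z a).cu) :=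
  CFP.fst (CFP.snd (CFP.snd (CFP.snd (c_nsEquiv h))))
@[fun_prop] theorem c_du {z : γ → NS} (h : Computable z) : Computable (fun a => (z a).du) :=
  CFP.fst (CFP.snd (CFP.snd (CFP.snd (CFP.snd (c_nsEquiv h)))))
@[fun_prop] theorem c_ck {z : γ → NS} (h : Computable z) : Computable (fun a => (z a).ck) :=
  CFP.snd (CFP.snd (CFP.snd (CFP.snd (CFP.snd (c_nsEquiv h)))))

@[fun_prop] theorem c_mk {a b d : γ → ℕ} {c : γ → Bool} {e : γ → List ℕ}
    {f : γ → List (ℕ × ℕ × ℕ)} (ha : Computable a) (hb : Computable b) (hc : Computable c)
    (hd : Computable d) (he : Computable e) (hf : Computable f) :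
    Computable (fun x => NS.mk (a x) (b x) (c x) (d x) (e x) (f x)) :=
  (Primrec.of_equiv_symm (e := nsEquiv)).to_comp.comp
    (g := fun x => (a x, b x, c x, d x, e x, f x)) (by fun_prop)

@[fun_prop] theorem c_lab {s i : γ → ℕ} (hs : Computable s) (hi : Computable i) :
    Computable (fun a => lab (s a) (i a)) := by unfold lab; fun_prop

@[fun_prop] theorem c_rl {s : γ → ℕ} (hs : Computable s) :
    Computable (fun a => rl (s a)) := by unfold rl; fun_prop

@[fun_prop] theorem c_co {s i : γ → ℕ} (hs : Computable s) (hi : Computable i) :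
    Computable (fun a => co (s a) (i a)) := by unfold co; fun_prop

@[fun_prop] theorem c_ev {e n s : γ → ℕ} (he : Computable e) (hn : Computable n)
    (hs : Computable s) : Computable (fun a => ev (e a) (n a) (s a)) := by unfold ev; fun_prop

@[fun_prop] theorem c_oval {o : γ → ℕ} {t : γ → Bool} (ho : Computable o) (ht : Computable t) :
    Computable (fun a => oval (o a) (t a)) := by unfold oval; fun_prop

@[fun_prop] theorem c_pick {t d : γ → Bool} {du : γ → List ℕ} (ht : Computable t)
    (hd : Computable d) (hdu : Computable du) :
    Computable (fun a => pick (t a) (d a) (du a)) := by unfold pick; fun_prop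

@[fun_prop] theorem c_condL {s i : γ → ℕ} {z : γ → NS} {c : γ → Ctx} (hs : Computable s)
    (hi : Computable i) (hz : Computable z) (hc : Computable c) :
    Computable (fun a => condL (s a) (i a) (z a) (c a)) := by unfold condL; fun_prop

@[fun_prop] theorem c_resp {s i : γ → ℕ} {z : γ → NS} (hs : Computable s)
    (hi : Computable i) (hz : Computable z) :
    Computable (fun a => resp (s a) (i a) (z a)) := by unfold resp; fun_prop

@[fun_prop] theorem c_okT {s e : γ → ℕ} {t : γ → ℕ × ℕ × ℕ} (hs : Computable s)
    (he : Computable e) (ht : Computable t) :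
    Computable (fun a => okT (s a) (e a) (t a)) := by unfold okT; fun_prop

@[fun_prop] theorem c_act {s i : γ → ℕ} {z : γ → NS} {c : γ → Ctx} (hs : Computable s)
    (hi : Computable i) (hz : Computable z) (hc : Computable c) :
    Computable (fun a => act (s a) (i a) (z a) (c a)) := by unfold act; fun_prop

@[fun_prop] theorem c_out {s i : γ → ℕ} {z : γ → NS} {c : γ → Ctx} (hs : Computable s)
    (hi : Computable i) (hz : Computable z) (hc : Computable c) :
    Computable (fun a => out (s a) (i a) (z a) (c a)) := by unfold out; fun_prop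

@[fun_prop] theorem c_tri {s i : γ → ℕ} {z : γ → NS} {c : γ → Ctx} (hs : Computable s)
    (hi : Computable i) (hz : Computable z) (hc : Computable c) :
    Computable (fun a => tri (s a) (i a) (z a) (c a)) := by unfold tri; fun_prop

@[fun_prop] theorem c_nctx {s i : γ → ℕ} {z : γ → NS} {c : γ → Ctx} (hs : Computable s)
    (hi : Computable i) (hz : Computable z) (hc : Computable c) :
    Computable (fun a => nctx (s a) (i a) (z a) (c a)) := by unfold nctx; fun_prop

@[fun_prop] theorem c_updu {t : γ → Bool} {o : γ → ℕ} {du : γ → List ℕ} (ht : Computable t)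
    (ho : Computable o) (hdu : Computable du) :
    Computable (fun a => updu (t a) (o a) (du a)) := by unfold updu; fun_prop

@[fun_prop] theorem c_nst {s i : γ → ℕ} {z : γ → NS} {c : γ → Ctx} {l : γ → List (ℕ × ℕ × ℕ)}
    (hs : Computable s) (hi : Computable i) (hz : Computable z) (hc : Computable c)
    (hl : Computable l) :
    Computable (fun a => nst (s a) (i a) (z a) (c a) (l a)) := by unfold nst; fun_prop

end

/-- finite tables of states -/
abbrev Tab := List (List ℕ × NS)

def look (tb : Tab) (α : List ℕ) : NS :=
  ((tb.find? (fun p => p.1 == α)).map (fun p => p.2)).getD fresh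

section
variable {γ : Type} [Primcodable γ]

@[fun_prop] theorem c_look {tb : γ → Tab} {α : γ → List ℕ} (h1 : Computable tb)
    (h2 : Computable α) : Computable (fun a => look (tb a) (α a)) := by unfold look; fun_prop

def runL (s : ℕ) (tb : Tab) (i : ℕ) : List ℕ × Ctx := run s (look tb) i

@[fun_prop] theorem c_runL {s i : γ → ℕ} {tb : γ → Tab} (hs : Computable s) (h1 : Computable tb)
    (hi : Computable i) : Computable (fun a => runL (s a) (tb a) (i a)) := by
  have h : Computable (fun a => @Nat.rec (fun _ => List ℕ × Ctx) ([], (1, rl (s a), (s a).bodd))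
      (fun n ih => (ih.1 ++ [out (s a) n (look (tb a) ih.1) ih.2],
        nctx (s a) n (look (tb a) ih.1) ih.2)) (i a)) :=
    CFP.natRec hi (by fun_prop) (by fun_prop)
  refine h.of_eq (fun a => ?_)
  unfold runL
  induction i a with
  | zero => rfl
  | succ n ih => simp only [ih, run]

def laterL (s : ℕ) (tb : Tab) (i : ℕ) : List (ℕ × ℕ × ℕ) := later s (look tb) i

@[fun_prop] theorem c_laterL {s i : γ → ℕ} {tb : γ → Tab} (hs : Computable s) (h1 : Computable tb)
    (hi : Computable i) : Computable (fun a => laterL (s a) (tb a) (i a)) := by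
  have h : Computable (fun a => (List.range (s a)).filterMap (fun j => if i a < j then
      tri (s a) j (look (tb a) (runL (s a) (tb a) j).1) (runL (s a) (tb a) j).2 else none)) := by
    fun_prop
  exact h

def rightL (s : ℕ) (tb : Tab) (α : List ℕ) : Bool := rightOf s (look tb) α

@[fun_prop] theorem c_rightL {s : γ → ℕ} {tb : γ → Tab} {α : γ → List ℕ} (hs : Computable s)
    (h1 : Computable tb) (hα : Computable α) :
    Computable (fun a => rightL (s a) (tb a) (α a)) := by
  have h : Computable (fun a => (List.range (s a)).any (fun i => decide (i < (α a).length) &&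
      ((α a).take i == (runL (s a) (tb a) i).1) &&
      decide (out (s a) i (look (tb a) (runL (s a) (tb a) i).1) (runL (s a) (tb a) i).2 <
        (α a).getD i 0))) := by
    fun_prop
  exact h

end

def tstep (s : ℕ) (tb : Tab) : Tab :=
  (List.range s).map (fun i => ((runL s tb i).1,
    nst s i (look tb (runL s tb i).1) (runL s tb i).2 (laterL s tb i))) ++
  tb.filter (fun p => !rightL s tb p.1)

def tab : ℕ → Tab
  | 0 => []
  | s + 1 => tstep s (tab s)

theorem run_length (s : ℕ) (T : List ℕ → NS) (i : ℕ) : (run s T i).1.length = i := by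
  induction i with
  | zero => rfl
  | succ i ih => simp [run, ih]

theorem look_tstep (s : ℕ) (tb : Tab) (α : List ℕ) :
    look (tstep s tb) α = step s (look tb) α := by
  unfold step
  by_cases h : (decide (α.length < s) && ((run s (look tb) α.length).1 == α)) = true
  · rw [if_pos h]
    simp only [Bool.and_eq_true, decide_eq_true_eq, beq_iff_eq] at h
    have h1 : ((List.range s).map (fun i => ((runL s tb i).1,
        nst s i (look tb (runL s tb i).1) (runL s tb i).2 (laterL s tb i)))).find?
        (fun p => p.1 == α) = some ((runL s tb α.length).1,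
        nst s α.length (look tb (runL s tb α.length).1) (runL s tb α.length).2
          (laterL s tb α.length)) := by
      rw [List.find?_map]
      have : (List.range s).find? ((fun p : List ℕ × NS => p.1 == α) ∘ (fun i => ((runL s tb i).1,
        nst s i (look tb (runL s tb i).1) (runL s tb i).2 (laterL s tb i)))) = some α.length := by
        rw [List.find?_range_eq_some]
        refine ⟨by simpa [runL] using h.2, by simpa using h.1, fun j hj => ?_⟩
        have := run_length s (look tb) j
        simp only [Function.comp, runL, Bool.not_eq_true', beq_eq_false_iff_ne]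
        intro e; rw [e] at this; omega
      rw [this]; rfl
    rw [look, tstep, List.find?_append, h1]
    simp only [Option.some_or, Option.map_some, Option.getD_some, runL, laterL, h.2]
  · rw [if_neg h]
    simp only [Bool.and_eq_true, decide_eq_true_eq, beq_iff_eq, not_and] at h
    have h1 : ((List.range s).map (fun i => ((runL s tb i).1,
        nst s i (look tb (runL s tb i).1) (runL s tb i).2 (laterL s tb i)))).find?
        (fun p => p.1 == α) = none := by
      rw [List.find?_eq_none]
      intro p hp
      obtain ⟨i, hi, rfl⟩ := List.mem_map.1 hp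
      simp only [beq_iff_eq, runL]
      intro e
      have := run_length s (look tb) i
      rw [e] at this
      rw [this] at h
      exact h (List.mem_range.1 hi) e
    rw [look, tstep, List.find?_append, h1, Option.none_or, List.find?_filter]
    by_cases h2 : rightOf s (look tb) α = true
    · rw [if_pos h2]
      have : tb.find? (fun a => decide ((!rightL s tb a.1) = true ∧ (a.1 == α) = true)) = none := by
        rw [List.find?_eq_none]
        intro p _
        simp only [decide_eq_true_eq, not_and, beq_iff_eq]
        intro h3 e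
        rw [e, rightL, h2] at h3
        simp at h3
      rw [this]; rfl
    · rw [if_neg h2, look]
      congr 3
      funext p
      by_cases e : p.1 = α
      · simp [e, rightL, h2]
      · simp [e]

theorem look_tab (s : ℕ) : look (tab s) = TT s := by
  induction s with
  | zero => rfl
  | succ s ih => funext α; rw [tab, look_tstep, ih]; rfl

theorem c_tab0 : Computable tab := by
  have h : Computable (fun s : ℕ => @Nat.rec (fun _ => Tab) [] (fun n ih => tstep n ih) s) := by
    refine CFP.natRec CFP.id (CFP.const _) ?_
    unfold tstep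
    fun_prop
  refine h.of_eq (fun s => ?_)
  induction s with
  | zero => rfl
  | succ n ih => simp only [ih, tab]

section
variable {γ : Type} [Primcodable γ]

@[fun_prop] theorem c_tab {s : γ → ℕ} (hs : Computable s) : Computable (fun a => tab (s a)) :=
  c_tab0.comp hs

@[fun_prop] theorem c_TT {s : γ → ℕ} {α : γ → List ℕ} (hs : Computable s) (hα : Computable α) :
    Computable (fun a => TT (s a) (α a)) := by
  have h : Computable (fun a => look (tab (s a)) (α a)) := by fun_prop
  exact h.of_eq (fun a => by rw [look_tab])

@[fun_prop] theorem c_nd {s i : γ → ℕ} (hs : Computable s) (hi : Computable i) :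
    Computable (fun a => nd (s a) (i a)) := by
  have h : Computable (fun a => (runL (s a) (tab (s a)) (i a)).1) := by fun_prop
  exact h.of_eq (fun a => by rw [runL, look_tab, nd])

@[fun_prop] theorem c_cx {s i : γ → ℕ} (hs : Computable s) (hi : Computable i) :
    Computable (fun a => cx (s a) (i a)) := by
  have h : Computable (fun a => (runL (s a) (tab (s a)) (i a)).2) := by fun_prop
  exact h.of_eq (fun a => by rw [runL, look_tab, cx])

@[fun_prop] theorem c_rightTT {s : γ → ℕ} {α : γ → List ℕ} (hs : Computable s)
    (hα : Computable α) : Computable (fun a => rightOf (s a) (TT (s a)) (α a)) := by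
  have h : Computable (fun a => rightL (s a) (tab (s a)) (α a)) := by fun_prop
  exact h.of_eq (fun a => by rw [rightL, look_tab])

@[fun_prop] theorem c_st {s i : γ → ℕ} (hs : Computable s) (hi : Computable i) :
    Computable (fun a => st (s a) (i a)) := by unfold st; fun_prop

@[fun_prop] theorem c_ac {s i : γ → ℕ} (hs : Computable s) (hi : Computable i) :
    Computable (fun a => ac (s a) (i a)) := by unfold ac; fun_prop

@[fun_prop] theorem c_tr {s i : γ → ℕ} (hs : Computable s) (hi : Computable i) :
    Computable (fun a => tr (s a) (i a)) := by unfold tr; fun_prop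

@[fun_prop] theorem c_created {s i : γ → ℕ} (hs : Computable s) (hi : Computable i) :
    Computable (fun a => created (s a) (i a)) := by unfold created; fun_prop

end

section
attribute [local irreducible] ac st cx co TT

theorem c_eX0 : Computable eX := by
  have h : Computable (fun p : ℕ × ℕ => if p.2 = 0 then 1
      else if ac p.1 (p.2 - 1) = 1 then co p.1 (p.2 - 1) else co (st p.1 (p.2 - 1)).bi (p.2 - 1)) := by
    fun_prop
  exact (h.comp Computable.unpair).of_eq (fun _ => rfl)

theorem c_eY0 : Computable eY := by
  have h : Computable (fun p : ℕ × ℕ => if p.2 = 0 then 0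
      else if ac p.1 (p.2 - 1) = 2 then 0 else (cx p.1 (p.2 - 1)).1) := by
    fun_prop
  exact (h.comp Computable.unpair).of_eq (fun _ => rfl)

theorem c_eB0 : Computable eB := by
  have h : Computable (fun p : ℕ × ℕ => if p.2 = 0 then p.1.bodd
      else if ac p.1 (p.2 - 1) = 2 then (cx p.1 (p.2 - 1)).2.2 else false) := by
    fun_prop
  exact (h.comp Computable.unpair).of_eq (fun _ => rfl)

end

@[fun_prop] theorem c_eX {γ : Type} [Primcodable γ] {l : γ → ℕ} (h : Computable l) :
    Computable (fun a => eX (l a)) := c_eX0.comp h
@[fun_prop] theorem c_eY {γ : Type} [Primcodable γ] {l : γ → ℕ} (h : Computable l) :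
    Computable (fun a => eY (l a)) := c_eY0.comp h
@[fun_prop] theorem c_eB {γ : Type} [Primcodable γ] {l : γ → ℕ} (h : Computable l) :
    Computable (fun a => eB (l a)) := c_eB0.comp h

def rightTT (t : ℕ) (α : List ℕ) : Bool := rightOf t (TT t) α

@[fun_prop] theorem c_rightTT' {γ : Type} [Primcodable γ] {s : γ → ℕ} {α : γ → List ℕ}
    (hs : Computable s) (hα : Computable α) : Computable (fun a => rightTT (s a) (α a)) :=
  c_rightTT hs hα

theorem c_deadAt : Computable (fun p : ℕ × ℕ => deadAt p.1 p.2) := by
  have h : Computable (fun p : ℕ × ℕ =>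
      (p.1.unpair.2 == 0) || !(created p.1.unpair.1 (p.1.unpair.2 - 1)) ||
      (decide (p.1.unpair.1 < p.2) && rightTT p.2 (nd p.1.unpair.1 (p.1.unpair.2 - 1))) ||
      (List.range p.2).any (fun j => ((tr p.2 j).map
        (fun x => (x.2.1 == p.1) && (x.2.2.unpair.2 == 0))).getD false) ||
      (List.range p.2).any (fun q => (ac p.2 q == 4) &&
        (st p.2 q).ck.any (fun x => (x.2.1 == p.1) && (x.2.2 == lab (st p.2 q).cu q)))) := by
    fun_prop
  exact h

attribute [local irreducible] deadAt in
@[fun_prop] theorem c_deadAt' {γ : Type} [Primcodable γ] {l t : γ → ℕ} (h : Computable l)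
    (ht : Computable t) : Computable (fun a => deadAt (l a) (t a)) :=
  (Computable.comp (f := fun p : ℕ × ℕ => deadAt p.1 p.2) (g := fun a => (l a, t a))
    c_deadAt (h.pair ht)).of_eq (fun _ => rfl)

end Pool.Agent.P.MP_dc233e_lc
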