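import Mathlib

/-!
Definitions used in the statement: constructivizations, autoequivalence, dimension,
effective infinity and countable categoricity, for relational signatures.
-/

namespace Pool.Agent.P.MP_dc233e_lc

open FirstOrder

/-- The relational signature with one relation symbol `R_k` of arity `a k` for each `k : ℕ`. -/
def sig (a : ℕ → ℕ) : FirstOrder.Language.{0, 0} :=
  ⟨fun _ => Empty, fun n => {k : ℕ // a k = n}⟩

/-- The atomic diagram `AD_ν(A)`. The code `(b, inl (i, j))` stands for `c_i = c_j` and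
`(b, inr (k, [i₁, …, iₙ]))` for `R_k(c_{i₁}, …, c_{iₙ})`, negated when `b = false`. -/
def AD (a : ℕ → ℕ) {A : Type} [(sig a).Structure A] (ν : ℕ → A) :
    Set (Bool × ((ℕ × ℕ) ⊕ (ℕ × List ℕ))) :=
  {φ | (∃ b i j, φ = (b, Sum.inl (i, j)) ∧ (b = true ↔ ν i = ν j)) ∨
    ∃ b k l, ∃ h : a k = l.length, φ = (b, Sum.inr (k, l)) ∧
      (b = true ↔ Language.Structure.RelMap (L := sig a) ⟨k, h⟩ (fun i => ν (l.get i)))}

/-- `ν` is a constructivization: a surjection with computable atomic diagram. -/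
def IsConstr (a : ℕ → ℕ) {A : Type} [(sig a).Structure A] (ν : ℕ → A) : Prop :=
  Function.Surjective ν ∧ ComputablePred (fun φ => φ ∈ AD a ν)

/-- `ν` and `μ` are autoequivalent. -/
def Autoeq (a : ℕ → ℕ) {A : Type} [(sig a).Structure A] (ν μ : ℕ → A) : Prop :=
  ∃ (φ : A ≃[sig a] A) (f : ℕ → ℕ), Computable f ∧ ∀ n, φ (ν n) = μ (f n)

/-- The dimension: the largest number of pairwise non-autoequivalent constructivizations. -/
noncomputable def dim (a : ℕ → ℕ) (A : Type) [(sig a).Structure A] : ℕ∞ :=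
  ⨆ (S : Set (ℕ → A)) (_ : (∀ ν ∈ S, IsConstr a ν) ∧ S.Pairwise (fun ν μ => ¬ Autoeq a ν μ)),
    S.encard

/-- The program `c` computes the characteristic function of `S`. -/
def IsIndex {X : Type} [Primcodable X] (c : Nat.Partrec.Code) (S : Set X) : Prop :=
  ∀ x : X, (x ∈ S → c.eval (Encodable.encode x) = Part.some 1) ∧
    (x ∉ S → c.eval (Encodable.encode x) = Part.some 0)

/-- `A` is effectively infinite. -/
def EffInf (a : ℕ → ℕ) (A : Type) [(sig a).Structure A] : Prop :=
  ∃ F : Nat.Partrec.Code →. Nat.Partrec.Code, Partrec F ∧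
    ∀ (c : Nat.Partrec.Code) (νs : ℕ → ℕ → A), (∀ i, IsConstr a (νs i)) →
      IsIndex c {p : ℕ × (Bool × ((ℕ × ℕ) ⊕ (ℕ × List ℕ))) | p.2 ∈ AD a (νs p.1)} →
      ∃ c' ∈ F c, ∃ ν : ℕ → A, IsConstr a ν ∧ IsIndex c' (AD a ν) ∧ ∀ i, ¬ Autoeq a ν (νs i)

/-- `A` is a countable model of a complete theory with infinite models, all of whose countable
models are isomorphic. -/
def CountCat (a : ℕ → ℕ) (A : Type) [(sig a).Structure A] : Prop :=
  Countable A ∧ ∃ T : (sig a).Theory, T.IsComplete ∧ A ⊨ T ∧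
    (∃ M : Language.Theory.ModelType.{0, 0, 0} T, Infinite M) ∧
    ∀ M N : Language.Theory.ModelType.{0, 0, 0} T, Countable M → Countable N →
      Nonempty (M ≃[sig a] N)

end Pool.Agent.P.MP_dc233e_lc
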