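import Pool.Agent.P.MP_dc233e_lc.BnF

/-!
One direction of the Ryll-Nardzewski theorem: a countable structure in a relational language whose
automorphism group has finitely many orbits on `n`-tuples for each `n` is determined up to
isomorphism among countable structures by its complete theory.
-/

namespace Pool.Agent.P.MP_dc233e_lc

open FirstOrder FirstOrder.Language

variable {L : FirstOrder.Language.{0, 0}} {A N : Type} [L.Structure A] [L.Structure N]

/-- same type -/
def SameTp (L : FirstOrder.Language.{0, 0}) {A N : Type} [L.Structure A] [L.Structure N] {n : ℕ}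
    (v : Fin n → A) (w : Fin n → N) : Prop :=
  ∀ φ : L.BoundedFormula Empty n, φ.Realize default v ↔ φ.Realize default w

def Oligo (L : FirstOrder.Language.{0, 0}) (A : Type) [L.Structure A] : Prop :=
  ∀ n, ∃ (ι : Type) (_ : Finite ι) (c : (Fin n → A) → ι),
    ∀ v v', c v = c v' → ∃ φ : A ≃[L] A, φ ∘ v = v'

theorem exists_isolating (h : Oligo L A) (n : ℕ) :
    ∃ (ι : Type) (_ : Finite ι) (χ : ι → L.BoundedFormula Empty n),
      (∀ v : Fin n → A, ∃ i, (χ i).Realize default v) ∧
      ∀ i (v v' : Fin n → A), (χ i).Realize default v → (χ i).Realize default v' →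
        SameTp L v v' := by
  classical
  obtain ⟨ι, hι, c, hc⟩ := h n
  have hs : ∀ v v', c v = c v' → SameTp L v v' := by
    intro v v' h φ
    obtain ⟨g, rfl⟩ := hc v v' h
    have := StrongHomClass.realize_boundedFormula g φ (v := default) (xs := v)
    rw [← this, Subsingleton.elim (g ∘ default) default]
  let J := Set.range c
  let r : J → Fin n → A := fun i => i.2.choose
  have hr : ∀ i : J, c (r i) = i.1 := fun i => i.2.choose_spec
  have sep : ∀ i j : J, ∃ φ : L.BoundedFormula Empty n, φ.Realize default (r i) ∧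
      (¬ SameTp L (r i) (r j) → ¬ φ.Realize default (r j)) := by
    intro i j
    by_cases h : SameTp L (r i) (r j)
    · exact ⟨⊤, by simp, fun h' => absurd h h'⟩
    · simp only [SameTp, not_forall] at h
      obtain ⟨φ, hφ⟩ := h
      by_cases h1 : φ.Realize default (r i)
      · exact ⟨φ, h1, fun _ h2 => hφ ⟨fun _ => h2, fun _ => h1⟩⟩
      · refine ⟨φ.not, h1, fun _ h2 => hφ ⟨fun h3 => absurd h3 h1, fun h3 => absurd h3 h2⟩⟩
  choose sp hsp1 hsp2 using sep
  have key : ∀ (i : J) (v : Fin n → A), (BoundedFormula.iInf (sp i)).Realize default v →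
      SameTp L (r i) v := by
    intro i v hv
    rw [BoundedFormula.realize_iInf] at hv
    have h1 : SameTp L (r ⟨c v, v, rfl⟩) v := hs _ _ (hr _)
    by_cases h2 : SameTp L (r i) (r ⟨c v, v, rfl⟩)
    · exact fun φ => (h2 φ).trans (h1 φ)
    · exact absurd ((h1 _).2 (hv _)) (hsp2 _ _ h2)
  refine ⟨J, inferInstance, fun i => BoundedFormula.iInf (sp i), fun v => ⟨⟨c v, v, rfl⟩, ?_⟩,
    fun i v v' h1 h2 φ => ((key i v h1 φ).symm).trans (key i v' h2 φ)⟩
  refine (hs _ _ (hr ⟨c v, v, rfl⟩) _).1 ?_
  rw [BoundedFormula.realize_iInf]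
  exact hsp1 _

theorem transfer_alls [N ⊨ L.completeTheory A] {n : ℕ} (φ : L.BoundedFormula Empty n)
    (h : ∀ v : Fin n → A, φ.Realize default v) (w : Fin n → N) : φ.Realize default w := by
  have h1 : A ⊨ (φ.alls : L.Sentence) := BoundedFormula.realize_alls.2 h
  have h2 : N ⊨ (φ.alls : L.Sentence) := (realize_iff_of_model_completeTheory A N _).2 h1
  exact BoundedFormula.realize_alls.1 h2 w

theorem sameTp_of_isolating [N ⊨ L.completeTheory A] {n : ℕ} {χ : L.BoundedFormula Empty n}
    (hχ : ∀ v v' : Fin n → A, χ.Realize default v → χ.Realize default v' → SameTp L v v')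
    {v : Fin n → A} {w : Fin n → N} (hv : χ.Realize default v) (hw : χ.Realize default w) :
    SameTp L v w := by
  have key : ∀ φ : L.BoundedFormula Empty n, φ.Realize default v → φ.Realize default w := by
    intro φ h
    have := transfer_alls (A := A) (N := N) (χ.imp φ) (fun v' => by
      rw [BoundedFormula.realize_imp]
      exact fun h' => (hχ v v' hv h' φ).1 h) w
    exact BoundedFormula.realize_imp.1 this hw
  intro φ
  refine ⟨key φ, fun h => ?_⟩
  by_contra h1
  exact key φ.not h1 h

def tup {X : Type} : (p : List X) → Fin p.length → X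
  | [] => Fin.elim0
  | x :: p => Fin.snoc (α := fun _ => X) (tup p) x

theorem mem_tup {X : Type} {p : List X} {x : X} (h : x ∈ p) : ∃ i, tup p i = x := by
  induction p with
  | nil => simp at h
  | cons y p ih =>
    rcases List.mem_cons.1 h with rfl | h
    · exact ⟨Fin.last _, by simp [tup]⟩
    · obtain ⟨i, hi⟩ := ih h
      exact ⟨i.castSucc, by simp [tup, hi]⟩

theorem iso_of_oligo [L.IsRelational] [Countable A] [Countable N] [Nonempty A] [Nonempty N]
    (h : Oligo L A) [N ⊨ L.completeTheory A] : Nonempty (A ≃[L] N) := by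
  classical
  obtain ⟨μ, hμ⟩ := exists_surjective_nat A
  obtain ⟨ν, hν⟩ := exists_surjective_nat N
  let PI : List (A × N) → Prop := fun p => SameTp L (Prod.fst ∘ tup p) (Prod.snd ∘ tup p)
  have hcons : ∀ p a b, PI ((a, b) :: p) ↔
      SameTp L (Fin.snoc (α := fun _ => A) (Prod.fst ∘ tup p) a)
        (Fin.snoc (α := fun _ => N) (Prod.snd ∘ tup p) b) := by
    intro p a b
    simp only [PI, tup]
    rw [Fin.comp_snoc, Fin.comp_snoc]
  obtain ⟨θ, -, -, -, -, hθ⟩ := bnf hμ hν PI
    (fun p hp x hx y hy => by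
      obtain ⟨i, rfl⟩ := mem_tup hx
      obtain ⟨j, rfl⟩ := mem_tup hy
      simpa using hp (Term.bdEqual (Term.var (Sum.inr i)) (Term.var (Sum.inr j))))
    (fun p hp a => by
      obtain ⟨ι, hι, χ, h1, h2⟩ := exists_isolating h (p.length + 1)
      obtain ⟨i, hi⟩ := h1 (Fin.snoc (α := fun _ => A) (Prod.fst ∘ tup p) a)
      obtain ⟨b, hb⟩ := BoundedFormula.realize_ex.1
        ((hp (χ i).ex).1 (BoundedFormula.realize_ex.2 ⟨a, hi⟩))
      exact ⟨b, (hcons p a b).2 (sameTp_of_isolating (h2 i) hi hb)⟩)
    (fun p hp b => by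
      obtain ⟨ι, hι, χ, h1, h2⟩ := exists_isolating h (p.length + 1)
      obtain ⟨i, hi⟩ := BoundedFormula.realize_iSup.1 (transfer_alls (A := A) (N := N)
        (BoundedFormula.iSup χ) (fun v => BoundedFormula.realize_iSup.2 (h1 v))
        (Fin.snoc (α := fun _ => N) (Prod.snd ∘ tup p) b))
      obtain ⟨a, ha⟩ := BoundedFormula.realize_ex.1
        ((hp (χ i).ex).2 (BoundedFormula.realize_ex.2 ⟨b, hi⟩))
      exact ⟨a, (hcons p a b).2 (sameTp_of_isolating (h2 i) ha hi)⟩)
    (fun q => decide (PI (q.map (Prod.map μ ν)))) (fun q => by simp) []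
    (by
      have h0 : ∀ (v : Fin 0 → A) (w : Fin 0 → N), SameTp L v w := by
        intro v w φ
        have := realize_iff_of_model_completeTheory A N φ
        rw [Subsingleton.elim v default, Subsingleton.elim w default]
        exact this.symm
      exact decide_eq_true (h0 _ _))
  refine ⟨⟨θ, fun {n} f => isEmptyElim f, fun {n} r x => ?_⟩⟩
  obtain ⟨p, hp, hx⟩ := hθ (List.ofFn x)
  have : ∀ i, ∃ j, tup p j = (x i, θ (x i)) := fun i => mem_tup (hx _ (by simp))
  choose idx hidx using this
  have := hp (r.boundedFormula (fun i => Term.var (Sum.inr (idx i))))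
  simp only [BoundedFormula.realize_rel, Term.realize_var, Sum.elim_inr, Function.comp,
    hidx] at this
  exact this.symm

end Pool.Agent.P.MP_dc233e_lc
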