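import Pool.Agent.P.MP_dc233e_lc.Main

/-!
A countably categorical structure of computable dimension two.
-/

namespace Pool.Agent.P.MP_dc233e_lc.DimTwo

open Pool.Agent.P.MP_dc233e_lc

/-- There is a countably categorical structure, in a computable relational signature, that has a
constructivization, is not autostable (its dimension is not `1`, in fact it is `2`) and is not
effectively infinite. -/
theorem result : ∃ (a : ℕ → ℕ) (A : Type) (_ : (sig a).Structure A),
    Computable a ∧ CountCat a A ∧ (∃ ν : ℕ → A, IsConstr a ν) ∧
      dim a A ≠ 1 ∧ ¬ EffInf a A ∧ dim a A = 2 :=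
  ⟨lar, ℕ, redS, c_lar, countCat, exists_constr, by rw [dim_eq]; decide, not_effInf, dim_eq⟩

end Pool.Agent.P.MP_dc233e_lc.DimTwo
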