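import Pool.Agent.P.MP_dc233e_lc.Tree

/-!
Invariants of the tree construction.
-/

namespace Pool.Agent.P.MP_dc233e_lc

theorem TT_cases (s : ℕ) (α : List ℕ) :
    (Vis s α ∧ ac s α.length ≠ 0) ∨ (Ini s α ∧ TT (s + 1) α = fresh) ∨
    (TT (s + 1) α = TT s α ∧ ¬ Ini s α ∧ (Vis s α → ac s α.length = 0)) := by
  by_cases h : Vis s α
  · by_cases h0 : ac s α.length = 0
    · exact Or.inr (Or.inr ⟨TT_ac0 h h0, h.not_ini, fun _ => h0⟩)
    · exact Or.inl ⟨h, h0⟩
  · by_cases hi : Ini s α
    · exact Or.inr (Or.inl ⟨hi, TT_ini hi⟩)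
    · exact Or.inr (Or.inr ⟨TT_idle h hi, hi, fun h1 => absurd h1 h⟩)

/-- either the node is idle on the interval, or there is a first action -/
theorem next_act {α : List ℕ} {t s : ℕ} (hts : t ≤ s) (hN : NoIni α t s) :
    (TT s α = TT t α ∧ ∀ r, t ≤ r → r < s → Vis r α → ac r α.length = 0) ∨
    ∃ r, t ≤ r ∧ r < s ∧ Vis r α ∧ ac r α.length ≠ 0 ∧ TT r α = TT t α := by
  induction s, hts using Nat.le_induction with
  | base => exact Or.inl ⟨rfl, fun r h1 h2 => by omega⟩
  | succ s hs ih =>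
    rcases ih (hN.mono le_rfl (Nat.le_succ s)) with ⟨h1, h2⟩ | ⟨r, h1, h2, h3⟩
    · rcases TT_cases s α with ⟨h3, h4⟩ | ⟨h3, -⟩ | ⟨h3, -, h5⟩
      · exact Or.inr ⟨s, hs, Nat.lt_succ_self s, h3, h4, h1⟩
      · exact absurd h3 (hN s hs (Nat.lt_succ_self s))
      · refine Or.inl ⟨h3.trans h1, fun r hr1 hr2 hv => ?_⟩
        rcases Nat.lt_or_ge r s with h | h
        · exact h2 r hr1 h hv
        · obtain rfl : r = s := by omega
          exact h5 hv
    · exact Or.inr ⟨r, h1, by omega, h3⟩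

theorem persist {α : List ℕ} {s s' : ℕ} (h : (TT s α).ph ≠ 0) (hs : s ≤ s') (hN : NoIni α s s') :
    (TT s' α).ph ≠ 0 ∧ (TT s' α).bi = (TT s α).bi := by
  induction s', hs using Nat.le_induction with
  | base => exact ⟨h, rfl⟩
  | succ r hr ih =>
    obtain ⟨h1, h2⟩ := ih (hN.mono le_rfl (Nat.le_succ r))
    rcases TT_cases r α with ⟨h3, h4⟩ | ⟨h3, -⟩ | ⟨h3, -, -⟩
    · rcases ac_cases r α.length with h5 | h5 | h5 | h5 | h5
      · exact absurd h5 h4
      · exact absurd (h3.ph_of_ac1.1 h5) h1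
      · rw [TT_ac2 h3 h5]; exact ⟨by simp, h2⟩
      · rw [TT_ac3 h3 h5]; exact ⟨by simp, h2⟩
      · rw [TT_ac4 h3 h5]; exact ⟨by simp, h2⟩
    · exact absurd h3 (hN r hr (Nat.lt_succ_self r))
    · rw [h3]; exact ⟨h1, h2⟩

theorem eX_lab (c i : ℕ) :
    eX (lab c i) = if ac c i = 1 then co c i else co (st c i).bi i := by
  simp [eX]

theorem eY_lab (c i : ℕ) : eY (lab c i) = if ac c i = 2 then 0 else (cx c i).1 := by
  simp [eY]

theorem eB_lab (c i : ℕ) : eB (lab c i) = if ac c i = 2 then (cx c i).2.2 else false := by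
  simp [eB]

structure Inv (s : ℕ) (α : List ℕ) : Prop where
  ph_le : (TT s α).ph ≤ 3
  bi_le : (TT s α).bi ≤ (TT s α).cu
  cu_lt : (TT s α).cu < s
  vis_bi : Vis (TT s α).bi α
  ac_bi : ac (TT s α).bi α.length = 1
  noIni : NoIni α (TT s α).bi s
  vis_cu : Vis (TT s α).cu α
  ph1 : (TT s α).ph = 1 → ac (TT s α).cu α.length = 1 ∨ ac (TT s α).cu α.length = 4
  ph2 : (TT s α).ph ≠ 1 →
    ac (TT s α).cu α.length = 2 ∧ (cx (TT s α).cu α.length).2.2 = (TT s α).ta
  eX_cu : eX (lab (TT s α).cu α.length) = co (TT s α).bi α.length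
  ph3 : (TT s α).ph = 3 → ∃ t, (TT s α).cu < t ∧ t < s ∧ Vis t α ∧ ac t α.length = 3 ∧
    TT (t + 1) α = TT s α ∧ ∀ r, t < r → r < s → Vis r α → ac r α.length = 0

theorem NoIni.succ {α : List ℕ} {a s : ℕ} (h : NoIni α a s) (h1 : ¬ Ini s α) :
    NoIni α a (s + 1) := fun t h2 h3 => by
  rcases Nat.lt_or_ge t s with h4 | h4
  · exact h t h2 h4
  · obtain rfl : t = s := by omega
    exact h1

theorem inv (s : ℕ) (α : List ℕ) (h : (TT s α).ph ≠ 0) : Inv s α := by
  induction s with
  | zero => exact absurd rfl h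
  | succ s ih =>
    rcases TT_cases s α with ⟨h3, h4⟩ | ⟨-, h3⟩ | ⟨h3, h4, h5⟩
    · rcases ac_cases s α.length with h5 | h5 | h5 | h5 | h5
      · exact absurd h5 h4
      · have e := TT_ac1 h3 h5
        refine ⟨?_, ?_, ?_, ?_, ?_, ?_, ?_, ?_, ?_, ?_, ?_⟩ <;> rw [e] <;> dsimp only
        · omega
        · omega
        · exact h3
        · exact h5
        · intro t h6 h7
          obtain rfl : t = s := by omega
          exact h3.not_ini
        · exact h3
        · exact fun _ => Or.inl h5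
        · exact fun h => absurd rfl h
        · rw [eX_lab, if_pos h5]
        · exact fun h => by omega
      · have e := TT_ac2 h3 h5
        have hp := h3.ph_of_ac2 h5
        have I := ih (by omega)
        refine ⟨?_, ?_, ?_, ?_, ?_, ?_, ?_, ?_, ?_, ?_, ?_⟩ <;> rw [e] <;> dsimp only
        · omega
        · exact I.bi_le.trans I.cu_lt.le
        · omega
        · exact I.vis_bi
        · exact I.ac_bi
        · exact I.noIni.succ h3.not_ini
        · exact h3
        · exact fun h => by omega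
        · exact fun _ => ⟨h5, rfl⟩
        · rw [eX_lab, if_neg (by omega), h3.st_eq]
        · exact fun h => by omega
      · have e := TT_ac3 h3 h5
        have hp := h3.ph_of_ac3 h5
        have I := ih (by omega)
        refine ⟨?_, ?_, ?_, ?_, ?_, ?_, ?_, ?_, ?_, ?_, ?_⟩
        · rw [e]
        · rw [e]; exact I.bi_le
        · rw [e]; exact I.cu_lt.trans (Nat.lt_succ_self s)
        · rw [e]; exact I.vis_bi
        · rw [e]; exact I.ac_bi
        · rw [e]; exact I.noIni.succ h3.not_ini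
        · rw [e]; exact I.vis_cu
        · rw [e]; exact fun h => by simp at h
        · rw [e]; exact fun _ => I.ph2 (by omega)
        · rw [e]; exact I.eX_cu
        · intro _
          refine ⟨s, ?_, Nat.lt_succ_self s, h3, h5, rfl, fun r h6 h7 => by omega⟩
          rw [e]; exact I.cu_lt
      · have e := TT_ac4 h3 h5
        have hp := h3.ph_of_ac4 h5
        have I := ih (by omega)
        refine ⟨?_, ?_, ?_, ?_, ?_, ?_, ?_, ?_, ?_, ?_, ?_⟩ <;> rw [e] <;> dsimp only
        · omega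
        · exact I.bi_le.trans I.cu_lt.le
        · omega
        · exact I.vis_bi
        · exact I.ac_bi
        · exact I.noIni.succ h3.not_ini
        · exact h3
        · exact fun _ => Or.inr h5
        · exact fun h => absurd rfl h
        · rw [eX_lab, if_neg (by omega), h3.st_eq]
        · exact fun h => by omega
    · rw [h3] at h; exact absurd rfl h
    · have I := ih (by rw [← h3]; exact h)
      refine ⟨?_, ?_, ?_, ?_, ?_, ?_, ?_, ?_, ?_, ?_, ?_⟩ <;> rw [h3]
      · exact I.ph_le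
      · exact I.bi_le
      · exact I.cu_lt.trans (Nat.lt_succ_self s)
      · exact I.vis_bi
      · exact I.ac_bi
      · exact I.noIni.succ h4
      · exact I.vis_cu
      · exact I.ph1
      · exact I.ph2
      · exact I.eX_cu
      · intro hp
        obtain ⟨t, g1, g2, g3, g4, g5, g6⟩ := I.ph3 hp
        refine ⟨t, g1, by omega, g3, g4, g5, fun r hr1 hr2 hv => ?_⟩
        rcases Nat.lt_or_ge r s with h6 | h6
        · exact g6 r hr1 h6 hv
        · obtain rfl : r = s := by omega
          exact h5 hv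

theorem cu_mono {α : List ℕ} {s s' : ℕ} (h : (TT s α).ph ≠ 0) (hs : s ≤ s')
    (h' : (TT s' α).ph ≠ 0) : (TT s α).cu ≤ (TT s' α).cu := by
  have hc := (inv s α h).cu_lt
  induction s', hs using Nat.le_induction with
  | base => exact le_rfl
  | succ r hr ih =>
    rcases TT_cases r α with ⟨h3, h4⟩ | ⟨-, h3⟩ | ⟨h3, -, -⟩
    · rcases ac_cases r α.length with h5 | h5 | h5 | h5 | h5
      · exact absurd h5 h4
      · rw [TT_ac1 h3 h5]; dsimp only; omega
      · rw [TT_ac2 h3 h5]; dsimp only; omega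
      · have hp := h3.ph_of_ac3 h5
        rw [TT_ac3 h3 h5]; exact ih (by omega)
      · rw [TT_ac4 h3 h5]; dsimp only; omega
    · rw [h3] at h'; exact absurd rfl h'
    · rw [h3] at h' ⊢; exact ih h'

/-- after an action that creates a label, the state is not fresh and points to that label -/
theorem after_create {α : List ℕ} {c : ℕ} (hv : Vis c α)
    (h : ac c α.length = 1 ∨ ac c α.length = 2 ∨ ac c α.length = 4) :
    (TT (c + 1) α).ph ≠ 0 ∧ (TT (c + 1) α).cu = c ∧ (TT (c + 1) α).ph ≠ 3 := by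
  rcases h with h | h | h
  · rw [TT_ac1 hv h]; simp
  · rw [TT_ac2 hv h]; simp
  · rw [TT_ac4 hv h]; simp

theorem py_const {s t : ℕ} (hst : s ≤ t) : ∀ i, nd s i = nd t i → NoIni (nd s i) s t →
    (cx s i).1 = (cx t i).1 := by
  intro i
  induction i with
  | zero => intro _ _; rfl
  | succ i ih =>
    intro h hN
    rw [nd_succ, nd_succ] at h
    obtain ⟨h1, h2⟩ := List.append_inj' h rfl
    have h3 : ou s i = ou t i := by simpa using h2
    have hN' : NoIni (nd s i) s t := hN.pre (nd_prefix (Nat.le_succ i))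
    rw [cx_succ, cx_succ, ← h3]
    split_ifs with h4
    · have h5 := ac_of_ou h4
      rw [ac, act_eq_three] at h5
      have h6 := persist (α := nd s i) (s := s) (by have := h5.1; unfold st at this; omega) hst hN'
      dsimp only
      unfold st
      rw [← h1, h6.2]
    · exact ih h1 hN'

theorem cx_cases (s i : ℕ) :
    (cx s i = (1, rl s, s.bodd) ∧ ∀ p, p < i → ou s p = 4) ∨
    ∃ p, p < i ∧ ou s p < 4 ∧ cx s i = (co (st s p).bi p, lab (st s p).cu p, (st s p).ta) ∧
      ∀ q, p < q → q < i → ou s q = 4 := by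
  induction i with
  | zero => exact Or.inl ⟨rfl, fun p h => by omega⟩
  | succ i ih =>
    rw [cx_succ]
    by_cases h : ou s i < 4
    · rw [if_pos h]
      exact Or.inr ⟨i, Nat.lt_succ_self i, h, rfl, fun q h1 h2 => by omega⟩
    · rw [if_neg h]
      have h4 : ou s i = 4 := by have := ou_le s i; omega
      rcases ih with ⟨h1, h2⟩ | ⟨p, h1, h2, h3, h5⟩
      · refine Or.inl ⟨h1, fun p hp => ?_⟩
        rcases Nat.lt_or_ge p i with h6 | h6
        · exact h2 p h6
        · obtain rfl : p = i := by omega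
          exact h4
      · refine Or.inr ⟨p, by omega, h2, h3, fun q hq1 hq2 => ?_⟩
        rcases Nat.lt_or_ge q i with h6 | h6
        · exact h5 q hq1 h6
        · obtain rfl : q = i := by omega
          exact h4

theorem ph_of_ou {s p : ℕ} (h : ou s p < 4) : (TT s (nd s p)).ph = 2 := by
  have h5 := ac_of_ou h
  rw [ac, act_eq_three] at h5
  exact h5.1

theorem inv_st {s p : ℕ} (h : (TT s (nd s p)).ph ≠ 0) : Inv s (nd s p) := inv _ _ h

theorem pa_edge (s i : ℕ) : eX (cx s i).2.1 = (cx s i).1 ∧ eY (cx s i).2.1 = 0 ∧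
    eB (cx s i).2.1 = (cx s i).2.2 ∧ (cx s i).1 ≠ 0 := by
  rcases cx_cases s i with ⟨h, -⟩ | ⟨p, -, h2, h, -⟩
  · rw [h]; simp [eX, eY, eB]
  · have hp := ph_of_ou h2
    have I := inv_st (s := s) (p := p) (by omega)
    have h3 := I.ph2 (by omega)
    have h4 := I.eX_cu
    simp only [nd_length] at h3 h4
    rw [h]
    dsimp only
    refine ⟨h4, ?_, ?_, ?_⟩
    · rw [eY_lab]; exact if_pos h3.1
    · rw [eB_lab]; unfold st; rw [if_pos h3.1]; exact h3.2
    · have := two_le_co (st s p).bi p; omega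

theorem ph_of_tr {s i : ℕ} {x : ℕ × ℕ × ℕ} (h : tr s i = some x) : (TT s (nd s i)).ph ≠ 0 := by
  rcases (tr_eq_some.1 h).1 with h1 | h1
  · rw [ac, act_eq_two] at h1; have := h1.1; unfold st at this; omega
  · rw [ac, act_eq_four] at h1; have := h1.1; unfold st at this; omega

/-- the three labels of a triangle -/
theorem tri_edges {s i : ℕ} {x : ℕ × ℕ × ℕ} (h : tr s i = some x) :
    eX x.1 = eX x.2.1 ∧ eY x.2.2 = 0 ∧ eX x.2.2 ≠ 0 ∧
    ((eY x.1 = 0 ∧ eY x.2.1 = eX x.2.2 ∧ eB x.1 = eB x.2.2 ∧ eB x.2.1 = false) ∨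
     (eY x.2.1 = 0 ∧ eY x.1 = eX x.2.2 ∧ eB x.2.1 = eB x.2.2 ∧ eB x.1 = false)) := by
  have I := inv_st (ph_of_tr h)
  obtain ⟨h1, rfl⟩ := tr_eq_some.1 h
  obtain ⟨p1, p2, p3, p4⟩ := pa_edge s i
  have hX := I.eX_cu
  have hv := I.vis_cu
  simp only [nd_length] at hX
  dsimp only
  rw [p1, p3]
  have hne1 : ac s i ≠ 1 := by omega
  refine ⟨?_, p2, p4, ?_⟩
  · rw [eX_lab, if_neg hne1]; exact hX.symm
  · rcases h1 with h1 | h1
    · left
      have hp : (TT s (nd s i)).ph = 1 := by rw [ac, act_eq_two] at h1; exact h1.1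
      have h2 := I.ph1 hp
      simp only [nd_length] at h2
      have h3 : ac (st s i).cu i ≠ 2 := by unfold st; omega
      refine ⟨?_, ?_, ?_, ?_⟩
      · rw [eY_lab, if_pos h1]
      · rw [eY_lab, if_neg h3]
        have h4 : nd (TT s (nd s i)).cu i = nd s i := by
          have := hv.2; simpa only [nd_length] using this
        refine py_const I.cu_lt.le i h4 ?_
        rw [h4]; exact I.noIni.mono I.bi_le le_rfl
      · rw [eB_lab, if_pos h1]
      · rw [eB_lab, if_neg h3]
    · right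
      have hp := act_eq_four.1 h1
      have h2 := I.ph2 (by have := hp.1; unfold st at this; omega)
      simp only [nd_length] at h2
      have h3 : ac s i ≠ 2 := by omega
      refine ⟨?_, ?_, ?_, ?_⟩
      · rw [eY_lab]; exact if_pos h2.1
      · rw [eY_lab, if_neg h3]
      · rw [eB_lab]; unfold st; rw [if_pos h2.1, h2.2]; exact hp.2.2.symm
      · rw [eB_lab, if_neg h3]

theorem kill_facts {t j c i : ℕ} {x : ℕ × ℕ × ℕ} (h : tr t j = some x) (hk : x.2.1 = lab c i) :
    j = i ∧ (TT t (nd t i)).cu = c ∧ nd c i = nd t i ∧ c < t := by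
  have I := inv_st (ph_of_tr h)
  obtain ⟨-, rfl⟩ := tr_eq_some.1 h
  obtain ⟨h1, rfl⟩ := lab_inj.1 hk
  have h2 := I.vis_cu.2
  have h3 := I.cu_lt
  simp only [nd_length] at h2
  unfold st at h1
  rw [h1] at h2 h3
  exact ⟨rfl, h1, h2, h3⟩

theorem kill_unique {t t' j j' c i : ℕ} {x x' : ℕ × ℕ × ℕ} (hj : j < t) (hj' : j' < t')
    (h : tr t j = some x) (hk : x.2.1 = lab c i) (h' : tr t' j' = some x')
    (hk' : x'.2.1 = lab c i) : t = t' := by
  have key : ∀ {t t' j j' : ℕ} {x x' : ℕ × ℕ × ℕ}, j < t → tr t j = some x → x.2.1 = lab c i →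
      tr t' j' = some x' → x'.2.1 = lab c i → ¬ t < t' := by
    intro t t' j j' x x' hj h hk h' hk' hlt
    obtain ⟨rfl, -, a3, a4⟩ := kill_facts h hk
    obtain ⟨rfl, b2, b3, -⟩ := kill_facts h' hk'
    have hv : Vis t (nd t j') := vis_nd hj
    have h1 := after_create hv (by
      simp only [nd_length]; rcases (tr_eq_some.1 h).1 with h2 | h2 <;> simp [h2])
    have h2 := ph_of_tr h'
    rw [← b3, a3] at h2 b2
    have := cu_mono h1.1 hlt h2
    omega
  have := key hj h hk h' hk'
  have := key hj' h' hk' h hk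
  omega

theorem created_iff {s i : ℕ} :
    created s i = true ↔ i < s ∧ (ac s i = 1 ∨ ac s i = 2 ∨ ac s i = 4) := by
  simp [created, or_assoc]

theorem alive_iff {l : ℕ} : Alive l ↔ l.unpair.2 ≠ 0 ∧
    created l.unpair.1 (l.unpair.2 - 1) = true ∧
    (∀ t, l.unpair.1 < t → ¬ Ini t (nd l.unpair.1 (l.unpair.2 - 1))) ∧
    (∀ t j x, j < t → tr t j = some x → x.2.1 = l → x.2.2.unpair.2 ≠ 0) ∧
    (∀ t p x, p < t → ac t p = 4 → x ∈ (st t p).ck → x.2.1 = l →
      x.2.2 ≠ lab (st t p).cu p) := by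
  simp only [Alive, deadAt, Bool.or_eq_false_iff, beq_eq_false_iff_ne, Bool.not_eq_false',
    Bool.and_eq_false_iff, decide_eq_false_iff_not, List.any_eq_false, List.mem_range]
  constructor
  · intro h
    refine ⟨(h 0).1.1.1.1, (h 0).1.1.1.2, fun t ht hi => ?_, fun t j x hj hx hk h0 => ?_,
      fun t p x hp ha hx hk h0 => ?_⟩
    · rcases (h t).1.1.2 with h1 | h1
      · exact h1 ht
      · rw [(rightOf_iff _ _).2 hi] at h1; exact absurd h1 (by simp)
    · have := (h t).1.2 j hj
      rw [hx] at this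
      simp [hk, h0] at this
    · have := (h t).2 p hp
      simp only [Bool.and_eq_true, beq_iff_eq, List.any_eq_true, not_and, not_exists] at this
      exact this ha x hx hk h0
  · rintro ⟨h1, h2, h3, h4, h5⟩ t
    refine ⟨⟨⟨⟨h1, h2⟩, ?_⟩, fun j hj => ?_⟩, fun p hp => ?_⟩
    · by_cases ht : l.unpair.1 < t
      · right
        cases hr : rightOf t (TT t) (nd l.unpair.1 (l.unpair.2 - 1))
        · rfl
        · exact absurd ((rightOf_iff _ _).1 hr) (h3 t ht)
      · exact Or.inl ht
    · cases hx : tr t j with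
      | none => simp
      | some x =>
        have := h4 t j x hj hx
        simpa using this
    · simp only [Bool.and_eq_true, beq_iff_eq, List.any_eq_true, not_and, not_exists]
      exact fun ha x hx hk => h5 t p x hp ha hx hk

theorem alive_lab {c i : ℕ} : Alive (lab c i) ↔ created c i = true ∧
    (∀ t, c < t → ¬ Ini t (nd c i)) ∧
    (∀ t j x, j < t → tr t j = some x → x.2.1 = lab c i → x.2.2.unpair.2 ≠ 0) ∧
    (∀ t p x, p < t → ac t p = 4 → x ∈ (st t p).ck → x.2.1 = lab c i →
      x.2.2 ≠ lab (st t p).cu p) := by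
  rw [alive_iff]; simp

theorem Alive.exists_lab {l : ℕ} (h : Alive l) : ∃ c i, l = lab c i := by
  have h1 := (alive_iff.1 h).1
  refine ⟨l.unpair.1, l.unpair.2 - 1, ?_⟩
  rw [lab, Nat.sub_add_cancel (by omega), Nat.pair_unpair]

/-- where the triangles on a check list come from -/
theorem ck_origin {t p : ℕ} {x : ℕ × ℕ × ℕ} (ha : ac t p = 4) (hx : x ∈ (st t p).ck) :
    ∃ t0 j, t0 < t ∧ nd t0 p = nd t p ∧ ou t0 p < 4 ∧ TT (t0 + 1) (nd t p) = TT t (nd t p) ∧
      p < j ∧ j < t0 ∧ tr t0 j = some x := by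
  have hp := (act_eq_four.1 ha).1
  unfold st at hp hx
  have I := inv_st (s := t) (p := p) (by omega)
  obtain ⟨t0, -, g2, g3, g4, g5, -⟩ := I.ph3 (by have := I.ph_le; omega)
  have e := TT_ac3 g3 g4
  have g6 := g3.2
  simp only [nd_length] at e g6
  rw [← g5, e] at hx
  dsimp only at hx
  split_ifs at hx with h4
  · obtain ⟨j, h5, h6, h7⟩ := mem_later.1 hx
    exact ⟨t0, j, g2, g6, h4, g5, h6, h5, h7⟩
  · simp at hx

theorem not_kill_alive {c i : ℕ} (h1 : created c i = true) (h2 : ∀ t, c < t → ¬ Ini t (nd c i))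
    (h3 : ∀ t j x, j < t → tr t j = some x → x.2.1 ≠ lab c i) : Alive (lab c i) := by
  refine alive_lab.2 ⟨h1, h2, fun t j x hj hx hk => absurd hk (h3 t j x hj hx),
    fun t p x _ ha hx hk => ?_⟩
  obtain ⟨t0, j, -, -, -, -, -, g6, g7⟩ := ck_origin ha hx
  exact absurd hk (h3 t0 j x g6 g7)

/-- after an event at `t` the first action is the relink, with the state left by the event -/
theorem after_event {π : List ℕ} {t s : ℕ} (hv : Vis t π) (ha : ac t π.length = 3) (hts : t < s)
    (hN : NoIni π (t + 1) s) :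
    (TT s π = TT (t + 1) π ∧ ∀ r, t < r → r < s → Vis r π → ac r π.length = 0) ∨
    ∃ r, t < r ∧ r < s ∧ Vis r π ∧ ac r π.length = 4 ∧ TT r π = TT (t + 1) π := by
  rcases next_act hts hN with h | ⟨r, h1, h2, h3, h4, h5⟩
  · exact Or.inl h
  · refine Or.inr ⟨r, h1, h2, h3, ?_, h5⟩
    have hp : (TT r π).ph = 3 := by rw [h5, TT_ac3 hv ha]
    rcases ac_cases r π.length with h6 | h6 | h6 | h6 | h6
    · exact absurd h6 h4
    · have := h3.ph_of_ac1.1 h6; omega
    · have := h3.ph_of_ac2 h6; omega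
    · have := h3.ph_of_ac3 h6; omega
    · exact h6

/-- the relink after an event kills the marked labels of the children -/
theorem cleanup_kills {t i p r : ℕ} {x : ℕ × ℕ × ℕ} (hi : i < t) (hx : tr t i = some x)
    (hp : p < i) (ho : ou t p < 4) (hpa : x.2.2 = lab (st t p).cu p)
    (hv : Vis r (nd t p)) (ha : ac r p = 4) (hT : TT r (nd t p) = TT (t + 1) (nd t p)) :
    ¬ Alive x.2.1 := by
  intro hA
  have hvt : Vis t (nd t p) := vis_nd (by omega)
  have e := TT_ac3 hvt (by simpa using ac_of_ou ho)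
  simp only [nd_length] at e
  have hs : st r p = TT (t + 1) (nd t p) := by
    have := hv.st_eq; simp only [nd_length] at this; rw [this, hT]
  have hrp : p < r := by simpa using hv.1
  refine (alive_iff.1 hA).2.2.2.2 r p x hrp ha ?_ rfl ?_
  · rw [hs, e]; dsimp only; rw [if_pos ho]
    exact mem_later.2 ⟨i, hi, hp, hx⟩
  · rw [hs, e]; exact hpa

theorem kill_dead {t t' i : ℕ} {x : ℕ × ℕ × ℕ} (hi : i < t) (hx : tr t i = some x)
    (htt : t < t') (hv : Vis t' (nd t i)) (hN : NoIni (nd t i) (t + 1) t') : ¬ Alive x.2.1 := by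
  have hx2 : x.2.2 = (cx t i).2.1 := by rw [(tr_eq_some.1 hx).2]
  rcases cx_cases t i with ⟨h, -⟩ | ⟨p, h1, h2, h, -⟩
  · intro hA
    refine (alive_iff.1 hA).2.2.2.1 t i x hi hx rfl ?_
    rw [hx2, h]; simp
  · have hvt : Vis t (nd t p) := vis_nd (by omega)
    have hpre : nd t p <+: nd t i := nd_prefix h1.le
    have hv' : Vis t' (nd t p) := hv.pre hpre
    have ho' : ou t' p = ou t p := by
      rw [← hv.getD (by simpa using h1), nd_getD h1]
    have ha' : ac t' (nd t p).length = 3 := by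
      simp only [nd_length]; exact ac_of_ou (by omega)
    have ha : ac t (nd t p).length = 3 := by simp only [nd_length]; exact ac_of_ou h2
    rcases after_event hvt ha htt (hN.pre hpre) with ⟨g, -⟩ | ⟨r, -, -, g3, g4, g5⟩
    · have g1 := hv'.ph_of_ac3 ha'
      rw [g, TT_ac3 hvt ha] at g1
      simp at g1
    · simp only [nd_length] at g4
      exact cleanup_kills hi hx h1 h2 (by rw [hx2, h]) g3 g4 g5

theorem pa_alive {t i : ℕ} {x : ℕ × ℕ × ℕ} (hi : i < t) (hx : tr t i = some x)
    (hA : Alive x.2.1) : Alive x.2.2 := by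
  have hx2 : x.2.2 = (cx t i).2.1 := by rw [(tr_eq_some.1 hx).2]
  have hx1 : x.2.1 = lab (st t i).cu i := by rw [(tr_eq_some.1 hx).2]
  rcases cx_cases t i with ⟨h, -⟩ | ⟨p, h1, h2, h, -⟩
  · exfalso
    refine (alive_iff.1 hA).2.2.2.1 t i x hi hx rfl ?_
    rw [hx2, h]; simp
  · obtain ⟨-, -, k3, k4⟩ := kill_facts hx hx1
    have hA' := hA
    rw [hx1, alive_lab] at hA'
    have hvt : Vis t (nd t p) := vis_nd (by omega)
    have hpre : nd t p <+: nd t i := nd_prefix h1.le
    have ha : ac t (nd t p).length = 3 := by simp only [nd_length]; exact ac_of_ou h2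
    have hph := ph_of_ou h2
    have I := inv_st (s := t) (p := p) (by omega)
    have hvc := I.vis_cu
    have h3 := I.ph2 (by omega)
    have h4 := hvc.2
    have h5 := hvc.1
    simp only [nd_length] at h3 h4 h5
    have hafter : ∀ r, t < r → ¬ Ini r (nd t p) := fun r hr hI =>
      hA'.2.1 r (by omega) (by rw [k3]; exact hI.extend hpre)
    have hpa : x.2.2 = lab (TT t (nd t p)).cu p := by rw [hx2, h]; rfl
    rw [hpa]
    refine not_kill_alive (created_iff.2 ⟨h5, Or.inr (Or.inl h3.1)⟩) (fun r hr => ?_)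
      (fun r j y hj hy hk => ?_)
    · rw [h4]
      rcases lt_trichotomy r t with h6 | h6 | h6
      · exact I.noIni r (I.bi_le.trans hr.le) h6
      · rw [h6]; exact hvt.not_ini
      · exact hafter r h6
    · obtain ⟨rfl, b2, b3, b4⟩ := kill_facts hy hk
      rw [h4] at b3
      have hvr : Vis r (nd t j) := by rw [b3]; exact vis_nd hj
      have har := (tr_eq_some.1 hy).1
      rcases lt_trichotomy r t with h6 | h6 | h6
      · have g1 := after_create hvr (by simp only [nd_length]; omega)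
        have := cu_mono g1.1 h6 (by omega)
        omega
      · subst h6; simp only [nd_length] at ha; omega
      · have hN : NoIni (nd t j) (t + 1) (r + 1) := fun q hq _ => hafter q hq
        rcases after_event hvt ha (Nat.lt_succ_of_lt h6) hN with ⟨-, g⟩ | ⟨q, -, -, g3, g4, g5⟩
        · have := g r h6 (Nat.lt_succ_self r) hvr
          simp only [nd_length] at this; omega
        · simp only [nd_length] at g4
          exact cleanup_kills hi hx h1 h2 hpa g3 g4 g5 hA

end Pool.Agent.P.MP_dc233e_lc
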