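import Pool.Agent.P.MP_dc233e_lc.Red

/-!
The structure is countably categorical and has dimension two.
-/

namespace Pool.Agent.P.MP_dc233e_lc

open Pool.Agent.Lib.Helper43 FirstOrder

theorem two_copies : ∃ ν : Bool → ℕ → ℕ, (∀ E, IsConstr lar (ν E)) ∧
    (∀ μ, IsConstr lar μ → ∃ E, Autoeq lar μ (ν E)) ∧ ¬ Autoeq lar (ν true) (ν false) := by
  choose θ hθ using exists_theta
  refine ⟨fun E => θ E, fun E => constr_of (CFP.and (CFP.const _) c_eB0) (hθ E),
    fun μ hμ => ?_, ?_⟩
  · obtain ⟨E, θ', f, h1, h2, h3⟩ := classify hμ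
    obtain ⟨φ, hφ⟩ := aut_of_riso (θ := θ'.trans (θ E)) (h2.trans (hθ E))
    exact ⟨E, φ, f, h1, fun n => by rw [hφ, Equiv.trans_apply, h3]⟩
  · rintro ⟨φ, f, h1, h2⟩
    let g : ℕ ≃ ℕ := ((θ true).trans φ.toEquiv).trans (θ false).symm
    have hg : ⇑g = f := funext (fun n => by
      show (θ false).symm (φ (θ true n)) = f n
      rw [h2]; simp)
    exact not_riso (f := g) (hg ▸ h1) (((hθ true).trans (riso_of_aut φ)).trans (hθ false).symm)

theorem oligo : Oligo (sig lar) ℕ := by
  intro n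
  have : Finite {t : List (Fin n) // t.length ≤ n} := (List.finite_length_le (Fin n) n).to_subtype
  refine ⟨(Fin n → Fin n → Prop) × (Fin (2 * n + 1) → {t : List (Fin n) // t.length ≤ n} → Bool),
    inferInstance, fun v => (fun i j => v i = v j, fun j t => B0 j (t.1.map v)),
    fun v v' h => ?_⟩
  obtain ⟨h1, h2⟩ := Prod.mk.inj h
  have hp : PI B0 B0 (((List.finRange n).map (fun i => (v i, v' i))).map (Prod.map id id)) := by
    rw [Prod.map_id, List.map_id]
    refine ⟨fun x hx y hy => ?_, fun j t h3 h4 h5 => ?_⟩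
    · obtain ⟨i, -, rfl⟩ := List.mem_map.1 hx
      obtain ⟨j, -, rfl⟩ := List.mem_map.1 hy
      exact iff_of_eq (congrFun (congrFun h1 i) j)
    · have h6 := length_le_of h3 h5
      obtain ⟨s, -, rfl⟩ := exists_lift h3
      have h7 := le_ar j
      simp only [List.length_map, List.length_finRange] at h4 h6
      have := congrFun (congrFun h2 ⟨j, by omega⟩) ⟨s, h6⟩
      simpa [List.map_map, Function.comp_def] using this
  obtain ⟨θ, -, -, -, h3, h4⟩ := cs_iso (valid_std _) (gen_std _) (valid_std _) (gen_std _)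
    Function.surjective_id Function.surjective_id _ hp
  obtain ⟨φ, hφ⟩ := aut_of_riso (riso_of_cs θ.injective h4)
  refine ⟨φ, funext (fun i => ?_)⟩
  exact (hφ _).trans (h3 (v i, v' i) (List.mem_map.2 ⟨i, List.mem_finRange i, rfl⟩))

theorem countCat : CountCat lar ℕ := by
  refine ⟨inferInstance, (sig lar).completeTheory ℕ, Language.completeTheory.isComplete _ _,
    inferInstance, ⟨Language.Theory.ModelType.of _ ℕ, inferInstanceAs (Infinite ℕ)⟩,
    fun M N hM hN => ?_⟩
  obtain ⟨e1⟩ := iso_of_oligo (N := M) oligo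
  obtain ⟨e2⟩ := iso_of_oligo (N := N) oligo
  exact ⟨e2.comp e1.symm⟩

theorem dim_eq : dim lar ℕ = 2 := by
  obtain ⟨ν, h1, h2, h3⟩ := two_copies
  have hne : ν true ≠ ν false := fun e =>
    h3 ⟨Language.Equiv.refl _ _, id, Computable.id, fun n => by simp [e]⟩
  refine le_antisymm (iSup₂_le (fun S hS => ?_)) ?_
  · choose! E hE using h2
    have h4 : Set.InjOn E S := by
      intro x hx y hy e
      by_contra hxy
      refine hS.2 hx hy hxy ((hE x (hS.1 x hx)).trans ?_)
      rw [e]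
      exact (hE y (hS.1 y hy)).symm (hS.1 y hy) (h1 _)
    rw [← h4.encard_image]
    refine (Set.encard_le_encard (Set.subset_univ _)).trans ?_
    rw [Set.encard_univ, ENat.card_eq_coe_fintype_card]
    rfl
  · refine le_iSup₂_of_le {ν true, ν false} ⟨?_, ?_⟩ (Set.encard_pair hne).ge
    · rintro x (rfl | rfl) <;> exact h1 _
    · rintro x (rfl | rfl) y (rfl | rfl) hxy
      · exact absurd rfl hxy
      · exact h3
      · exact fun h => h3 (h.symm (h1 _) (h1 _))
      · exact absurd rfl hxy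

theorem exists_index {X : Type} [Primcodable X] {S : Set X} (h : ComputablePred (fun x => x ∈ S)) :
    ∃ c, IsIndex c S := by
  obtain ⟨f, hf, e⟩ := ComputablePred.computable_iff.1 h
  obtain ⟨c, hc⟩ := Nat.Partrec.Code.exists_code.1 hf
  refine ⟨c, fun x => ?_⟩
  have h1 : x ∈ S ↔ f x = true := iff_of_eq (congrFun e x)
  rw [hc, h1]
  cases h2 : f x <;> simp [h2]

theorem not_effInf : ¬ EffInf lar ℕ := by
  obtain ⟨ν, h1, h2, -⟩ := two_copies
  rintro ⟨F, -, hF⟩
  obtain ⟨f0, hf0, e0⟩ := ComputablePred.computable_iff.1 (h1 false).2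
  obtain ⟨f1, hf1, e1⟩ := ComputablePred.computable_iff.1 (h1 true).2
  obtain ⟨c, hc⟩ := exists_index (S := {p : ℕ × (Bool × ((ℕ × ℕ) ⊕ (ℕ × List ℕ))) |
      p.2 ∈ AD lar (ν p.1.bodd)})
    (ComputablePred.computable_iff.2 ⟨fun p => bif p.1.bodd then f1 p.2 else f0 p.2,
      CFP.cond (CFP.bodd Computable.fst) (hf1.comp Computable.snd) (hf0.comp Computable.snd),
      funext (fun p => by
        show (p.2 ∈ AD lar (ν p.1.bodd)) = ((bif p.1.bodd then f1 p.2 else f0 p.2) = true)
        cases p.1.bodd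
        · exact congrFun e0 p.2
        · exact congrFun e1 p.2)⟩)
  obtain ⟨-, -, μ, h3, -, h4⟩ := hF c (fun i => ν i.bodd) (fun i => h1 _) hc
  obtain ⟨E, hE⟩ := h2 μ h3
  cases E
  · exact h4 0 hE
  · exact h4 1 hE

theorem exists_constr : ∃ ν : ℕ → ℕ, IsConstr lar ν :=
  let ⟨ν, h, _⟩ := two_copies
  ⟨ν true, h true⟩

end Pool.Agent.P.MP_dc233e_lc
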