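import Pool.Agent.P.MP_dc233e_lc.Inv

/-!
Consistency of the alive labels and the true path.
-/

namespace Pool.Agent.P.MP_dc233e_lc

/-- birth stage of the incarnation that creates the label `(c, i)` -/
def bth (c i : ℕ) : ℕ := if ac c i = 1 then c else (st c i).bi

theorem bth_spec {c i : ℕ} (h : created c i = true) :
    eX (lab c i) = co (bth c i) i ∧ bth c i ≤ c ∧ nd (bth c i) i = nd c i ∧ i < bth c i ∧
    ac (bth c i) i = 1 ∧ NoIni (nd c i) (bth c i) (c + 1) ∧ (cx (bth c i) i).1 = (cx c i).1 := by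
  obtain ⟨h1, h2⟩ := created_iff.1 h
  have hv : Vis c (nd c i) := vis_nd h1
  unfold bth
  by_cases ha : ac c i = 1
  · simp only [if_pos ha, eX_lab]
    refine ⟨trivial, le_rfl, trivial, h1, ha, fun t h3 h4 => ?_, trivial⟩
    obtain rfl : t = c := by omega
    exact hv.not_ini
  · simp only [if_neg ha, eX_lab]
    have hp : (TT c (nd c i)).ph ≠ 0 := fun h3 => ha (by
      have := hv.ph_of_ac1.2 h3; simpa using this)
    have I := inv_st hp
    have h3 := I.vis_bi.1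
    have h4 := I.vis_bi.2
    have h5 := I.ac_bi
    simp only [nd_length] at h3 h4 h5
    have h6 : (TT c (nd c i)).bi ≤ c := I.bi_le.trans I.cu_lt.le
    refine ⟨trivial, h6, h4, h3, h5, I.noIni.succ hv.not_ini, ?_⟩
    refine py_const h6 i h4 ?_
    rw [h4]; exact I.noIni

theorem py_lt (s i : ℕ) : (cx s i).1 < co s i := by
  rcases cx_cases s i with ⟨h, -⟩ | ⟨p, h1, h2, h, -⟩
  · rw [h]; have := two_le_co s i; dsimp only; omega
  · rw [h]
    have I := inv_st (s := s) (p := p) (by have := ph_of_ou h2; omega)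
    exact co_lt (I.bi_le.trans I.cu_lt.le) h1

theorem alive_edge {l : ℕ} (h : Alive l) :
    eY l < eX l ∧ 2 ≤ eX l ∧ (eY l ≠ 0 → eB l = false) := by
  obtain ⟨c, i, rfl⟩ := h.exists_lab
  obtain ⟨h1, -, -, -, -, -, h7⟩ := bth_spec (alive_lab.1 h).1
  have h2 := two_le_co (bth c i) i
  rw [h1, eY_lab, eB_lab]
  refine ⟨?_, h2, ?_⟩
  · split_ifs
    · omega
    · rw [← h7]; exact py_lt _ _
  · split_ifs <;> simp

theorem first_kill {α : List ℕ} {c s : ℕ} (hv : Vis c α)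
    (hc : ac c α.length = 1 ∨ ac c α.length = 2 ∨ ac c α.length = 4) (hcs : c < s)
    (hN : NoIni α (c + 1) (s + 1)) (hvs : Vis s α)
    (hs : ac s α.length = 1 ∨ ac s α.length = 2 ∨ ac s α.length = 4) :
    ∃ t x, c < t ∧ t ≤ s ∧ Vis t α ∧ tr t α.length = some x ∧ x.2.1 = lab c α.length := by
  obtain ⟨g1, g2, g3⟩ := after_create hv hc
  have fin : ∀ r, c < r → r ≤ s → Vis r α → (ac r α.length = 2 ∨ ac r α.length = 4) →
      (TT r α).cu = c →
      ∃ t x, c < t ∧ t ≤ s ∧ Vis t α ∧ tr t α.length = some x ∧ x.2.1 = lab c α.length := by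
    intro r h1 h2 h3 h4 h5
    refine ⟨r, _, h1, h2, h3, tr_eq_some.2 ⟨h4, rfl⟩, ?_⟩
    dsimp only
    rw [h3.st_eq, h5]
  rcases next_act (Nat.succ_le_succ hcs.le) hN with ⟨-, h⟩ | ⟨r, h1, h2, h3, h4, h5⟩
  · have := h s hcs (Nat.lt_succ_self s) hvs
    omega
  · rcases ac_cases r α.length with h6 | h6 | h6 | h6 | h6
    · exact absurd h6 h4
    · have := h3.ph_of_ac1.1 h6; rw [h5] at this; exact absurd this g1
    · exact fin r h1 (by omega) h3 (Or.inl h6) (by rw [h5, g2])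
    · have hrs : r < s := by
        rcases Nat.lt_or_ge r s with h7 | h7
        · exact h7
        · obtain rfl : r = s := by omega
          omega
      rcases after_event h3 h6 (Nat.lt_succ_of_lt hrs) (hN.mono (by omega) le_rfl) with
        ⟨-, h⟩ | ⟨q, k1, k2, k3, k4, k5⟩
      · have := h s hrs (Nat.lt_succ_self s) hvs
        omega
      · refine fin q (by omega) (by omega) k3 (Or.inr k4) ?_
        rw [k5, TT_ac3 h3 h6]; dsimp only; rw [h5, g2]
    · exact fin r h1 (by omega) h3 (Or.inr h6) (by rw [h5, g2])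

theorem two_alive_aux {c c' i : ℕ} (h : Alive (lab c i)) (h' : Alive (lab c' i))
    (hn : nd c i = nd c' i) (hlt : c < c') :
    ∃ x, tr c' i = some x ∧ x.1 = lab c' i ∧ x.2.1 = lab c i ∧ i < c' := by
  obtain ⟨a1, a2, -⟩ := alive_lab.1 h
  obtain ⟨b1, -, -⟩ := alive_lab.1 h'
  obtain ⟨a3, a4⟩ := created_iff.1 a1
  obtain ⟨b3, b4⟩ := created_iff.1 b1
  have hv : Vis c (nd c i) := vis_nd a3
  have hv' : Vis c' (nd c i) := by rw [hn]; exact vis_nd b3
  have hN : ∀ s, NoIni (nd c i) (c + 1) s := fun s t h1 _ => a2 t h1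
  obtain ⟨t, x, k1, k2, k3, k4, k5⟩ := first_kill hv (by simpa using a4) hlt (hN _) hv'
    (by simpa using b4)
  simp only [nd_length] at k4 k5
  have k6 : nd t i = nd c i := by simpa using k3.2
  have k7 : i < t := by simpa using k3.1
  rcases k2.lt_or_eq with k8 | k8
  · exact absurd (k5 ▸ h) (kill_dead k7 k4 k8 (by rw [k6]; exact hv')
      (by rw [k6]; exact (hN _).mono (by omega) le_rfl))
  · subst k8
    exact ⟨x, k4, by rw [(tr_eq_some.1 k4).2], k5, k7⟩

theorem two_alive {l l' : ℕ} (h : Alive l) (h' : Alive l') (hne : l ≠ l') (hX : eX l = eX l') :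
    ∃ pa, Alive pa ∧ eY pa = 0 ∧ eX pa ≠ 0 ∧
      ((eY l = 0 ∧ eY l' = eX pa ∧ eB l = eB pa) ∨ (eY l' = 0 ∧ eY l = eX pa ∧ eB l' = eB pa)) := by
  obtain ⟨c, i, rfl⟩ := h.exists_lab
  obtain ⟨c', i', rfl⟩ := h'.exists_lab
  obtain ⟨a1, -, a3, -⟩ := bth_spec (alive_lab.1 h).1
  obtain ⟨b1, -, b3, -⟩ := bth_spec (alive_lab.1 h').1
  rw [a1, b1, co_inj] at hX
  obtain ⟨hb, rfl⟩ := hX
  have hn : nd c i = nd c' i := by rw [← a3, ← b3, hb]
  rcases lt_trichotomy c c' with hlt | hlt | hlt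
  · obtain ⟨x, k1, k2, k3, k4⟩ := two_alive_aux h h' hn hlt
    obtain ⟨-, e2, e3, e4⟩ := tri_edges k1
    refine ⟨x.2.2, pa_alive k4 k1 (k3 ▸ h), e2, e3, ?_⟩
    rw [k2, k3] at e4
    rcases e4 with ⟨f1, f2, f3, -⟩ | ⟨f1, f2, f3, -⟩
    · exact Or.inr ⟨f1, f2, f3⟩
    · exact Or.inl ⟨f1, f2, f3⟩
  · exact absurd (by rw [hlt]) hne
  · obtain ⟨x, k1, k2, k3, k4⟩ := two_alive_aux h' h hn.symm hlt
    obtain ⟨-, e2, e3, e4⟩ := tri_edges k1
    refine ⟨x.2.2, pa_alive k4 k1 (k3 ▸ h'), e2, e3, ?_⟩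
    rw [k2, k3] at e4
    rcases e4 with ⟨f1, f2, f3, -⟩ | ⟨f1, f2, f3, -⟩
    · exact Or.inl ⟨f1, f2, f3⟩
    · exact Or.inr ⟨f1, f2, f3⟩

open Classical in
noncomputable def UU (free : ℕ → Bool) (z : ℕ) : Bool :=
  if z = 0 then false
  else if h : ∃ l, Alive l ∧ eX l = z ∧ eY l = 0 then eB h.choose
  else if h : ∃ l, Alive l ∧ eX l = z then
    have : eY h.choose < z := by
      have := (alive_edge h.choose_spec.1).1
      rwa [h.choose_spec.2] at this
    UU free (eY h.choose)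
  else free z
termination_by z

theorem UU_anchor (free : ℕ → Bool) {l : ℕ} (h : Alive l) (h0 : eY l = 0) :
    UU free (eX l) = eB l := by
  have h1 : ∃ l', Alive l' ∧ eX l' = eX l ∧ eY l' = 0 := ⟨l, h, rfl, h0⟩
  have h2 := (alive_edge h).2.1
  rw [UU, if_neg (by omega), dif_pos h1]
  obtain ⟨g1, g2, g3⟩ := h1.choose_spec
  by_contra hne
  obtain ⟨pa, -, -, k3, k4⟩ := two_alive g1 h (fun e => hne (by rw [e])) g2
  omega

theorem exists_U (free : ℕ → Bool) : ∃ U : ℕ → Bool, U 0 = false ∧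
    (∀ l, Alive l → xor (U (eX l)) (U (eY l)) = eB l) ∧
    ∀ z, z ≠ 0 → (∀ l, Alive l → eX l ≠ z) → U z = free z := by
  have h0 : UU free 0 = false := by rw [UU, if_pos rfl]
  refine ⟨UU free, h0, fun l h => ?_, fun z hz h => ?_⟩
  · by_cases hy : eY l = 0
    · rw [UU_anchor free h hy, hy, h0]; simp
    · have hb := (alive_edge h).2.2 hy
      have h2 := (alive_edge h).2.1
      by_cases h1 : ∃ l', Alive l' ∧ eX l' = eX l ∧ eY l' = 0
      · obtain ⟨l', g1, g2, g3⟩ := h1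
        obtain ⟨pa, k1, k2, k3, k4⟩ := two_alive g1 h (fun e => hy (by rw [← e]; exact g3)) g2
        rcases k4 with ⟨-, f2, f3⟩ | ⟨f1, -, -⟩
        · rw [← g2, UU_anchor free g1 g3, f2, UU_anchor free k1 k2, f3, hb]; simp
        · exact absurd f1 hy
      · have h3 : ∃ l', Alive l' ∧ eX l' = eX l := ⟨l, h, rfl⟩
        have h4 : h3.choose = l := by
          by_contra hne
          obtain ⟨pa, -, -, -, k4⟩ := two_alive h3.choose_spec.1 h hne h3.choose_spec.2
          rcases k4 with ⟨f1, -, -⟩ | ⟨f1, -, -⟩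
          · exact h1 ⟨_, h3.choose_spec.1, h3.choose_spec.2, f1⟩
          · exact hy f1
        rw [UU, if_neg (by omega), dif_neg h1, dif_pos h3]
        dsimp only
        rw [h4, hb]; simp
  · rw [UU, if_neg hz, dif_neg (fun ⟨l, h1, h2, _⟩ => h l h1 h2),
      dif_neg (fun ⟨l, h1, h2⟩ => h l h1 h2)]

/-! ### the true path -/

def Tr (α : List ℕ) : Prop :=
  (∃ s0, ∀ t, s0 ≤ t → ¬ Ini t α) ∧ ∀ σ N, ∃ t, N ≤ t ∧ Vis t α ∧ (cx t α.length).2.2 = σ

def InfAct (α : List ℕ) : Prop := ∀ N, ∃ s, N ≤ s ∧ Vis s α ∧ ac s α.length ≠ 0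

theorem vis_child {t : ℕ} {α : List ℕ} (h : Vis t α) (hl : α.length + 1 < t) :
    Vis t (α ++ [ou t α.length]) := by
  refine ⟨by simpa using hl, ?_⟩
  simp only [List.length_append, List.length_singleton, nd_succ, h.2]

theorem ini_child {t o : ℕ} {α : List ℕ} (h : Ini t (α ++ [o])) :
    Ini t α ∨ (Vis t α ∧ ou t α.length < o) := by
  obtain ⟨i, h1, h2, h3, h4⟩ := h
  simp only [List.length_append, List.length_singleton] at h2
  rcases Nat.lt_or_ge i α.length with h5 | h5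
  · left
    rw [List.take_append_of_le_length h5.le] at h3
    rw [List.getD_append _ _ _ _ h5] at h4
    exact ⟨i, h1, h5, h3, h4⟩
  · right
    obtain rfl : i = α.length := by omega
    rw [List.take_append_of_le_length le_rfl, List.take_length] at h3
    refine ⟨⟨h1, h3.symm⟩, ?_⟩
    simpa [List.getD_eq_getElem?_getD] using h4

theorem tr_nil : Tr [] := by
  refine ⟨⟨0, fun t _ ⟨i, _, h, _⟩ => by simp at h⟩, fun σ N => ?_⟩
  cases σ
  · exact ⟨2 * N + 2, by omega, ⟨by simp, rfl⟩, by simp [cx_zero, Nat.bodd_mul]⟩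
  · exact ⟨2 * N + 1, by omega, ⟨by simp, rfl⟩, by simp [cx_zero, Nat.bodd_mul]⟩

theorem tr_fin {α : List ℕ} (h : Tr α) (hf : ¬ InfAct α) : Tr (α ++ [4]) := by
  obtain ⟨⟨s0, h0⟩, h1⟩ := h
  simp only [InfAct, not_forall, not_exists, not_and, not_not] at hf
  obtain ⟨N0, hN⟩ := hf
  refine ⟨⟨max s0 N0, fun t ht hi => ?_⟩, fun σ N => ?_⟩
  · rcases ini_child hi with h2 | ⟨h2, h3⟩
    · exact h0 t (le_of_max_le_left ht) h2
    · have := ac_of_ou h3
      have := hN t (le_of_max_le_right ht) h2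
      omega
  · obtain ⟨t, g1, g2, g3⟩ := h1 σ (N + N0 + α.length + 2)
    have g4 : ou t α.length = 4 := ou_of_ac (by have := hN t (by omega) g2; omega)
    refine ⟨t, by omega, ?_, ?_⟩
    · rw [← g4]; exact vis_child g2 (by omega)
    · simp only [List.length_append, List.length_singleton, cx_succ, g4, lt_irrefl, if_false]
      exact g3

theorem first_act {α : List ℕ} {s : ℕ} (hf : InfAct α) (hN : ∀ t, s ≤ t → ¬ Ini t α) :
    ∃ r, s ≤ r ∧ Vis r α ∧ ac r α.length ≠ 0 ∧ TT r α = TT s α := by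
  obtain ⟨t, h1, h2, h3⟩ := hf s
  rcases next_act (α := α) (Nat.le_succ_of_le h1) (fun r hr _ => hN r hr) with
    ⟨-, h⟩ | ⟨r, g1, -, g3, g4, g5⟩
  · exact absurd (h t h1 (Nat.lt_succ_self t) h2) h3
  · exact ⟨r, g1, g3, g4, g5⟩

theorem first_ph1 {α : List ℕ} {s : ℕ} (hf : InfAct α) (hN : ∀ t, s ≤ t → ¬ Ini t α)
    (hp : (TT s α).ph = 1) : ∃ r, s ≤ r ∧ Vis r α ∧ ac r α.length = 2 ∧ TT r α = TT s α := by
  obtain ⟨r, g1, g3, g4, g5⟩ := first_act hf hN
  refine ⟨r, g1, g3, ?_, g5⟩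
  rw [← g5] at hp
  rcases ac_cases r α.length with h6 | h6 | h6 | h6 | h6
  · exact absurd h6 g4
  · have := g3.ph_of_ac1.1 h6; omega
  · exact h6
  · have := g3.ph_of_ac3 h6; omega
  · have := g3.ph_of_ac4 h6; omega

theorem first_ph2 {α : List ℕ} {s : ℕ} (hf : InfAct α) (hN : ∀ t, s ≤ t → ¬ Ini t α)
    (hp : (TT s α).ph = 2) : ∃ r, s ≤ r ∧ Vis r α ∧ ac r α.length = 3 ∧ TT r α = TT s α := by
  obtain ⟨r, g1, g3, g4, g5⟩ := first_act hf hN
  refine ⟨r, g1, g3, ?_, g5⟩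
  rw [← g5] at hp
  rcases ac_cases r α.length with h6 | h6 | h6 | h6 | h6
  · exact absurd h6 g4
  · have := g3.ph_of_ac1.1 h6; omega
  · have := g3.ph_of_ac2 h6; omega
  · exact h6
  · have := g3.ph_of_ac4 h6; omega

theorem first_ph3 {α : List ℕ} {s : ℕ} (hf : InfAct α) (hN : ∀ t, s ≤ t → ¬ Ini t α)
    (hp : (TT s α).ph = 3) : ∃ r, s ≤ r ∧ Vis r α ∧ ac r α.length = 4 ∧ TT r α = TT s α := by
  obtain ⟨r, g1, g3, g4, g5⟩ := first_act hf hN
  refine ⟨r, g1, g3, ?_, g5⟩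
  rw [← g5] at hp
  rcases ac_cases r α.length with h6 | h6 | h6 | h6 | h6
  · exact absurd h6 g4
  · have := g3.ph_of_ac1.1 h6; omega
  · have := g3.ph_of_ac2 h6; omega
  · have := g3.ph_of_ac3 h6; omega
  · exact h6

theorem reach2 {α : List ℕ} {s : ℕ} (hf : InfAct α) (hN : ∀ t, s ≤ t → ¬ Ini t α) :
    ∃ r, s ≤ r ∧ (TT r α).ph = 2 := by
  have k : ∀ q, s ≤ q → (TT q α).ph = 1 → ∃ r, s ≤ r ∧ (TT r α).ph = 2 := by
    intro q hq hp
    obtain ⟨r, g1, g3, g4, -⟩ := first_ph1 hf (fun t ht => hN t (hq.trans ht)) hp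
    exact ⟨r + 1, by omega, by rw [TT_ac2 g3 g4]⟩
  obtain ⟨r, g1, g3, g4, -⟩ := first_act hf hN
  rcases ac_cases r α.length with h6 | h6 | h6 | h6 | h6
  · exact absurd h6 g4
  · exact k (r + 1) (by omega) (by rw [TT_ac1 g3 h6])
  · exact ⟨r + 1, by omega, by rw [TT_ac2 g3 h6]⟩
  · exact ⟨r, g1, g3.ph_of_ac3 h6⟩
  · exact k (r + 1) (by omega) (by rw [TT_ac4 g3 h6])

theorem odd_of_ac3 {s i : ℕ} (h : ac s i = 3) : i % 2 ≠ 0 := by
  rw [ac, act_eq_three] at h
  intro h1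
  have := h.2
  simp [resp, h1] at this

theorem flip2 {α : List ℕ} {s : ℕ} (hf : InfAct α) (hN : ∀ t, s ≤ t → ¬ Ini t α)
    (hp : (TT s α).ph = 2) : ∃ r, s ≤ r ∧ (TT r α).ph = 2 ∧ (TT r α).ta = !(TT s α).ta := by
  obtain ⟨r1, a1, a2, a3, a4⟩ := first_ph2 hf hN hp
  have e1 := TT_ac3 a2 a3
  obtain ⟨r2, b1, b2, b3, b4⟩ := first_ph3 (s := r1 + 1) hf (fun t ht => hN t (by omega))
    (by rw [e1])
  have e2 := TT_ac4 b2 b3
  obtain ⟨r3, c1, c2, c3, c4⟩ := first_ph1 (s := r2 + 1) hf (fun t ht => hN t (by omega))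
    (by rw [e2])
  have e3 := TT_ac2 c2 c3
  refine ⟨r3 + 1, by omega, by rw [e3], ?_⟩
  have h1 : (TT r3 α).ta = (TT s α).ta := by rw [c4, e2, b4, e1, a4]
  rw [c2.ac_eq, act_eq_two] at c3
  have h2 := c3.2
  rw [condL, if_neg (odd_of_ac3 a3), h1] at h2
  rw [e3]; dsimp only
  revert h2
  cases (cx r3 α.length).2.2 <;> cases (TT s α).ta <;> simp

theorem ev_inf {α : List ℕ} {s0 : ℕ} (hf : InfAct α) (hN : ∀ t, s0 ≤ t → ¬ Ini t α)
    (τ : Bool) (N : ℕ) : ∃ t, N ≤ t ∧ Vis t α ∧ ac t α.length = 3 ∧ (TT t α).ta = τ := by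
  obtain ⟨r, g1, g2⟩ := reach2 (s := max s0 N) hf (fun t ht => hN t (le_of_max_le_left ht))
  have g3 : s0 ≤ r := le_of_max_le_left g1
  have g4 : N ≤ r := le_of_max_le_right g1
  have k : ∀ q, r ≤ q → (TT q α).ph = 2 → (TT q α).ta = τ →
      ∃ t, N ≤ t ∧ Vis t α ∧ ac t α.length = 3 ∧ (TT t α).ta = τ := by
    intro q hq h1 h2
    obtain ⟨t, a1, a2, a3, a4⟩ := first_ph2 (s := q) hf (fun t ht => hN t (by omega)) h1
    exact ⟨t, by omega, a2, a3, by rw [a4, h2]⟩
  by_cases h : (TT r α).ta = τ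
  · exact k r le_rfl g2 h
  · obtain ⟨q, a1, a2, a3⟩ := flip2 (s := r) hf (fun t ht => hN t (by omega)) g2
    refine k q a1 a2 ?_
    rw [a3]; revert h; cases (TT r α).ta <;> cases τ <;> simp

theorem ou_eq_pick {t : ℕ} {α : List ℕ} (hv : Vis t α) (ha : ac t α.length = 3) :
    ou t α.length = pick (TT t α).ta ((resp t α.length (TT t α)).getD false) (TT t α).du := by
  rw [hv.ac_eq] at ha
  rw [hv.ou_eq, out, if_pos ha]

theorem du_same {t o : ℕ} {α : List ℕ} (hp : (TT t α).ph ≠ 0) (hi : ¬ Ini t α)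
    (h : ¬ (Vis t α ∧ ou t α.length = o)) :
    (TT (t + 1) α).du.contains o = (TT t α).du.contains o := by
  rcases TT_cases t α with ⟨h3, h4⟩ | ⟨h3, -⟩ | ⟨h3, -, -⟩
  · rcases ac_cases t α.length with h5 | h5 | h5 | h5 | h5
    · exact absurd h5 h4
    · exact absurd (h3.ph_of_ac1.1 h5) hp
    · rw [TT_ac2 h3 h5]
    · rw [TT_ac3 h3 h5]
      have hne : ou t α.length ≠ o := fun e => h ⟨h3, e⟩
      dsimp only
      unfold updu
      split_ifs
      · cases (TT t α).ta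
        · simp [hne.symm]
        · rw [Bool.eq_iff_iff]; simp [hne.symm]
      · rfl
    · rw [TT_ac4 h3 h5]
  · exact absurd h3 hi
  · rw [h3]

theorem du_flip {t : ℕ} {α : List ℕ} (hv : Vis t α) (ho : ou t α.length < 4) :
    (TT (t + 1) α).du.contains (ou t α.length) = !(TT t α).ta := by
  rw [TT_ac3 hv (ac_of_ou ho)]
  dsimp only
  unfold updu
  rw [if_pos ho]
  cases (TT t α).ta <;> simp

theorem du_const {a b o : ℕ} {α : List ℕ} (hab : a ≤ b) (hp : (TT a α).ph ≠ 0)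
    (hi : NoIni α a b) (h : ∀ t, a ≤ t → t < b → ¬ (Vis t α ∧ ou t α.length = o)) :
    (TT b α).du.contains o = (TT a α).du.contains o := by
  induction b, hab using Nat.le_induction with
  | base => rfl
  | succ r hr ih =>
    have h1 := hi.mono le_rfl (Nat.le_succ r)
    rw [du_same (persist hp hr h1).1 (hi r hr (Nat.lt_succ_self r)) (h r hr (Nat.lt_succ_self r)),
      ih h1 (fun t h2 h3 => h t h2 (by omega))]

theorem exists_inf_bool {P : ℕ → Prop} (d : ℕ → Bool) (h : ∀ N, ∃ t, N ≤ t ∧ P t) :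
    ∃ b, ∀ N, ∃ t, N ≤ t ∧ P t ∧ d t = b := by
  by_contra hc
  simp only [not_exists, not_forall, not_and] at hc
  obtain ⟨N1, h1⟩ := hc false
  obtain ⟨N2, h2⟩ := hc true
  obtain ⟨t, g1, g2⟩ := h (max N1 N2)
  have k1 := h1 t (le_of_max_le_left g1) g2
  have k2 := h2 t (le_of_max_le_right g1) g2
  revert k1 k2; cases d t <;> simp

theorem inf_out {α : List ℕ} {s0 : ℕ} (hf : InfAct α) (hN : ∀ t, s0 ≤ t → ¬ Ini t α) (N : ℕ) :
    ∃ t, N ≤ t ∧ Vis t α ∧ ou t α.length < 4 := by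
  by_contra hc
  simp only [not_exists, not_and, not_lt] at hc
  obtain ⟨d0, h0⟩ := exists_inf_bool (fun t => (resp t α.length (TT t α)).getD false)
    (ev_inf hf hN false)
  obtain ⟨d1, h1⟩ := exists_inf_bool (fun t => (resp t α.length (TT t α)).getD false)
    (ev_inf hf hN true)
  obtain ⟨o, ho, ho0, ho1⟩ : ∃ o, o < 4 ∧ oval o false = d0 ∧ oval o true = d1 := by
    cases d0 <;> cases d1
    · exact ⟨0, by decide⟩
    · exact ⟨1, by decide⟩
    · exact ⟨2, by decide⟩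
    · exact ⟨3, by decide⟩
  obtain ⟨a, a1, a2⟩ := reach2 (s := max s0 N) hf (fun t ht => hN t (le_of_max_le_left ht))
  have a3 : s0 ≤ a := le_of_max_le_left a1
  have a4 : N ≤ a := le_of_max_le_right a1
  have hdu : ∀ b, a ≤ b → (TT b α).du.contains o = (TT a α).du.contains o := fun b hb =>
    du_const hb (by omega) (fun t h2 _ => hN t (by omega))
      (fun t h2 _ h3 => by have := hc t (by omega) h3.1; omega)
  have fin : ∀ t, a ≤ t → Vis t α → ac t α.length = 3 →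
      oval o (TT t α).ta = (resp t α.length (TT t α)).getD false →
      (TT a α).du.contains o = (TT t α).ta → False := by
    intro t g1 g2 g3 g4 g5
    have := pick_lt ho g4 ((hdu t g1).trans g5)
    rw [← ou_eq_pick g2 g3] at this
    have := hc t (by omega) g2
    omega
  cases hd : (TT a α).du.contains o
  · obtain ⟨t, g1, ⟨g2, g3, g4⟩, g5⟩ := h0 a
    exact fin t g1 g2 g3 (by rw [g4, ho0, g5]) (by rw [hd, g4])
  · obtain ⟨t, g1, ⟨g2, g3, g4⟩, g5⟩ := h1 a
    exact fin t g1 g2 g3 (by rw [g4, ho1, g5]) (by rw [hd, g4])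

theorem tr_inf {α : List ℕ} (h : Tr α) (hf : InfAct α) : ∃ o, o < 4 ∧ Tr (α ++ [o]) := by
  obtain ⟨⟨s0, hN⟩, -⟩ := h
  have hex : ∃ o, o < 4 ∧ ∀ N, ∃ t, N ≤ t ∧ Vis t α ∧ ou t α.length = o := by
    by_contra hc
    simp only [not_exists, not_and, not_forall] at hc
    obtain ⟨N0, h0⟩ := hc 0 (by omega)
    obtain ⟨N1, h1⟩ := hc 1 (by omega)
    obtain ⟨N2, h2⟩ := hc 2 (by omega)
    obtain ⟨N3, h3⟩ := hc 3 (by omega)
    obtain ⟨t, g1, g2, g3⟩ := inf_out hf hN (N0 + N1 + N2 + N3)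
    have := h0 t (by omega) g2
    have := h1 t (by omega) g2
    have := h2 t (by omega) g2
    have := h3 t (by omega) g2
    omega
  classical
  obtain ⟨ho, hinf⟩ := Nat.find_spec hex
  set o := Nat.find hex with ho_def
  have hmin : ∀ o', o' < o → ∃ N, ∀ t, N ≤ t → Vis t α → ou t α.length ≠ o' := by
    intro o' h1
    have := Nat.find_min hex h1
    simp only [not_and, not_forall, not_exists] at this
    exact this (by omega)
  have hleft : ∃ N, ∀ t, N ≤ t → Vis t α → ¬ ou t α.length < o := by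
    have : ∀ k, k ≤ o → ∃ N, ∀ t, N ≤ t → Vis t α → ¬ ou t α.length < k := by
      intro k hk
      induction k with
      | zero => exact ⟨0, fun _ _ _ => by omega⟩
      | succ k ih =>
        obtain ⟨N1, h1⟩ := ih (by omega)
        obtain ⟨N2, h2⟩ := hmin k (by omega)
        refine ⟨N1 + N2, fun t ht hv => ?_⟩
        have := h1 t (by omega) hv
        have := h2 t (by omega) hv
        omega
    exact this o le_rfl
  obtain ⟨N0, hN0⟩ := hleft
  refine ⟨o, ho, ⟨max s0 N0, fun t ht hi => ?_⟩, fun σ N => ?_⟩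
  · rcases ini_child hi with h2 | ⟨h2, h3⟩
    · exact hN t (le_of_max_le_left ht) h2
    · exact hN0 t (le_of_max_le_right ht) h2 h3
  · have fin : ∀ t, N + s0 + α.length + 2 ≤ t → Vis t α → ou t α.length = o → (TT t α).ta = σ →
        ∃ t, N ≤ t ∧ Vis t (α ++ [o]) ∧ (cx t (α ++ [o]).length).2.2 = σ := by
      intro t g1 g2 g3 g4
      refine ⟨t, by omega, ?_, ?_⟩
      · rw [← g3]; exact vis_child g2 (by omega)
      · simp only [List.length_append, List.length_singleton, cx_succ, g3, ho, if_true]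
        rw [g2.st_eq, g4]
    obtain ⟨t, g1, g2, g3⟩ := hinf (N + s0 + α.length + 2)
    by_cases g4 : (TT t α).ta = σ
    · exact fin t g1 g2 g3 g4
    · have hex2 := hinf (t + 1)
      obtain ⟨k1, k2, k3⟩ := Nat.find_spec hex2
      set t' := Nat.find hex2 with ht'
      refine fin t' (by omega) k2 k3 ?_
      have e1 := du_flip g2 (by omega)
      rw [g3] at e1
      have hph : (TT (t + 1) α).ph ≠ 0 := by
        rw [TT_ac3 g2 (ac_of_ou (by omega))]; simp
      have e2 : (TT t' α).du.contains o = (TT (t + 1) α).du.contains o :=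
        du_const k1 hph (fun r h2 _ => hN r (by omega))
          (fun r h2 h3 h4 => Nat.find_min hex2 h3 ⟨h2, h4⟩)
      have e3 := ou_eq_pick k2 (ac_of_ou (by omega))
      have e4 := (pick_spec (by rw [← e3]; omega)).2
      rw [← e3, k3, e2, e1] at e4
      rw [← e4]; revert g4; cases (TT t α).ta <;> cases σ <;> simp

theorem exists_tr (n : ℕ) : ∃ α, α.length = n ∧ Tr α := by
  induction n with
  | zero => exact ⟨[], rfl, tr_nil⟩
  | succ n ih =>
    obtain ⟨α, h1, h2⟩ := ih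
    by_cases hf : InfAct α
    · obtain ⟨o, -, h3⟩ := tr_inf h2 hf
      exact ⟨_, by simp [h1], h3⟩
    · exact ⟨_, by simp [h1], tr_fin h2 hf⟩

end Pool.Agent.P.MP_dc233e_lc
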