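import Pool.Agent.P.MP_dc233e_lc.Std
import Pool.Agent.P.MP_dc233e_lc.RN
import Pool.Agent.P.MP_dc233e_lc.Defs

/-!
The reduct that forgets the names of the colours, and its constructivizations.
-/

namespace Pool.Agent.P.MP_dc233e_lc

open Pool.Agent.Lib.Helper43 FirstOrder

def lar (k : ℕ) : ℕ := if k % 2 = 0 then k + 2 else ar k

theorem lar_even (x : ℕ) : lar (2 * x) = 2 * x + 2 := by simp [lar]

theorem lar_odd (l : ℕ) : lar (2 * l + 1) = ar (2 * l + 1) := by
  rw [lar, if_neg (by omega)]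

attribute [local irreducible] Computable ar in
theorem c_lar : Computable lar := by unfold lar; fun_prop

def redB (B : CS) (k : ℕ) (t : List ℕ) : Bool :=
  if k % 2 = 0 then decide (t.take (k / 2 + 1)).Nodup && decide (t.drop (k / 2 + 1)).Nodup &&
    (B k (t.take (k / 2 + 1)) == B k (t.drop (k / 2 + 1)))
  else decide t.Nodup && B k t

theorem redB_even (B : CS) (x : ℕ) (t : List ℕ) : redB B (2 * x) t = true ↔
    (t.take (x + 1)).Nodup ∧ (t.drop (x + 1)).Nodup ∧
      B (2 * x) (t.take (x + 1)) = B (2 * x) (t.drop (x + 1)) := by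
  simp [redB, and_assoc]

theorem redB_odd (B : CS) (l : ℕ) (t : List ℕ) : redB B (2 * l + 1) t = true ↔
    t.Nodup ∧ B (2 * l + 1) t = true := by
  rw [redB, if_neg (by omega)]; simp

theorem redB_append (B : CS) {x : ℕ} {s t : List ℕ} (h : s.length = x + 1) :
    redB B (2 * x) (s ++ t) = true ↔ s.Nodup ∧ t.Nodup ∧ B (2 * x) s = B (2 * x) t := by
  rw [redB_even, ← h, List.take_left', List.drop_left'] <;> rfl

theorem redB_shift (w : ℕ → Bool) (B : CS) : redB (shift w B) = redB B := by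
  funext k t
  rw [Bool.eq_iff_iff]
  obtain ⟨l, rfl | rfl⟩ := Nat.even_or_odd' k
  · simp only [redB_even, shift_even, Bool.xor_left_inj]
  · simp only [redB_odd, shift_odd]

attribute [local irreducible] Computable in
theorem c_redB {B : CS} (h : Computable (fun x : ℕ × List ℕ => B x.1 x.2)) :
    Computable (fun x : ℕ × List ℕ => redB B x.1 x.2) :=
  CFP.ite (CFP.decEq (by fun_prop) (CFP.const _))
    (CFP.and (CFP.and (CFP.decNodup (by fun_prop)) (CFP.decNodup (by fun_prop)))
      (CFP.beq (h.comp (g := fun x : ℕ × List ℕ => (x.1, x.2.take (x.1 / 2 + 1))) (by fun_prop))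
        (h.comp (g := fun x : ℕ × List ℕ => (x.1, x.2.drop (x.1 / 2 + 1))) (by fun_prop))))
    (CFP.and (CFP.decNodup (by fun_prop)) h)

def RIso (B B' : CS) (θ : ℕ → ℕ) : Prop :=
  ∀ k t, t.length = lar k → redB B k t = redB B' k (t.map θ)

theorem riso_of_cs {B B' : CS} {θ : ℕ → ℕ} (hθ : Function.Injective θ)
    (h : ∀ j t, t.length = ar j → t.Nodup → B j t = B' j (t.map θ)) : RIso B B' θ := by
  intro k t ht
  rw [Bool.eq_iff_iff]
  obtain ⟨l, rfl | rfl⟩ := Nat.even_or_odd' k
  · rw [lar_even] at ht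
    simp only [redB_even, ← List.map_take, ← List.map_drop, List.nodup_map_iff hθ]
    refine and_congr_right (fun h1 => and_congr_right (fun h2 => ?_))
    rw [h _ _ (by rw [ar_even]; simp; omega) h1, h _ _ (by rw [ar_even]; simp; omega) h2]
  · rw [lar_odd] at ht
    simp only [redB_odd, List.nodup_map_iff hθ]
    exact and_congr_right (fun h1 => by rw [h _ _ ht h1])

theorem RIso.symm {B B' : CS} {θ : ℕ ≃ ℕ} (h : RIso B B' θ) : RIso B' B θ.symm := by
  intro k t ht
  rw [h k _ (by simpa using ht)]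
  simp [List.map_map]

theorem RIso.trans {B B' B'' : CS} {θ θ' : ℕ → ℕ} (h : RIso B B' θ) (h' : RIso B' B'' θ') :
    RIso B B'' (θ' ∘ θ) := by
  intro k t ht
  rw [h k t ht, h' k _ (by simpa using ht), List.map_map]

theorem RIso.shift_left {B B' : CS} {θ : ℕ → ℕ} {w : ℕ → Bool} (h : RIso (shift w B) B' θ) :
    RIso B B' θ := by
  intro k t ht
  rw [← h k t ht, redB_shift]

def B0 : CS := std (fun _ => false)

instance redS : (sig lar).Structure ℕ where
  funMap f := f.elim
  RelMap r v := redB B0 r.1 (List.ofFn v) = true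

instance : (sig lar).IsRelational := fun _ => inferInstanceAs (IsEmpty Empty)

theorem aut_of_riso {θ : ℕ ≃ ℕ} (h : RIso B0 B0 θ) : ∃ φ : ℕ ≃[sig lar] ℕ, ∀ x, φ x = θ x := by
  refine ⟨⟨θ, fun {n} f => f.elim, fun {n} r x => ?_⟩, fun _ => rfl⟩
  show redB B0 r.1 (List.ofFn (θ ∘ x)) = true ↔ redB B0 r.1 (List.ofFn x) = true
  rw [h r.1 (List.ofFn x) (by rw [List.length_ofFn, r.2]), List.map_ofFn]

theorem riso_of_aut (φ : ℕ ≃[sig lar] ℕ) : RIso B0 B0 φ := by
  intro k t ht
  have := φ.map_rel (n := t.length) ⟨k, ht.symm⟩ t.get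
  change redB B0 k (List.ofFn (φ ∘ t.get)) = true ↔ redB B0 k (List.ofFn t.get) = true at this
  rw [← List.map_ofFn, List.ofFn_get] at this
  exact Bool.eq_iff_iff.2 this.symm

theorem mem_AD_inl (ν : ℕ → ℕ) (b : Bool) (x : ℕ × ℕ) :
    (b, Sum.inl x) ∈ AD lar ν ↔ (b = true ↔ ν x.1 = ν x.2) := by
  simp only [AD, Set.mem_ofPred_eq, Prod.mk.injEq, Sum.inl.injEq, reduceCtorEq, and_false,
    false_and, exists_false, or_false]
  constructor
  · rintro ⟨b, i, j, ⟨rfl, rfl⟩, h⟩; exact h
  · intro h; exact ⟨b, x.1, x.2, ⟨rfl, rfl⟩, h⟩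

theorem mem_AD_inr (ν : ℕ → ℕ) (b : Bool) (x : ℕ × List ℕ) :
    (b, Sum.inr x) ∈ AD lar ν ↔ lar x.1 = x.2.length ∧ b = redB B0 x.1 (x.2.map ν) := by
  have key : ∀ (k : ℕ) (l : List ℕ) (h : lar k = l.length),
      Language.Structure.RelMap (L := sig lar) ⟨k, h⟩ (fun i => ν (l.get i)) ↔
        redB B0 k (l.map ν) = true := by
    intro k l h
    show redB B0 k (List.ofFn (ν ∘ l.get)) = true ↔ _
    rw [← List.map_ofFn, List.ofFn_get]
  simp only [AD, Set.mem_ofPred_eq, Prod.mk.injEq, Sum.inr.injEq, reduceCtorEq, and_false,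
    false_and, exists_false, false_or, key]
  constructor
  · rintro ⟨b, k, l, h, ⟨rfl, rfl⟩, h1⟩; exact ⟨h, Bool.eq_iff_iff.2 h1⟩
  · rintro ⟨h, h1⟩; exact ⟨b, x.1, x.2, h, ⟨rfl, rfl⟩, Bool.eq_iff_iff.1 h1⟩

attribute [local irreducible] Computable in
theorem constr_of {ψ : ℕ → Bool} (hψ : Computable ψ) {θ : ℕ ≃ ℕ} (h : RIso (std ψ) B0 θ) :
    IsConstr lar θ := by
  refine ⟨θ.surjective, ?_⟩
  have h1 := c_redB (c_std hψ)
  have h2 := c_lar
  have h3 : Computable (fun φ : Bool × ((ℕ × ℕ) ⊕ (ℕ × List ℕ)) =>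
      (Sum.casesOn φ.2 (fun x => φ.1 == (x.1 == x.2))
        (fun x => (lar x.1 == x.2.length) && (φ.1 == redB (std ψ) x.1 x.2)) : Bool)) := by
    refine Computable.sumCasesOn Computable.snd ?_ ?_
    · unfold Computable₂; fun_prop
    · unfold Computable₂
      exact CFP.and (by fun_prop) (CFP.beq (by fun_prop) (h1.comp Computable.snd))
  refine ComputablePred.computable_iff.2 ⟨_, h3, funext (fun φ => propext ?_)⟩
  obtain ⟨b, x | x⟩ := φ
  · rw [mem_AD_inl]
    cases b <;> simp
  · rw [mem_AD_inr]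
    simp only [Bool.and_eq_true, beq_iff_eq]
    exact and_congr_right (fun h4 => by rw [h _ _ h4.symm])

theorem IsConstr.data {μ : ℕ → ℕ} (h : IsConstr lar μ) :
    ∃ (E : ℕ × ℕ → Bool) (R : ℕ × List ℕ → Bool), Computable E ∧ Computable R ∧
      (∀ a b, E (a, b) = true ↔ μ a = μ b) ∧
      ∀ k t, R (k, t) = true ↔ lar k = t.length ∧ redB B0 k (t.map μ) = true := by
  obtain ⟨f, hf, e⟩ := ComputablePred.computable_iff.1 h.2
  refine ⟨fun x => f (true, Sum.inl x), fun x => f (true, Sum.inr x),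
    hf.comp ((Computable.const _).pair Computable.sumInl),
    hf.comp ((Computable.const _).pair Computable.sumInr), fun a b => ?_, fun k t => ?_⟩
  · rw [← congrFun e, mem_AD_inl]; simp
  · rw [← congrFun e, mem_AD_inr]; exact and_congr_right (fun _ => eq_comm)

theorem Autoeq.trans {ν μ κ : ℕ → ℕ} (h : Autoeq lar ν μ) (h' : Autoeq lar μ κ) :
    Autoeq lar ν κ := by
  obtain ⟨φ, f, h1, h2⟩ := h
  obtain ⟨φ', f', h1', h2'⟩ := h'
  exact ⟨φ'.comp φ, f' ∘ f, h1'.comp h1, fun n => by simp [h2, h2']⟩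

attribute [local irreducible] Computable in
theorem Autoeq.symm {ν μ : ℕ → ℕ} (h : Autoeq lar ν μ) (hν : IsConstr lar ν)
    (hμ : IsConstr lar μ) : Autoeq lar μ ν := by
  obtain ⟨φ, f, h1, h2⟩ := h
  obtain ⟨E, -, e1, -, e3, -⟩ := hμ.data
  have hex : ∀ m, ∃ n, E (f n, m) = true := fun m => by
    obtain ⟨n, hn⟩ := hν.1 (φ.symm (μ m))
    exact ⟨n, (e3 _ _).2 (by rw [← h2, hn]; simp)⟩
  refine ⟨φ.symm, fun m => Nat.find (hex m),
    CFP.find (p := fun m n => E (f n, m)) (by fun_prop) hex, fun m => ?_⟩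
  rw [← (e3 _ _).1 (Nat.find_spec (hex m)), ← h2]; simp

theorem exists_theta (E : Bool) : ∃ θ : ℕ ≃ ℕ, RIso (std (fun l => E && eB l)) B0 θ := by
  obtain ⟨U, -, hU, -⟩ := exists_U (fun _ => false)
  have hw : ∀ l, Alive l → false = xor (E && eB l) (xor (E && U (eX l)) (E && U (eY l))) := by
    intro l hl
    rw [← hU l hl]
    cases E <;> cases U (eX l) <;> cases U (eY l) <;> rfl
  obtain ⟨θ, -, -, -, -, h⟩ := cs_iso ((valid_std _).shift (w := fun x => E && U x) hw)
    ((gen_std _).shift hw) (valid_std _) (gen_std _) Function.surjective_id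
    Function.surjective_id [] (PI_nil _ _)
  exact ⟨θ, (riso_of_cs θ.injective h).shift_left⟩

theorem exists_rel_B0 (l : ℕ) :
    ∃ t : List ℕ, t.length = ar (2 * l + 1) ∧ t.Nodup ∧ B0 (2 * l + 1) t = true :=
  (gen_std _).exists_rel (w := fun _ => false) (fun _ _ => rfl) l

theorem exists_map_eq {μ : ℕ → ℕ} (h : Function.Surjective μ) (t : List ℕ) :
    ∃ n, (Denumerable.ofNat (List ℕ) n).map μ = t := by
  obtain ⟨s, hs⟩ := h.list_map t
  exact ⟨Encodable.encode s, by simpa using hs⟩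

attribute [local irreducible] Computable eX eY lar in
theorem classify {μ : ℕ → ℕ} (h : IsConstr lar μ) :
    ∃ (E : Bool) (θ : ℕ ≃ ℕ) (f : ℕ → ℕ), Computable f ∧ RIso B0 (std (fun l => E && eB l)) θ ∧
      ∀ n, θ (μ n) = f n := by
  obtain ⟨Eqv, R, e1, e2, e3, e4⟩ := h.data
  have hn := c_ndE e1
  have x1 : ∀ x, ∃ n, (((Denumerable.ofNat (List ℕ) n).length == x + 1) &&
      ndE Eqv (Denumerable.ofNat (List ℕ) n)) = true := by
    intro x
    obtain ⟨n, hn⟩ := exists_map_eq h.1 (List.range (x + 1))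
    refine ⟨n, ?_⟩
    rw [Bool.and_eq_true, ndE_iff e3, hn]
    exact ⟨by simpa using congrArg List.length hn, List.nodup_range⟩
  let c : ℕ → List ℕ := fun x => Denumerable.ofNat (List ℕ) (Nat.find (x1 x))
  have hc : Computable c := CFP.ofNatList (CFP.find (p := fun x n =>
    ((Denumerable.ofNat (List ℕ) n).length == x + 1) && ndE Eqv (Denumerable.ofNat (List ℕ) n))
    (by fun_prop) x1)
  have hc1 : ∀ x, (c x).length = x + 1 ∧ ((c x).map μ).Nodup := fun x => by
    have := Nat.find_spec (x1 x)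
    rw [Bool.and_eq_true, ndE_iff e3, beq_iff_eq] at this
    exact this
  have x2 : ∀ l, ∃ n, R (2 * l + 1, Denumerable.ofNat (List ℕ) n) = true := by
    intro l
    obtain ⟨t, h1, h2, h3⟩ := exists_rel_B0 l
    obtain ⟨n, hn⟩ := exists_map_eq h.1 t
    refine ⟨n, (e4 _ _).2 ⟨?_, ?_⟩⟩
    · rw [lar_odd, ← h1, ← hn]; simp
    · rw [hn, redB_odd]; exact ⟨h2, h3⟩
  let r : ℕ → List ℕ := fun l => Denumerable.ofNat (List ℕ) (Nat.find (x2 l))
  have hr : Computable r := CFP.ofNatList (CFP.find (p := fun l n =>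
    R (2 * l + 1, Denumerable.ofNat (List ℕ) n)) (by fun_prop) x2)
  have hr1 : ∀ l, ((r l).map μ).length = ar (2 * l + 1) ∧ ((r l).map μ).Nodup ∧
      B0 (2 * l + 1) ((r l).map μ) = true := fun l => by
    have := (e4 _ _).1 (Nat.find_spec (x2 l))
    rw [lar_odd, redB_odd] at this
    exact ⟨by simpa using this.1.symm, this.2⟩
  let w : ℕ → Bool := fun x => B0 (2 * x) ((c x).map μ)
  let F : ℕ × List ℕ → Bool := fun y =>
    if y.1 % 2 = 0 then !R (y.1, y.2 ++ c (y.1 / 2)) else R y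
  have hF : Computable F := by unfold F; fun_prop
  have hF1 : ∀ j t, t.length = ar j → (t.map μ).Nodup → F (j, t) = shift w B0 j (t.map μ) := by
    intro j t h1 h2
    obtain ⟨l, rfl | rfl⟩ := Nat.even_or_odd' j
    · rw [ar_even] at h1
      have h3 := e4 (2 * l) (t ++ c l)
      rw [List.map_append, redB_append _ (by simpa using h1), lar_even, List.length_append, h1,
        (hc1 l).1] at h3
      simp only [F, Nat.mul_mod_right, if_true, shift_even, w,
        Nat.mul_div_cancel_left l (by omega : 0 < 2)]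
      have h4 := (hc1 l).2
      revert h3
      cases R (2 * l, t ++ c l) <;> cases B0 (2 * l) (t.map μ) <;>
        cases B0 (2 * l) ((c l).map μ) <;> simp [h2, h4] <;> omega
    · have h3 := e4 (2 * l + 1) t
      rw [redB_odd, lar_odd] at h3
      simp only [F, shift_odd]
      rw [if_neg (by omega), Bool.eq_iff_iff, h3]
      simp [h1, h2]
  let ψ : ℕ → Bool := fun l => xor (F (2 * eX l, (r l).take (eX l + 1)))
    (F (2 * eY l, (r l).take (eY l + 1)))
  have hψ : Computable ψ := by unfold ψ; fun_prop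
  have hV : Valid (fun l => xor (w (eX l)) (w (eY l))) (shift w B0) :=
    (valid_std _).shift (fun l _ => by simp)
  have hψ1 : ∀ l, Alive l → ψ l = xor (w (eX l)) (w (eY l)) := by
    intro l hl
    obtain ⟨h1, h2, h3⟩ := hr1 l
    refine Eq.trans ?_ (hV l _ hl h1 h2 (by rw [shift_odd]; exact h3))
    rw [ar_odd, List.length_map] at h1
    have h4 : ∀ x, x + 1 ≤ (r l).length → F (2 * x, (r l).take (x + 1)) =
        shift w B0 (2 * x) (((r l).map μ).take (x + 1)) := by
      intro x hx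
      rw [hF1 _ _ (by rw [ar_even]; simpa using hx), List.map_take]
      rw [List.map_take]
      exact h2.sublist (List.take_sublist _ _)
    simp only [ψ, par]
    rw [h4 _ (by omega), h4 _ (by omega)]
  obtain ⟨u, E, hu, hu1⟩ := reqM hψ hψ1
  have hw2 : ∀ l, Alive l → (E && eB l) =
      xor (xor (w (eX l)) (w (eY l))) (xor (u (eX l)) (u (eY l))) := by
    intro l hl
    rw [← hψ1 l hl, hu1 l hl]
    cases xor (u (eX l)) (u (eY l)) <;> cases (E && eB l) <;> rfl
  have hG : Gen (fun l => xor (w (eX l)) (w (eY l))) (shift w B0) :=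
    (gen_std _).shift (fun l _ => by simp)
  obtain ⟨θ, f, h1, h2, -, h4⟩ := cs_iso (hV.shift hw2) (hG.shift hw2) (valid_std _) (gen_std _)
    h.1 Function.surjective_id [] (PI_nil _ _)
  refine ⟨E, θ, f, h1 ?_ (compCS_std (by fun_prop)), ?_, h2⟩
  · refine ⟨Eqv, fun y => if y.1 % 2 = 0 then xor (F y) (u (y.1 / 2)) else F y, e1, by fun_prop, e3,
      fun j t h5 h6 => ?_⟩
    simp only [hF1 j t h5 h6]
    rfl
  · exact (riso_of_cs θ.injective h4).shift_left.shift_left

attribute [local irreducible] Computable in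
theorem not_riso {f : ℕ ≃ ℕ} (hf : Computable f) : ¬ RIso (std (fun l => true && eB l)) B0 f := by
  intro h
  have c1 := c_std (ψ := fun l => true && eB l) (by fun_prop)
  have c0 := c_std (ψ := fun _ => false) (by fun_prop)
  let u : ℕ → Bool := fun x => xor (std (fun l => true && eB l) (2 * x) (List.range (x + 1)))
    (B0 (2 * x) ((List.range (x + 1)).map f))
  have hu : Computable u :=
    CFP.xor (c1.comp (g := fun x : ℕ => (2 * x, List.range (x + 1))) (by fun_prop))
      (c0.comp (g := fun x : ℕ => (2 * x, (List.range (x + 1)).map (fun a => f a))) (by fun_prop))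
  have key : ∀ x (t : List ℕ), t.length = x + 1 → t.Nodup →
      u x = xor (std (fun l => true && eB l) (2 * x) t) (B0 (2 * x) (t.map f)) := by
    intro x t h1 h2
    have h3 := Bool.eq_iff_iff.1 (h (2 * x) (t ++ List.range (x + 1))
      (by rw [lar_even]; simp; omega))
    rw [List.map_append, redB_append _ h1, redB_append _ (by simpa using h1)] at h3
    simp only [List.nodup_map_iff f.injective, h2, List.nodup_range, true_and] at h3
    simp only [u]
    revert h3
    cases std (fun l => true && eB l) (2 * x) (List.range (x + 1)) <;>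
      cases B0 (2 * x) ((List.range (x + 1)).map f) <;>
      cases std (fun l => true && eB l) (2 * x) t <;> cases B0 (2 * x) (t.map f) <;> simp
  refine reqN hu (fun l hl => ?_)
  obtain ⟨s, h1, h2, h3⟩ := exists_rel_B0 l
  obtain ⟨t, rfl⟩ := f.surjective.list_map s
  have h4 := valid_std _ l _ hl h1 h2 h3
  rw [List.length_map] at h1
  have h5 := Bool.eq_iff_iff.1 (h (2 * l + 1) t (by rw [lar_odd, h1]))
  rw [redB_odd, redB_odd] at h5
  obtain ⟨h6, h7⟩ := h5.2 ⟨h2, h3⟩
  have h8 := valid_std _ l _ hl h1 h6 h7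
  rw [ar_odd] at h1
  rw [key _ (t.take (eX l + 1)) (by simp; omega) (h6.sublist (List.take_sublist _ _)),
    key _ (t.take (eY l + 1)) (by simp; omega) (h6.sublist (List.take_sublist _ _)),
    List.map_take, List.map_take]
  simp only [par, Bool.true_and] at h4 h8
  unfold B0
  simp only [Bool.true_and]
  rw [← h8]
  revert h4
  generalize std (fun _ => false) (2 * eX l) ((t.map f).take (eX l + 1)) = a1
  generalize std (fun _ => false) (2 * eY l) ((t.map f).take (eY l + 1)) = a2
  generalize std (fun l => eB l) (2 * eX l) (t.take (eX l + 1)) = a3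
  generalize std (fun l => eB l) (2 * eY l) (t.take (eY l + 1)) = a4
  revert a1 a2 a3 a4
  decide

end Pool.Agent.P.MP_dc233e_lc
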