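import Pool.Agent.P.MP_dc233e_lc.Path
import Pool.Agent.Lib.Helper43.CompFP

/-!
The requirements are met.
-/

namespace Pool.Agent.P.MP_dc233e_lc

open Nat.Partrec (Code)

def EvSpec (e : ℕ) (f : ℕ → Bool) : Prop :=
  (∀ n s b, ev e n s = some b → b = f n) ∧ ∀ n, ∃ s0, ∀ s, s0 ≤ s → ev e n s = some (f n)

theorem exists_evSpec {f : ℕ → Bool} (hf : Computable f) : ∃ e, EvSpec e f := by
  have h1 : Computable (fun n => Encodable.encode (f n)) := Computable.encode.comp hf
  obtain ⟨c, hc⟩ := Nat.Partrec.Code.exists_code.1 (Partrec.nat_iff.1 h1)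
  have h2 : ∀ n, (Encodable.encode (f n) == 1) = f n := fun n => by cases f n <;> rfl
  refine ⟨Encodable.encode c, fun n s b h => ?_, fun n => ?_⟩
  · simp only [ev, Denumerable.ofNat_encode, Option.map_eq_some_iff] at h
    obtain ⟨x, hx, rfl⟩ := h
    have := Nat.Partrec.Code.evaln_sound (Option.mem_def.2 hx)
    rw [hc] at this
    simp only [PFun.coe_val, Part.mem_some_iff] at this
    rw [this, h2]
  · have : Encodable.encode (f n) ∈ c.eval n := by rw [hc]; simp
    obtain ⟨k, hk⟩ := Nat.Partrec.Code.evaln_complete.1 this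
    refine ⟨k, fun s hs => ?_⟩
    have := Option.mem_def.1 (Nat.Partrec.Code.evaln_mono hs hk)
    simp only [ev, Denumerable.ofNat_encode, this, Option.map_some, h2]

theorem nonfresh_after {v : ℕ} {α : List ℕ} (h : Vis v α) : (TT (v + 1) α).ph ≠ 0 := by
  rcases ac_cases v α.length with h5 | h5 | h5 | h5 | h5
  · rw [TT_ac0 h h5]; intro h1; have := h.ph_of_ac1.2 h1; omega
  · rw [TT_ac1 h h5]; simp
  · rw [TT_ac2 h h5]; simp
  · rw [TT_ac3 h h5]; simp
  · rw [TT_ac4 h h5]; simp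

theorem ac_of_ph1 {r : ℕ} {α : List ℕ} (h : Vis r α) (h0 : ac r α.length ≠ 0)
    (hp : (TT r α).ph = 1) : ac r α.length = 2 := by
  rcases ac_cases r α.length with h6 | h6 | h6 | h6 | h6
  · exact absurd h6 h0
  · have := h.ph_of_ac1.1 h6; omega
  · exact h6
  · have := h.ph_of_ac3 h6; omega
  · have := h.ph_of_ac4 h6; omega

theorem ac_of_ph2 {r : ℕ} {α : List ℕ} (h : Vis r α) (h0 : ac r α.length ≠ 0)
    (hp : (TT r α).ph = 2) : ac r α.length = 3 := by
  rcases ac_cases r α.length with h6 | h6 | h6 | h6 | h6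
  · exact absurd h6 h0
  · have := h.ph_of_ac1.1 h6; omega
  · have := h.ph_of_ac2 h6; omega
  · exact h6
  · have := h.ph_of_ac4 h6; omega

theorem reqN {u : ℕ → Bool} (hu : Computable u) :
    ¬ ∀ l, Alive l → xor (u (eX l)) (u (eY l)) = eB l := by
  intro hall
  obtain ⟨e, he1, he2⟩ := exists_evSpec hu
  obtain ⟨γ, hlen, ⟨s0, hN⟩, hσ⟩ := exists_tr (2 * e)
  have hev : γ.length % 2 = 0 := by omega
  have hdiv : γ.length / 2 = e := by omega
  have step1 : ∃ t, Vis t γ ∧ ac t γ.length = 2 ∧ ∀ r, t < r → ¬ Ini r γ := by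
    obtain ⟨v, g1, g2, -⟩ := hσ false s0
    have hp := nonfresh_after g2
    have I := inv _ _ hp
    have hle := I.ph_le
    rcases (by omega : (TT (v + 1) γ).ph = 1 ∨ (TT (v + 1) γ).ph = 2 ∨ (TT (v + 1) γ).ph = 3) with
      h | h | h
    · obtain ⟨a, ha⟩ := he2 (co (TT (v + 1) γ).bi γ.length)
      obtain ⟨b, hb⟩ := he2 0
      obtain ⟨t, k1, k2, k3⟩ := hσ (!(xor (u (co (TT (v + 1) γ).bi γ.length)) (u 0)))
        (v + 1 + a + b)
      rcases next_act (α := γ) (t := v + 1) (s := t) (by omega)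
        (fun r h1 _ => hN r (by omega)) with ⟨k4, -⟩ | ⟨r, k4, -, k6, k7, k8⟩
      · refine ⟨t, k2, ?_, fun r hr => hN r (by omega)⟩
        rw [k2.ac_eq, act_eq_two, k4]
        refine ⟨h, ?_⟩
        rw [condL, if_pos hev, hdiv, ha t (by omega), hb t (by omega), k3]
        simp only [Option.bind_some, Option.map_some, Option.getD_some]
        cases (xor (u (co (TT (v + 1) γ).bi γ.length)) (u 0)) <;> rfl
      · exact ⟨r, k6, ac_of_ph1 k6 k7 (by rw [k8, h]), fun q hq => hN q (by omega)⟩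
    · refine ⟨_, I.vis_cu, (I.ph2 (by omega)).1, fun r hr => ?_⟩
      rcases Nat.lt_or_ge r (v + 1) with h1 | h1
      · exact I.noIni r (I.bi_le.trans hr.le) h1
      · exact hN r (by omega)
    · obtain ⟨t, -, -, -, k, -⟩ := I.ph3 h
      exact absurd hev (odd_of_ac3 k)
  obtain ⟨t, hv, ha, hI⟩ := step1
  have hA : Alive (lab t γ.length) := by
    refine not_kill_alive (created_iff.2 ⟨hv.1, Or.inr (Or.inl ha)⟩) (by rw [hv.2]; exact hI)
      (fun r j x hj hx hk => ?_)
    obtain ⟨rfl, -, b3, b4⟩ := kill_facts hx hk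
    have hvr : Vis r γ := ⟨hj, by rw [← b3, hv.2]⟩
    have har := (tr_eq_some.1 hx).1
    rcases next_act (α := γ) (t := t + 1) (s := r + 1) (by omega)
      (fun q h1 _ => hI q h1) with ⟨-, k⟩ | ⟨q, -, -, k6, k7, k8⟩
    · have := k r b4 (Nat.lt_succ_self r) hvr
      omega
    · exact odd_of_ac3 (ac_of_ph2 k6 k7 (by rw [k8, TT_ac2 hv ha])) hev
  have h1 := hall _ hA
  rw [eX_lab, if_neg (by omega), eY_lab, if_pos ha, eB_lab, if_pos ha, hv.st_eq] at h1
  rw [hv.ac_eq, act_eq_two] at ha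
  have h2 := ha.2
  rw [condL, if_pos hev, hdiv] at h2
  cases h3 : ev e (co (TT t γ).bi γ.length) t with
  | none => rw [h3] at h2; simp at h2
  | some p =>
    cases h4 : ev e 0 t with
    | none => rw [h3, h4] at h2; simp at h2
    | some q =>
      rw [h3, h4] at h2
      rw [← he1 _ _ _ h3, ← he1 _ _ _ h4] at h1
      simp [h1] at h2

theorem freeze {γ : List ℕ} {t j : ℕ} {x : ℕ × ℕ × ℕ} (hv : Vis t γ) (ho : ou t γ.length < 4)
    (hN : ∀ r, t < r → ¬ Ini r γ) (hidle : ∀ r, t < r → Vis r γ → ac r γ.length = 0)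
    (hj : γ.length < j) (hjt : j < t) (hx : tr t j = some x) :
    Alive x.1 ∧ Alive x.2.1 ∧ Alive x.2.2 := by
  have ha : ∀ p r, γ.length < p → t < r → nd r p ≠ nd t p ∨ r ≤ γ.length := by
    intro p r hp hr
    by_contra hc
    simp only [not_or, not_not, not_le] at hc
    have h1 : nd r γ.length = γ := by
      rw [← nd_take hp.le, hc.1, nd_take hp.le, hv.2]
    have h2 : ou r γ.length = ou t γ.length := by rw [← nd_getD hp, hc.1, nd_getD hp]
    have := hidle r hr ⟨hc.2, h1⟩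
    have := ac_of_ou (s := r) (i := γ.length) (by omega)
    omega
  have hb : ∀ r, t < r → ¬ Ini r (nd t j) := by
    rintro r hr ⟨q, h1, h2, h3, h4⟩
    simp only [nd_length] at h2
    rw [nd_take h2.le] at h3
    rw [nd_getD h2] at h4
    rcases lt_trichotomy q γ.length with h5 | h5 | h5
    · refine hN r hr ⟨q, h1, h5, ?_, ?_⟩
      · rw [← h3, ← nd_take h5.le, hv.2]
      · rw [hv.getD h5]; exact h4
    · subst h5
      have := hidle r hr ⟨h1, by rw [← h3, hv.2]⟩
      have := ou_of_ac (s := r) (i := γ.length) (by omega)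
      omega
    · rcases ha q r h5 hr with h6 | h6
      · exact h6 h3.symm
      · omega
  obtain ⟨hac, hxe⟩ := tr_eq_some.1 hx
  have hx1 : x.1 = lab t j := by rw [hxe]
  have hx2 : x.2.1 = lab (st t j).cu j := by rw [hxe]
  have hx3 : x.2.2 = (cx t j).2.1 := by rw [hxe]
  have I := inv_st (ph_of_tr hx)
  have hA2 : Alive x.2.1 := by
    obtain ⟨-, -, k3, k4⟩ := kill_facts hx hx2
    have hvc := I.vis_cu.1
    have hcr : created (st t j).cu j = true := by
      refine created_iff.2 ⟨by simpa [st] using hvc, ?_⟩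
      by_cases hp : (TT t (nd t j)).ph = 1
      · have := I.ph1 hp; simp only [nd_length] at this; unfold st; omega
      · have := (I.ph2 hp).1; simp only [nd_length] at this; unfold st; omega
    obtain ⟨p, p1, p2, p3, p4⟩ : ∃ p, γ.length ≤ p ∧ p < j ∧ ou t p < 4 ∧
        x.2.2 = lab (st t p).cu p := by
      rcases cx_cases t j with ⟨-, h⟩ | ⟨p, h1, h2, h3, h4⟩
      · have := h _ hj; omega
      · refine ⟨p, ?_, h1, h2, by rw [hx3, h3]⟩
        by_contra h5
        have := h4 γ.length (by omega) hj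
        omega
    rw [hx2]
    refine alive_lab.2 ⟨hcr, fun r hr => ?_, fun r i y hi hy hk => ?_,
      fun r q y hq hr4 hy hk hpa => ?_⟩
    · rw [k3]
      rcases lt_trichotomy r t with h6 | h6 | h6
      · exact I.noIni r (I.bi_le.trans hr.le) h6
      · rw [h6]; exact (vis_nd hjt).not_ini
      · exact hb r h6
    · obtain rfl := kill_unique hi hjt hy hk hx hx2
      obtain rfl := (kill_facts hy hk).1
      rw [hx] at hy
      rw [← Option.some.inj hy, p4]; simp
    · obtain ⟨t0, i, g1, g2, -, -, -, g6, g7⟩ := ck_origin hr4 hy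
      obtain rfl := kill_unique g6 hjt g7 hk hx hx2
      obtain rfl := (kill_facts g7 hk).1
      rw [hx] at g7
      rw [← Option.some.inj g7, p4] at hpa
      obtain ⟨-, rfl⟩ := lab_inj.1 hpa
      rcases p1.lt_or_eq with h5 | h5
      · rcases ha p r h5 g1 with h6 | h6
        · exact h6 g2.symm
        · omega
      · subst h5
        have := hidle r g1 ⟨hq, by rw [← g2, hv.2]⟩
        omega
  refine ⟨?_, hA2, pa_alive hjt hx hA2⟩
  rw [hx1]
  refine not_kill_alive (created_iff.2 ⟨hjt, by omega⟩) hb (fun r i y hi hy hk => ?_)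
  obtain ⟨rfl, -, b3, b4⟩ := kill_facts hy hk
  rcases ha i r hj b4 with h6 | h6
  · exact h6 b3.symm
  · omega

theorem tri_sum {s i : ℕ} {x : ℕ × ℕ × ℕ} (h : tr s i = some x) (w : ℕ → Bool) :
    xor (xor (w (eX x.1)) (w (eY x.1))) (xor (xor (w (eX x.2.1)) (w (eY x.2.1)))
      (xor (w (eX x.2.2)) (w (eY x.2.2)))) = false ∧
    xor (eB x.1) (xor (eB x.2.1) (eB x.2.2)) = false := by
  obtain ⟨e1, e2, -, e4⟩ := tri_edges h
  rcases e4 with ⟨f1, f2, f3, f4⟩ | ⟨f1, f2, f3, f4⟩
  · rw [e1, e2, f1, f2, f3, f4]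
    cases w (eX x.2.1) <;> cases w 0 <;> cases w (eX x.2.2) <;> cases eB x.2.2 <;> simp
  · rw [e1, e2, f1, f2, f3, f4]
    cases w (eX x.2.1) <;> cases w 0 <;> cases w (eX x.2.2) <;> cases eB x.2.2 <;> simp

theorem okT_event {e : ℕ} {ψ : ℕ → Bool} (he : EvSpec e ψ) (L : List (ℕ × ℕ × ℕ))
    (h : ∀ x ∈ L, xor (ψ x.1) (xor (ψ x.2.1) (ψ x.2.2)) = false) :
    ∃ s0, ∀ s, s0 ≤ s → L.all (okT s e) = true := by
  induction L with
  | nil => exact ⟨0, fun _ _ => rfl⟩
  | cons x L ih =>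
    obtain ⟨s0, h0⟩ := ih (fun y hy => h y (List.mem_cons_of_mem _ hy))
    obtain ⟨a, ha⟩ := he.2 x.1
    obtain ⟨b, hb⟩ := he.2 x.2.1
    obtain ⟨c, hc⟩ := he.2 x.2.2
    refine ⟨s0 + a + b + c, fun s hs => ?_⟩
    rw [List.all_cons, h0 s (by omega), okT, ha s (by omega), hb s (by omega), hc s (by omega)]
    simp [h x List.mem_cons_self]

theorem okT_sound {e s : ℕ} {ψ : ℕ → Bool} (he : EvSpec e ψ) {x : ℕ × ℕ × ℕ}
    (h : okT s e x = true) : xor (ψ x.1) (xor (ψ x.2.1) (ψ x.2.2)) = false := by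
  unfold okT at h
  cases h1 : ev e x.1 s with
  | none => rw [h1] at h; simp at h
  | some a =>
    cases h2 : ev e x.2.1 s with
    | none => rw [h1, h2] at h; simp at h
    | some b =>
      cases h3 : ev e x.2.2 s with
      | none => rw [h1, h2, h3] at h; simp at h
      | some c =>
        rw [h1, h2, h3] at h
        rw [← he.1 _ _ _ h1, ← he.1 _ _ _ h2, ← he.1 _ _ _ h3]
        simpa using h

theorem reqM_inf {e : ℕ} {ψ w : ℕ → Bool} (he : EvSpec e ψ)
    (hw : ∀ l, Alive l → ψ l = xor (w (eX l)) (w (eY l))) {γ : List ℕ} (hγ : Tr γ)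
    (hlen : γ.length = 2 * e + 1) : InfAct γ := by
  by_contra hf
  obtain ⟨⟨s0, hN⟩, hσ⟩ := hγ
  simp only [InfAct, not_forall, not_exists, not_and, not_not] at hf
  obtain ⟨N0, hN0⟩ := hf
  have hodd : ¬ γ.length % 2 = 0 := by omega
  have hdiv : γ.length / 2 = e := by omega
  obtain ⟨v, g1, g2, -⟩ := hσ false (s0 + N0)
  have hp := nonfresh_after g2
  have I := inv _ _ hp
  have hle := I.ph_le
  have hconst : ∀ t, v + 1 ≤ t → TT t γ = TT (v + 1) γ := by
    intro t ht
    rcases next_act (α := γ) ht (fun r h1 _ => hN r (by omega)) with ⟨k, -⟩ | ⟨r, k1, -, k3, k4, -⟩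
    · exact k
    · exact absurd (hN0 r (by omega) k3) k4
  rcases (by omega : (TT (v + 1) γ).ph = 1 ∨ (TT (v + 1) γ).ph = 2 ∨ (TT (v + 1) γ).ph = 3) with
    h | h | h
  · obtain ⟨t, k1, k2, k3⟩ := hσ (!(TT (v + 1) γ).ta) (v + 1)
    have : ac t γ.length = 2 := by
      rw [k2.ac_eq, act_eq_two, hconst t k1, condL, if_neg hodd, k3]
      refine ⟨h, ?_⟩
      cases (TT (v + 1) γ).ta <;> rfl
    have := hN0 t (by omega) k2
    omega
  · obtain ⟨a, ha⟩ := he.2 (lab (TT (v + 1) γ).cu γ.length)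
    obtain ⟨t, k1, k2, -⟩ := hσ false (v + 1 + a)
    have : ac t γ.length = 3 := by
      rw [k2.ac_eq, act_eq_three, hconst t (by omega), resp, if_neg hodd, hdiv, ha t (by omega)]
      exact ⟨h, rfl⟩
    have := hN0 t (by omega) k2
    omega
  · obtain ⟨t, a1, a2, a3, a4, a5, a6⟩ := I.ph3 h
    have hck : ∀ x ∈ (TT (v + 1) γ).ck, xor (ψ x.1) (xor (ψ x.2.1) (ψ x.2.2)) = false := by
      intro x hx
      rw [← a5, TT_ac3 a3 a4] at hx
      dsimp only at hx
      split_ifs at hx with ho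
      · obtain ⟨j, b1, b2, b3⟩ := mem_later.1 hx
        obtain ⟨c1, c2, c3⟩ := freeze a3 ho (fun r hr => by
            rcases Nat.lt_or_ge r (v + 1) with h1 | h1
            · exact I.noIni r (by have := I.bi_le; omega) h1
            · exact hN r (by omega))
          (fun r hr hv => by
            rcases Nat.lt_or_ge r (v + 1) with h1 | h1
            · exact a6 r hr h1 hv
            · exact hN0 r (by omega) hv) b2 b1 b3
        rw [hw _ c1, hw _ c2, hw _ c3]
        exact (tri_sum b3 w).1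
      · simp at hx
    obtain ⟨a, ha⟩ := okT_event he _ hck
    obtain ⟨r, k1, k2, k3⟩ := hσ (TT (v + 1) γ).ta (v + 1 + a)
    have : ac r γ.length = 4 := by
      rw [k2.ac_eq, act_eq_four, hconst r (by omega), hdiv]
      exact ⟨by omega, ha r (by omega), k3⟩
    have := hN0 r (by omega) k2
    omega

theorem dead_of_inf {β : List ℕ} {c : ℕ} (hf : InfAct β) (hn : nd c β.length = β) :
    ¬ Alive (lab c β.length) := by
  intro hA
  obtain ⟨a1, a2, -⟩ := alive_lab.1 hA
  rw [hn] at a2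
  obtain ⟨a3, a4⟩ := created_iff.1 a1
  have hv : Vis c β := ⟨a3, hn⟩
  obtain ⟨s1, b1, b2⟩ := reach2 (s := c + 1) hf a2
  obtain ⟨s2, c1, c2, c3, -⟩ := first_ph2 (s := s1) hf (fun t ht => a2 t (by omega)) b2
  obtain ⟨s3, d1, d2, d3, -⟩ := first_ph3 (s := s2 + 1) hf (fun t ht => a2 t (by omega))
    (by rw [TT_ac3 c2 c3])
  obtain ⟨t, x, k1, -, k3, k4, k5⟩ := first_kill hv a4 (s := s3) (by omega)
    (fun t ht _ => a2 t ht) d2 (Or.inr (Or.inr d3))
  obtain ⟨t', m1, m2, -⟩ := hf (t + 1)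
  exact kill_dead k3.1 k4 m1 (by rw [k3.2]; exact m2)
    (by rw [k3.2]; exact fun r hr _ => a2 r (by omega)) (k5 ▸ hA)

theorem dead_late (β : List ℕ) :
    ∃ K, ∀ c, K ≤ c → nd c β.length = β → ¬ Alive (lab c β.length) := by
  by_cases hf : InfAct β
  · exact ⟨0, fun c _ hn => dead_of_inf hf hn⟩
  · simp only [InfAct, not_forall, not_exists, not_and, not_not] at hf
    obtain ⟨N0, hN0⟩ := hf
    refine ⟨N0, fun c hc hn hA => ?_⟩
    obtain ⟨a3, a4⟩ := created_iff.1 (alive_lab.1 hA).1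
    have := hN0 c hc ⟨a3, hn⟩
    omega

theorem list_tricho (a b : List ℕ) : a <+: b ∨ b <+: a ∨
    ∃ q, q < a.length ∧ q < b.length ∧ a.take q = b.take q ∧ a.getD q 0 ≠ b.getD q 0 := by
  induction a generalizing b with
  | nil => exact Or.inl List.nil_prefix
  | cons x a ih =>
    cases b with
    | nil => exact Or.inr (Or.inl List.nil_prefix)
    | cons y b =>
      by_cases h : x = y
      · subst h
        rcases ih b with h | h | ⟨q, h1, h2, h3, h4⟩
        · exact Or.inl (List.cons_prefix_cons.2 ⟨rfl, h⟩)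
        · exact Or.inr (Or.inl (List.cons_prefix_cons.2 ⟨rfl, h⟩))
        · exact Or.inr (Or.inr ⟨q + 1, by simpa using h1, by simpa using h2, by simpa using h3,
            by simpa using h4⟩)
      · exact Or.inr (Or.inr ⟨0, by simp, by simp, by simp, by simpa using h⟩)

theorem alive_below {δ : List ℕ} (hδ : Tr δ) :
    ∃ K, ∀ c i, K ≤ c → Alive (lab c i) → δ <+: nd c i := by
  obtain ⟨⟨s0, hN⟩, hσ⟩ := hδ
  have h1 : ∀ m, ∃ K, ∀ c i, K ≤ c → i < m → i ≤ δ.length → nd c i = δ.take i →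
      ¬ Alive (lab c i) := by
    intro m
    induction m with
    | zero => exact ⟨0, fun _ _ _ h => by omega⟩
    | succ m ih =>
      obtain ⟨K1, h1⟩ := ih
      obtain ⟨K2, h2⟩ := dead_late (δ.take m)
      refine ⟨K1 + K2, fun c i hc hi hl hn => ?_⟩
      rcases Nat.lt_or_ge i m with h3 | h3
      · exact h1 c i (by omega) h3 hl hn
      · obtain rfl : i = m := by omega
        have h4 : (δ.take i).length = i := by simp [hl]
        rw [h4] at h2
        exact h2 c (by omega) hn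
  obtain ⟨K, hK⟩ := h1 (δ.length + 1)
  refine ⟨K + s0, fun c i hc hA => ?_⟩
  obtain ⟨a1, a2, -⟩ := alive_lab.1 hA
  have a3 := (created_iff.1 a1).1
  rcases list_tricho δ (nd c i) with h | h | ⟨q, g1, g2, g3, g4⟩
  · exact h
  · have h2 : i ≤ δ.length := by simpa using h.length_le
    refine absurd hA (hK c i (by omega) (by omega) h2 ?_)
    have := List.prefix_iff_eq_take.1 h
    simpa using this
  · exfalso
    simp only [nd_length] at g2
    rw [nd_take g2.le] at g3
    rw [nd_getD g2] at g4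
    rcases lt_or_gt_of_ne g4 with h | h
    · obtain ⟨t, k1, k2, -⟩ := hσ false (c + 1)
      refine a2 t k1 ⟨q, by omega, by simpa using g2, ?_, ?_⟩
      · rw [nd_take g2.le, ← g3, ← nd_take (j := δ.length) g1.le, k2.2]
      · rw [nd_getD g2, ← k2.getD g1]; exact h
    · exact hN c (by omega) ⟨q, by omega, g1, g3, h⟩

end Pool.Agent.P.MP_dc233e_lc
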