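import Pool.Agent.P.MP_dc233e_lc.Req
import Pool.Agent.P.MP_dc233e_lc.Comp

/-!
Every computable admissible parity function is computably cohomologous to `0` or to `eB`.
-/

namespace Pool.Agent.P.MP_dc233e_lc

open Pool.Agent.Lib.Helper43

def ZL (δ : List ℕ) (s0 c i : ℕ) : Prop := s0 ≤ c ∧ δ <+: nd c i ∧ created c i = true

def zcb (δ : List ℕ) (s0 z : ℕ) : Bool :=
  decide (2 ≤ z) && decide (s0 ≤ (z - 2).unpair.1) && decide ((z - 2).unpair.2 < (z - 2).unpair.1) &&
    (ac (z - 2).unpair.1 (z - 2).unpair.2 == 1) &&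
    ((nd (z - 2).unpair.1 (z - 2).unpair.2).take δ.length == δ)

theorem zcb_co {δ : List ℕ} {s0 b i : ℕ} :
    zcb δ s0 (co b i) = true ↔ s0 ≤ b ∧ i < b ∧ ac b i = 1 ∧ δ <+: nd b i := by
  have h : (co b i - 2).unpair = (b, i) := by simp [co]
  have h2 := two_le_co b i
  simp only [zcb, h, Bool.and_eq_true, decide_eq_true_eq, beq_iff_eq, List.prefix_iff_eq_take]
  constructor
  · rintro ⟨⟨⟨⟨-, a⟩, b⟩, c⟩, d⟩; exact ⟨a, b, c, d.symm⟩
  · rintro ⟨a, b, c, d⟩; exact ⟨⟨⟨⟨h2, a⟩, b⟩, c⟩, d.symm⟩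

theorem zcb_small {δ : List ℕ} {s0 z : ℕ} (h : z < 2) : zcb δ s0 z = false := by
  have : ¬ 2 ≤ z := by omega
  simp [zcb, this]

attribute [local irreducible] ac nd in
theorem c_zcb (δ : List ℕ) (s0 : ℕ) : Computable (zcb δ s0) := by
  have h : Computable (fun p : ℕ × ℕ × ℕ => decide (2 ≤ p.1) && decide (s0 ≤ p.2.1) &&
      decide (p.2.2 < p.2.1) && (ac p.2.1 p.2.2 == 1) &&
      ((nd p.2.1 p.2.2).take δ.length == δ)) := by fun_prop
  have h2 : Computable (fun z : ℕ => (z, (z - 2).unpair)) := by fun_prop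
  exact (h.comp h2).of_eq (fun _ => rfl)

/-- the birth label of a coordinate -/
def lz (z : ℕ) : ℕ := lab (z - 2).unpair.1 (z - 2).unpair.2

theorem lz_co (b i : ℕ) : lz (co b i) = lab b i := by simp [lz, co]

theorem exists_u (δ : List ℕ) (s0 : ℕ) {ψ base : ℕ → Bool} (hψ : Computable ψ)
    (hb : Computable base) : ∃ u : ℕ → Bool, Computable u ∧
      (∀ z, zcb δ s0 z = false → u z = base z) ∧
      ∀ b i, zcb δ s0 (co b i) = true → u (co b i) = xor (ψ (lab b i)) (u (eY (lab b i))) := by
  have hz := c_zcb δ s0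
  have hl : Computable lz := by unfold lz; fun_prop
  obtain ⟨u, h1, h2⟩ := CFP.exists_strongRec
    (fun z tb => bif zcb δ s0 z then xor (ψ (lz z)) (tb.getD (eY (lz z)) false) else base z)
    (CFP.cond (hz.comp Computable.fst) (CFP.xor (hψ.comp (hl.comp Computable.fst))
      (CFP.listGetD Computable.snd (c_eY (hl.comp Computable.fst)) (CFP.const _))) (hb.comp Computable.fst))
  refine ⟨u, h1, fun z hz => ?_, fun b i hz => ?_⟩
  · rw [h2, hz]; rfl
  · rw [h2, hz, lz_co]
    have h3 : eY (lab b i) < co b i := by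
      rw [eY_lab, if_neg (by have := (zcb_co.1 hz).2.2.1; omega)]; exact py_lt b i
    simp [List.getD_eq_getElem?_getD, h3]

theorem bi_ge {β : List ℕ} {s0 c : ℕ} (h0 : (TT s0 β).ph = 0) (hc : s0 ≤ c)
    (hp : (TT c β).ph ≠ 0) : s0 ≤ (TT c β).bi := by
  have I := inv _ _ hp
  by_contra hlt
  have h1 := (after_create I.vis_bi (Or.inl I.ac_bi)).1
  exact (persist h1 (s' := s0) (by omega) (I.noIni.mono (by omega) hc)).1 h0

theorem zl_cu {δ : List ℕ} {s0 c p : ℕ} (hfr : ∀ β, δ <+: β → (TT s0 β).ph = 0) (hc : s0 ≤ c)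
    (hδ : δ <+: nd c p) (hp : (TT c (nd c p)).ph ≠ 0) :
    ZL δ s0 (st c p).cu p ∧ (st c p).cu < c := by
  have I := inv_st hp
  have h1 := bi_ge (hfr _ hδ) hc hp
  have h2 := I.vis_cu.1
  have h3 := I.vis_cu.2
  simp only [nd_length] at h2 h3
  refine ⟨⟨h1.trans I.bi_le, by unfold st; rw [h3]; exact hδ, created_iff.2 ⟨h2, ?_⟩⟩, I.cu_lt⟩
  by_cases hq : (TT c (nd c p)).ph = 1
  · have := I.ph1 hq; simp only [nd_length] at this; unfold st; omega
  · have := (I.ph2 hq).1; simp only [nd_length] at this; unfold st; omega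

theorem oval_eq (o : ℕ) (τ : Bool) :
    oval o τ = xor (oval o false) (xor (oval o false) (oval o true) && τ) := by
  cases τ <;> simp

theorem zl_good {e o s0 B : ℕ} {ψ u : ℕ → Bool} {γ : List ℕ} (he : EvSpec e ψ)
    (hlen : γ.length = 2 * e + 1) (hf : InfAct γ) (ho : o < 4)
    (hN : ∀ t, s0 ≤ t → ¬ Ini t γ) (hfr : ∀ β, γ ++ [o] <+: β → (TT s0 β).ph = 0)
    (hB : ∀ c, s0 ≤ c → (TT c γ).ph ≠ 0 → (TT c γ).bi = B)
    (hu0 : xor (u (co B γ.length)) (u 0) = oval o false)
    (hu : ∀ b i, zcb (γ ++ [o]) s0 (co b i) = true →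
      u (co b i) = xor (ψ (lab b i)) (u (eY (lab b i)))) :
    ∀ c i, ZL (γ ++ [o]) s0 c i → ψ (lab c i) = xor (xor (u (eX (lab c i))) (u (eY (lab c i))))
      (xor (oval o false) (oval o true) && eB (lab c i)) := by
  intro c
  induction c using Nat.strong_induction_on with
  | _ c ih =>
  rintro i ⟨h1, h2, h3⟩
  obtain ⟨h4, h5⟩ := created_iff.1 h3
  by_cases ha : ac c i = 1
  · rw [eX_lab, if_pos ha, hu c i (zcb_co.2 ⟨h1, h4, ha, h2⟩), eB_lab, if_neg (by omega)]
    cases ψ (lab c i) <;> cases u (eY (lab c i)) <;> simp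
  · have hx : tr c i = some (lab c i, lab (st c i).cu i, (cx c i).2.1) :=
      tr_eq_some.2 ⟨by omega, rfl⟩
    have hi : γ.length < i := by have := h2.length_le; simp at this; omega
    have hvδ : Vis c (γ ++ [o]) := (vis_nd h4).pre h2
    have hv : Vis c γ := hvδ.pre (List.prefix_append _ _)
    have hou : ou c γ.length = o := by
      rw [← hvδ.getD (by simp)]; simp [List.getD_eq_getElem?_getD]
    have ha3 : ac c γ.length = 3 := ac_of_ou (by omega)
    have e3 := TT_ac3 hv ha3
    obtain ⟨r, -, r2, r3, r4⟩ := first_ph3 (s := c + 1) hf (fun t ht => hN t (by omega))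
      (by rw [e3])
    rw [r2.ac_eq, act_eq_four, r4, e3] at r3
    have hck := r3.2.1
    dsimp only at hck
    rw [if_pos (by omega), List.all_eq_true, show γ.length / 2 = e by omega] at hck
    have hsum := okT_sound he (hck _ (mem_later.2 ⟨i, h4, hi, hx⟩))
    obtain ⟨t1, t2⟩ := tri_sum hx u
    dsimp only at hsum t1 t2
    obtain ⟨z1, z2⟩ := zl_cu hfr h1 h2 (ph_of_tr hx)
    have g1 := ih _ z2 _ z1
    have g2 : ψ (cx c i).2.1 = xor (xor (u (eX (cx c i).2.1)) (u (eY (cx c i).2.1)))
        (xor (oval o false) (oval o true) && eB (cx c i).2.1) := by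
      rcases cx_cases c i with ⟨-, h⟩ | ⟨p, p1, p2, p3, p4⟩
      · have := h _ hi; omega
      · have p5 : γ.length ≤ p := by
          by_contra h6
          have := p4 γ.length (by omega) hi
          omega
        rcases p5.lt_or_eq with p6 | p6
        · have p7 : γ ++ [o] <+: nd c p := by
            rw [← hvδ.2]; exact nd_prefix (by simp; omega)
          obtain ⟨y1, y2⟩ := zl_cu hfr h1 p7 (by have := ph_of_ou p2; omega)
          rw [p3]; exact ih _ y2 _ y1
        · subst p6
          obtain ⟨q1, q2, q3, -⟩ := pa_edge c i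
          have hph := hv.ph_of_ac3 ha3
          rw [q1, q2, q3, p3, hv.st_eq]
          dsimp only
          rw [hB c h1 (by omega), hu0, ← oval_eq]
          have e1 := ou_eq_pick hv ha3
          have e2 := (pick_spec (by rw [← e1]; omega)).1
          rw [← e1, hou] at e2
          rw [e2]
          rw [hv.ac_eq, act_eq_three] at ha3
          have e4 := ha3.2
          rw [resp, if_neg (by omega), show γ.length / 2 = e by omega] at e4 ⊢
          obtain ⟨d, hd⟩ := Option.isSome_iff_exists.1 e4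
          rw [hd, ← he.1 _ _ _ hd]; rfl
    rw [g1, g2] at hsum
    revert hsum t1 t2
    generalize ψ (lab c i) = a1
    generalize xor (u (eX (lab c i))) (u (eY (lab c i))) = a2
    generalize xor (u (eX (lab (st c i).cu i))) (u (eY (lab (st c i).cu i))) = a3
    generalize xor (u (eX (cx c i).2.1)) (u (eY (cx c i).2.1)) = a4
    generalize eB (lab c i) = a5
    generalize eB (lab (st c i).cu i) = a6
    generalize eB (cx c i).2.1 = a7
    generalize xor (oval o false) (oval o true) = a8
    revert a1 a2 a3 a4 a5 a6 a7 a8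
    decide

theorem reqM {ψ w : ℕ → Bool} (hψ : Computable ψ)
    (hw : ∀ l, Alive l → ψ l = xor (w (eX l)) (w (eY l))) :
    ∃ (u : ℕ → Bool) (E : Bool), Computable u ∧
      ∀ l, Alive l → ψ l = xor (xor (u (eX l)) (u (eY l))) (E && eB l) := by
  classical
  obtain ⟨e, he⟩ := exists_evSpec hψ
  obtain ⟨γ, hlen, hγ⟩ := exists_tr (2 * e + 1)
  have hf := reqM_inf he hw hγ hlen
  obtain ⟨o, ho, hδ⟩ := tr_inf hγ hf
  obtain ⟨K, hK⟩ := alive_below hδ
  have hex := hδ.1
  have hs0 := Nat.find_spec hex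
  set s0 := Nat.find hex with hs0d
  have hfr : ∀ β, γ ++ [o] <+: β → (TT s0 β).ph = 0 := by
    intro β hβ
    rcases Nat.eq_zero_or_pos s0 with h | h
    · rw [h]; rfl
    · have h1 := Nat.find_min hex (m := s0 - 1) (by omega)
      simp only [not_forall, not_not] at h1
      obtain ⟨t, h2, h3⟩ := h1
      obtain rfl : t = s0 - 1 := by
        by_contra h4
        exact hs0 t (by omega) h3
      have := TT_ini (h3.extend hβ)
      rw [show s0 - 1 + 1 = s0 by omega] at this
      rw [this]; rfl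
  have hN : ∀ t, s0 ≤ t → ¬ Ini t γ := fun t ht h => hs0 t ht (h.extend (List.prefix_append _ _))
  obtain ⟨c0, c1, c2⟩ := reach2 hf hN
  set B := (TT c0 γ).bi with hBd
  have hB : ∀ c, s0 ≤ c → (TT c γ).ph ≠ 0 → (TT c γ).bi = B := by
    intro c h1 h2
    rcases le_total c c0 with h | h
    · exact (persist h2 h (fun t ht _ => hN t (by omega))).2.symm
    · exact (persist (by omega) h (fun t ht _ => hN t (by omega))).2
  have I := inv c0 γ (by omega)
  have hy : ∀ l, Alive l → eX l ≠ co B γ.length := by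
    intro l hA h
    obtain ⟨c, i, rfl⟩ := hA.exists_lab
    obtain ⟨a1, -, a3, -⟩ := bth_spec (alive_lab.1 hA).1
    rw [a1, co_inj] at h
    obtain ⟨h1, rfl⟩ := h
    rw [h1, I.vis_bi.2] at a3
    exact dead_of_inf hf a3.symm hA
  have hy0 : co B γ.length ≠ 0 := by have := two_le_co B γ.length; omega
  obtain ⟨U0, u01, u02, u03⟩ := exists_U (fun _ => false)
  obtain ⟨U1, u11, u12, u13⟩ := exists_U (fun _ => true)
  set E := xor (oval o false) (oval o true) with hE
  let w' : ℕ → Bool := fun z => xor (w z) (E && U0 z)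
  let base : ℕ → Bool := fun z => xor (xor (w' z) (w' 0))
    (xor (xor (w' 0) (w' (co B γ.length))) (oval o false) && xor (U0 z) (U1 z))
  let K' := co (K + s0) (K + s0) + co B γ.length + 1
  let base' : ℕ → Bool := fun z => ((List.range K').map base).getD z false
  have hb' : ∀ z, z < K' → base' z = base z := fun z hz => by
    simp [base', List.getD_eq_getElem?_getD, hz]
  obtain ⟨u, hu1, hu2, hu3⟩ := exists_u (γ ++ [o]) s0 hψ (base := base')
    (CFP.listGetD (CFP.const _) CFP.id (CFP.const _))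
  have hu0 : xor (u (co B γ.length)) (u 0) = oval o false := by
    rw [hu2 0 (zcb_small (by omega)), hu2, hb' _ (by omega), hb' _ (by omega)]
    · simp only [base, u01, u11, u03 _ hy0 hy, u13 _ hy0 hy]
      cases w' 0 <;> cases w' (co B γ.length) <;> cases oval o false <;> rfl
    · rw [Bool.eq_false_iff]
      intro h
      have := (zcb_co.1 h).2.2.2.length_le
      simp at this
  refine ⟨u, E, hu1, fun l hA => ?_⟩
  obtain ⟨c, i, rfl⟩ := hA.exists_lab
  have hcr := (alive_lab.1 hA).1
  by_cases hZ : ZL (γ ++ [o]) s0 c i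
  · exact zl_good he hlen hf ho hN hfr hB hu0 hu3 c i hZ
  · obtain ⟨a1, a2, a3, a4, -⟩ := bth_spec hcr
    have hc : c < K + s0 := by
      by_contra h
      exact hZ ⟨by omega, hK c i (by omega) hA, hcr⟩
    have hX : eX (lab c i) < K' := by
      have := co_lt_of_lt (s := bth c i) (i := i) (K := K + s0) (by omega) (by omega)
      omega
    have hY := (alive_edge hA).1
    have zX : zcb (γ ++ [o]) s0 (eX (lab c i)) = false := by
      rw [Bool.eq_false_iff, a1]
      intro h
      obtain ⟨b1, -, -, b4⟩ := zcb_co.1 h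
      exact hZ ⟨by omega, a3 ▸ b4, hcr⟩
    have zY : zcb (γ ++ [o]) s0 (eY (lab c i)) = false := by
      rw [eY_lab]
      split_ifs
      · exact zcb_small (by omega)
      · rcases cx_cases c i with ⟨h, -⟩ | ⟨p, p1, p2, p3, -⟩
        · rw [h]; exact zcb_small (by simp)
        · rw [p3, Bool.eq_false_iff]
          intro h
          obtain ⟨b1, -, -, b4⟩ := zcb_co.1 h
          have J := inv_st (s := c) (p := p) (by have := ph_of_ou p2; omega)
          have b5 := J.vis_bi.2
          have b6 := J.bi_le.trans J.cu_lt.le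
          simp only [nd_length] at b5
          unfold st at b1 b4
          rw [b5] at b4
          exact hZ ⟨b1.trans b6, b4.trans (nd_prefix p1.le), hcr⟩
    rw [hu2 _ zX, hu2 _ zY, hb' _ hX, hb' _ (by omega), hw _ hA]
    have k0 := u02 _ hA
    have k1 := u12 _ hA
    simp only [base, w']
    rw [← k0] at k1 ⊢
    revert k1
    generalize xor (xor (xor (w 0) (E && U0 0)) (xor (w (co B γ.length)) (E && U0 (co B γ.length))))
      (oval o false) = a0
    generalize xor (w 0) (E && U0 0) = a1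
    generalize w (eX (lab c i)) = a2
    generalize w (eY (lab c i)) = a3
    generalize U0 (eX (lab c i)) = a4
    generalize U0 (eY (lab c i)) = a5
    generalize U1 (eX (lab c i)) = a6
    generalize U1 (eY (lab c i)) = a7
    generalize E = a8
    revert a0 a1 a2 a3 a4 a5 a6 a7 a8
    decide

end Pool.Agent.P.MP_dc233e_lc
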