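import Pool.Agent.P.MP_dc233e_lc.CS

/-!
The standard computable generic structure for a parity function.
-/

namespace Pool.Agent.P.MP_dc233e_lc

open Pool.Agent.Lib.Helper43

def mx (t : List ℕ) : ℕ := t.foldl (fun a b => max a b) 0

def code (j : ℕ) (t : List ℕ) : ℕ :=
  Encodable.encode (j, t.map (fun a => if a = mx t then 0 else a + 1))

def raw : CS := fun j t => (mx t).testBit (code j t)

def std (ψ : ℕ → Bool) : CS := fun j t =>
  if j % 2 = 0 then raw j t
  else raw j t && ((par raw (j / 2) t == ψ (j / 2)) || (List.range (mx t)).any (deadAt (j / 2)))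

theorem foldl_max_le (t : List ℕ) (a k : ℕ) :
    t.foldl (fun a b => max a b) a ≤ k ↔ a ≤ k ∧ ∀ x ∈ t, x ≤ k := by
  induction t generalizing a with
  | nil => simp
  | cons y t ih => simp [ih, and_assoc]

theorem mx_eq {t : List ℕ} {k : ℕ} (h1 : k ∈ t) (h2 : ∀ x ∈ t, x ≤ k) : mx t = k :=
  le_antisymm ((foldl_max_le t 0 k).2 ⟨Nat.zero_le _, h2⟩)
    (((foldl_max_le t 0 _).1 le_rfl).2 k h1)

theorem std_even (ψ : ℕ → Bool) (x : ℕ) (t : List ℕ) : std ψ (2 * x) t = raw (2 * x) t := by
  simp [std]

theorem std_odd (ψ : ℕ → Bool) (l : ℕ) (t : List ℕ) : std ψ (2 * l + 1) t =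
    (raw (2 * l + 1) t && ((par raw l t == ψ l) || (List.range (mx t)).any (deadAt l))) := by
  have h1 : (2 * l + 1) / 2 = l := by omega
  have h2 : (2 * l + 1) % 2 ≠ 0 := by omega
  rw [std, if_neg h2, h1]

theorem par_std (ψ : ℕ → Bool) (l : ℕ) (t : List ℕ) : par (std ψ) l t = par raw l t := by
  simp only [par, std_even]

theorem valid_std (ψ : ℕ → Bool) : Valid ψ (std ψ) := by
  intro l t h1 _ _ h4
  rw [std_odd] at h4
  simp only [Bool.and_eq_true, Bool.or_eq_true, beq_iff_eq, List.any_eq_true] at h4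
  rcases h4.2 with h | ⟨s, -, h⟩
  · rw [par_std, h]
  · rw [h1 s] at h; simp at h

theorem exists_bits (val : ℕ → Bool) (C N : ℕ) :
    ∃ k, N < k ∧ ∀ c, c < C → k.testBit c = val c := by
  refine ⟨2 ^ C * (N + 1) + Nat.ofBits (fun i : Fin C => val i), ?_, fun c hc => ?_⟩
  · have : 1 ≤ 2 ^ C := Nat.one_le_two_pow
    nlinarith
  · rw [Nat.testBit_two_pow_mul_add _ (Nat.ofBits_lt_two_pow _), if_pos hc,
      Nat.testBit_ofBits_lt _ _ hc]

theorem exists_bound {X : Type} (L : List X) (f : X → ℕ) : ∃ C, ∀ x ∈ L, f x < C := by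
  induction L with
  | nil => exact ⟨0, by simp⟩
  | cons y L ih =>
    obtain ⟨C, hC⟩ := ih
    refine ⟨C + f y + 1, fun x hx => ?_⟩
    rcases List.mem_cons.1 hx with rfl | hx
    · omega
    · have := hC x hx; omega

theorem gen_std (ψ : ℕ → Bool) : Gen ψ (std ψ) := by
  classical
  intro B' hV p hp a
  by_cases ha : ∃ b, (a, b) ∈ p
  · obtain ⟨b, hb⟩ := ha
    have h1 : ∀ x ∈ (a, b) :: p, x ∈ p := fun x hx => by
      rcases List.mem_cons.1 hx with rfl | hx
      · exact hb
      · exact hx
    exact ⟨b, fun x hx y hy => hp.1 x (h1 x hx) y (h1 y hy),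
      fun j t h2 => hp.2 j t (fun x hx => h1 x (h2 x hx))⟩
  · simp only [not_exists] at ha
    let inv : ℕ → ℕ := fun z => if z = 0 then a else
      if h : ∃ x ∈ p, x.2 + 1 = z then h.choose.1 else 0
    have hinv : ∀ x ∈ p, inv (x.2 + 1) = x.1 := by
      intro x hx
      have h : ∃ y ∈ p, y.2 + 1 = x.2 + 1 := ⟨x, hx, rfl⟩
      simp only [inv, Nat.succ_ne_zero, if_false, dif_pos h]
      exact (hp.1 _ h.choose_spec.1 _ hx).2 (by have := h.choose_spec.2; omega)
    let val : ℕ → Bool := fun c =>
      B' (Denumerable.ofNat (ℕ × List ℕ) c).1 ((Denumerable.ofNat (ℕ × List ℕ) c).2.map inv)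
    obtain ⟨C, hC⟩ := exists_bound ((List.range (2 * p.length + 3)).flatMap (fun j =>
      (tuples (ar j) (0 :: p.map (fun x => x.2 + 1))).map (fun s => (j, s))))
      (fun y : ℕ × List ℕ => Encodable.encode y)
    obtain ⟨N1, hN1⟩ := exists_bound p (fun x => x.2)
    obtain ⟨N2, hN2⟩ := exists_bound (List.range (p.length + 2))
      (fun l => if h : ∃ s, deadAt l s = true then h.choose else 0)
    obtain ⟨k, hk1, hk2⟩ := exists_bits val C (N1 + N2)
    have hlt : ∀ x ∈ p, x.2 < k := fun x hx => by have := hN1 x hx; omega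
    have hinj : ∀ x ∈ (a, k) :: p, ∀ y ∈ (a, k) :: p, (x.1 = y.1 ↔ x.2 = y.2) := by
      have h1 : ∀ y ∈ p, (a = y.1 ↔ k = y.2) := fun y hy =>
        ⟨fun e => absurd (e ▸ hy) (ha y.2), fun e => by have := hlt y hy; omega⟩
      intro x hx y hy
      rcases List.mem_cons.1 hx with rfl | hx <;> rcases List.mem_cons.1 hy with rfl | hy
      · simp
      · exact h1 y hy
      · have := h1 x hx
        exact ⟨fun e => (this.1 e.symm).symm, fun e => (this.2 e.symm).symm⟩
      · exact hp.1 x hx y hy
    have hraw : ∀ j (t : List (ℕ × ℕ)), (∀ x ∈ t, x ∈ (a, k) :: p) → t.length = ar j →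
        (t.map Prod.fst).Nodup → (a, k) ∈ t → mx (t.map Prod.snd) = k ∧
        B' j (t.map Prod.fst) = raw j (t.map Prod.snd) := by
      intro j t h1 h2 h3 h4
      have hm : mx (t.map Prod.snd) = k := by
        refine mx_eq (List.mem_map.2 ⟨_, h4, rfl⟩) (fun y hy => ?_)
        obtain ⟨x, hx, rfl⟩ := List.mem_map.1 hy
        rcases List.mem_cons.1 (h1 x hx) with rfl | hx
        · exact le_rfl
        · exact (hlt x hx).le
      refine ⟨hm, ?_⟩
      have h5 := length_le_of h1 h3
      have h6 := le_ar j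
      simp only [List.length_cons] at h5
      rw [raw, code, hm, hk2]
      · simp only [val, Denumerable.ofNat_encode, List.map_map]
        congr 1
        refine List.map_congr_left (fun x hx => ?_)
        rcases List.mem_cons.1 (h1 x hx) with rfl | hx
        · simp [inv]
        · have := hlt x hx
          simp only [Function.comp]
          rw [if_neg (by omega), hinv x hx]
      · refine hC _ (List.mem_flatMap.2 ⟨j, List.mem_range.2 (by omega),
          List.mem_map.2 ⟨_, mem_tuples.2 ⟨by simpa using h2, fun z hz => ?_⟩, rfl⟩⟩)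
        rw [List.map_map] at hz
        obtain ⟨x, hx, rfl⟩ := List.mem_map.1 hz
        rcases List.mem_cons.1 (h1 x hx) with rfl | hx
        · simp
        · have := hlt x hx
          simp only [Function.comp]
          rw [if_neg (by omega)]
          exact List.mem_cons_of_mem _ (List.mem_map.2 ⟨x, hx, rfl⟩)
    have hold : ∀ (t : List (ℕ × ℕ)), (∀ x ∈ t, x ∈ (a, k) :: p) → (a, k) ∉ t → ∀ x ∈ t, x ∈ p := by
      intro t h1 h4 x hx
      rcases List.mem_cons.1 (h1 x hx) with rfl | hx
      · exact absurd hx h4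
      · exact hx
    have heven : ∀ x (t : List (ℕ × ℕ)), (∀ y ∈ t, y ∈ (a, k) :: p) → t.length = x + 1 →
        (t.map Prod.fst).Nodup → B' (2 * x) (t.map Prod.fst) = raw (2 * x) (t.map Prod.snd) := by
      intro x t h1 h2 h3
      rw [← ar_even] at h2
      by_cases h4 : (a, k) ∈ t
      · exact (hraw _ t h1 h2 h3 h4).2
      · rw [hp.2 _ t (hold t h1 h4) h2 h3, std_even]
    refine ⟨k, hinj, fun j t h1 h2 h3 => ?_⟩
    by_cases h4 : (a, k) ∈ t
    · obtain ⟨hm, h5⟩ := hraw j t h1 h2 h3 h4
      obtain ⟨l, rfl | rfl⟩ := Nat.even_or_odd' j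
      · rw [std_even, h5]
      · rw [std_odd, ← h5, hm]
        cases h6 : B' (2 * l + 1) (t.map Prod.fst)
        · rfl
        · symm
          simp only [Bool.true_and, Bool.or_eq_true, beq_iff_eq, List.any_eq_true, List.mem_range]
          have h7 := length_le_of h1 h3
          rw [ar_odd] at h2
          simp only [List.length_cons] at h7
          by_cases hA : Alive l
          · left
            rw [← hV l _ hA (by rw [ar_odd]; simpa using h2) h3 h6]
            have h8 : ∀ x, x + 1 ≤ t.length → B' (2 * x) ((t.map Prod.fst).take (x + 1)) =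
                raw (2 * x) ((t.map Prod.snd).take (x + 1)) := by
              intro x hx
              rw [← List.map_take, ← List.map_take]
              refine heven x _ (fun y hy => h1 y (List.mem_of_mem_take hy)) (by simpa using hx) ?_
              rw [List.map_take]
              exact h3.sublist (List.take_sublist _ _)
            rw [par, par, h8 _ (by omega), h8 _ (by omega)]
          · right
            have h8 : ∃ s, deadAt l s = true := by
              simpa [Alive] using hA
            have h9 := hN2 l (List.mem_range.2 (by omega))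
            simp only [dif_pos h8] at h9
            exact ⟨h8.choose, by omega, h8.choose_spec⟩
    · exact hp.2 j t (hold t h1 h4) h2 h3

attribute [local irreducible] eX eY deadAt Computable in
theorem c_std {ψ : ℕ → Bool} (hψ : Computable ψ) :
    Computable (fun x : ℕ × List ℕ => std ψ x.1 x.2) := by
  have h1 : Computable mx := by unfold mx; fun_prop
  have h2 : Computable (fun x : ℕ × List ℕ => raw x.1 x.2) := by
    have h0 : Computable (fun x : ℕ × List ℕ =>
        (x.1, x.2.map (fun a => if a = mx x.2 then 0 else a + 1))) := by fun_prop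
    exact CFP.testBit (h1.comp Computable.snd) (Computable.encode.comp h0)
  have h3 : Computable (fun x : ℕ × List ℕ => par raw x.1 x.2) :=
    CFP.xor (h2.comp (g := fun x : ℕ × List ℕ => (2 * eX x.1, x.2.take (eX x.1 + 1))) (by fun_prop))
      (h2.comp (g := fun x : ℕ × List ℕ => (2 * eY x.1, x.2.take (eY x.1 + 1))) (by fun_prop))
  have h4 : Computable (fun x : ℕ × List ℕ => par raw (x.1 / 2) x.2) :=
    h3.comp (g := fun x : ℕ × List ℕ => (x.1 / 2, x.2)) (by fun_prop)
  have h5 : Computable (fun x : ℕ × List ℕ =>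
      (List.range (mx x.2)).any (fun s => deadAt (x.1 / 2) s)) := by fun_prop
  exact CFP.ite (CFP.decEq (by fun_prop) (CFP.const _)) h2
    (CFP.and h2 (CFP.or (CFP.beq h4 (by fun_prop)) h5))

theorem compCS_std {ψ : ℕ → Bool} (hψ : Computable ψ) : CompCS id (std ψ) :=
  ⟨fun x => x.1 == x.2, fun x => std ψ x.1 x.2, by fun_prop, c_std hψ, by simp, by simp⟩

end Pool.Agent.P.MP_dc233e_lc
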