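import Mathlib

/-!
The priority-tree construction: definitions and the basic recurrences.
-/

namespace Pool.Agent.P.MP_dc233e_lc

open Nat.Partrec (Code)

/-- state of a node of the tree: phase, birth stage, current parity, stage of the current label,
due flags, triangles to be checked -/
structure NS where
  ph : ℕ
  bi : ℕ
  ta : Bool
  cu : ℕ
  du : List ℕ
  ck : List (ℕ × ℕ × ℕ)

def fresh : NS := ⟨0, 0, false, 0, [], []⟩

/-- parent coordinate, parent anchor label, parity of that anchor -/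
abbrev Ctx := ℕ × ℕ × Bool

def lab (s i : ℕ) : ℕ := Nat.pair s (i + 1)
def rl (s : ℕ) : ℕ := Nat.pair s 0
def co (s i : ℕ) : ℕ := Nat.pair s i + 2

def ev (e n s : ℕ) : Option Bool :=
  (Code.evaln s (Denumerable.ofNat Code e) n).map (fun x => x == 1)

def oval (o : ℕ) (τ : Bool) : Bool := bif τ then o % 2 == 1 else o / 2 == 1

def pick (τ d : Bool) (du : List ℕ) : ℕ :=
  (([0, 1, 2, 3] : List ℕ).find? (fun o => (oval o τ == d) && (du.contains o == τ))).getD 4

def condL (s i : ℕ) (z : NS) (c : Ctx) : Bool :=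
  if i % 2 = 0 then
    ((ev (i / 2) (co z.bi i) s).bind
      (fun p => (ev (i / 2) 0 s).map (fun q => c.2.2 != xor p q))).getD false
  else c.2.2 != z.ta

def resp (s i : ℕ) (z : NS) : Option Bool :=
  if i % 2 = 0 then none else ev (i / 2) (lab z.cu i) s

def okT (s e : ℕ) (t : ℕ × ℕ × ℕ) : Bool :=
  ((ev e t.1 s).bind (fun a => (ev e t.2.1 s).bind (fun b => (ev e t.2.2 s).map
    (fun c => !(xor a (xor b c)))))).getD false

/-- 0 idle, 1 birth, 2 new anchor, 3 event, 4 new link -/
def act (s i : ℕ) (z : NS) (c : Ctx) : ℕ :=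
  if z.ph = 0 then 1
  else if z.ph = 1 then (if condL s i z c = true then 2 else 0)
  else if z.ph = 2 then (if (resp s i z).isSome = true then 3 else 0)
  else (if (z.ck.all (okT s (i / 2)) && (c.2.2 == z.ta)) = true then 4 else 0)

def out (s i : ℕ) (z : NS) (c : Ctx) : ℕ :=
  if act s i z c = 3 then pick z.ta ((resp s i z).getD false) z.du else 4

def tri (s i : ℕ) (z : NS) (c : Ctx) : Option (ℕ × ℕ × ℕ) :=
  if act s i z c = 2 then some (lab s i, lab z.cu i, c.2.1)
  else if act s i z c = 4 then some (lab s i, lab z.cu i, c.2.1) else none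

def nctx (s i : ℕ) (z : NS) (c : Ctx) : Ctx :=
  if out s i z c < 4 then (co z.bi i, lab z.cu i, z.ta) else c

def updu (τ : Bool) (o : ℕ) (du : List ℕ) : List ℕ :=
  if o < 4 then (bif τ then du.filter (fun x => x != o) else o :: du) else du

def nst (s i : ℕ) (z : NS) (c : Ctx) (lt : List (ℕ × ℕ × ℕ)) : NS :=
  if act s i z c = 1 then ⟨1, s, false, s, [], []⟩
  else if act s i z c = 2 then ⟨2, z.bi, c.2.2, s, z.du, z.ck⟩
  else if act s i z c = 3 then
    ⟨3, z.bi, z.ta, z.cu, updu z.ta (out s i z c) z.du, if out s i z c < 4 then lt else []⟩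
  else if act s i z c = 4 then ⟨1, z.bi, z.ta, s, z.du, z.ck⟩
  else z

def run (s : ℕ) (T : List ℕ → NS) : ℕ → List ℕ × Ctx
  | 0 => ([], (1, rl s, s.bodd))
  | i + 1 => ((run s T i).1 ++ [out s i (T (run s T i).1) (run s T i).2],
      nctx s i (T (run s T i).1) (run s T i).2)

def later (s : ℕ) (T : List ℕ → NS) (i : ℕ) : List (ℕ × ℕ × ℕ) :=
  (List.range s).filterMap
    (fun j => if i < j then tri s j (T (run s T j).1) (run s T j).2 else none)

def rightOf (s : ℕ) (T : List ℕ → NS) (α : List ℕ) : Bool :=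
  (List.range s).any (fun i => decide (i < α.length) && (α.take i == (run s T i).1) &&
    decide (out s i (T (run s T i).1) (run s T i).2 < α.getD i 0))

def step (s : ℕ) (T : List ℕ → NS) (α : List ℕ) : NS :=
  if (decide (α.length < s) && ((run s T α.length).1 == α)) = true then
    nst s α.length (T α) (run s T α.length).2 (later s T α.length)
  else if rightOf s T α = true then fresh else T α

/-- the state of every node before stage `s` -/
def TT : ℕ → List ℕ → NS
  | 0 => fun _ => fresh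
  | s + 1 => step s (TT s)

def nd (s i : ℕ) : List ℕ := (run s (TT s) i).1
def cx (s i : ℕ) : Ctx := (run s (TT s) i).2
def st (s i : ℕ) : NS := TT s (nd s i)
def ac (s i : ℕ) : ℕ := act s i (st s i) (cx s i)
def ou (s i : ℕ) : ℕ := out s i (st s i) (cx s i)
def tr (s i : ℕ) : Option (ℕ × ℕ × ℕ) := tri s i (st s i) (cx s i)

/-- first endpoint of a label -/
def eX (l : ℕ) : ℕ :=
  if l.unpair.2 = 0 then 1
  else if ac l.unpair.1 (l.unpair.2 - 1) = 1 then co l.unpair.1 (l.unpair.2 - 1)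
  else co (st l.unpair.1 (l.unpair.2 - 1)).bi (l.unpair.2 - 1)

/-- second endpoint of a label -/
def eY (l : ℕ) : ℕ :=
  if l.unpair.2 = 0 then 0
  else if ac l.unpair.1 (l.unpair.2 - 1) = 2 then 0
  else (cx l.unpair.1 (l.unpair.2 - 1)).1

/-- parity of a label in the second copy -/
def eB (l : ℕ) : Bool :=
  if l.unpair.2 = 0 then l.unpair.1.bodd
  else if ac l.unpair.1 (l.unpair.2 - 1) = 2 then (cx l.unpair.1 (l.unpair.2 - 1)).2.2
  else false

def created (s i : ℕ) : Bool :=
  decide (i < s) && ((ac s i == 1) || (ac s i == 2) || (ac s i == 4))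

/-- label `l` is seen to be dead at stage `t` -/
def deadAt (l t : ℕ) : Bool :=
  (l.unpair.2 == 0) || !(created l.unpair.1 (l.unpair.2 - 1)) ||
  (decide (l.unpair.1 < t) && rightOf t (TT t) (nd l.unpair.1 (l.unpair.2 - 1))) ||
  (List.range t).any (fun j => ((tr t j).map
    (fun x => (x.2.1 == l) && (x.2.2.unpair.2 == 0))).getD false) ||
  (List.range t).any (fun p => (ac t p == 4) &&
    (st t p).ck.any (fun x => (x.2.1 == l) && (x.2.2 == lab (st t p).cu p)))

def Alive (l : ℕ) : Prop := ∀ t, deadAt l t = false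

def Vis (s : ℕ) (α : List ℕ) : Prop := α.length < s ∧ nd s α.length = α

def Ini (s : ℕ) (α : List ℕ) : Prop :=
  ∃ i, i < s ∧ i < α.length ∧ α.take i = nd s i ∧ ou s i < α.getD i 0

def NoIni (α : List ℕ) (a b : ℕ) : Prop := ∀ t, a ≤ t → t < b → ¬ Ini t α

/-! ### arithmetic of codes -/

@[simp] theorem lab_inj {s i t j : ℕ} : lab s i = lab t j ↔ s = t ∧ i = j := by
  simp [lab, Nat.pair_eq_pair]

@[simp] theorem co_inj {s i t j : ℕ} : co s i = co t j ↔ s = t ∧ i = j := by
  simp [co, Nat.pair_eq_pair]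

@[simp] theorem lab_unpair (s i : ℕ) : (lab s i).unpair = (s, i + 1) := by simp [lab]
@[simp] theorem rl_unpair (s : ℕ) : (rl s).unpair = (s, 0) := by simp [rl]

theorem two_le_co (s i : ℕ) : 2 ≤ co s i := by simp [co]

theorem co_lt {s i t j : ℕ} (h1 : s ≤ t) (h2 : i < j) : co s i < co t j := by
  have h3 : Nat.pair s i ≤ Nat.pair t i := by
    rcases h1.lt_or_eq with h | h
    · exact (Nat.pair_lt_pair_left i h).le
    · rw [h]
  have h4 := Nat.pair_lt_pair_right t h2
  simp only [co]; omega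

theorem co_lt_of_lt {s i K : ℕ} (h1 : s < K) (h2 : i < K) : co s i < co K K :=
  co_lt h1.le h2

/-! ### the path -/

theorem nd_zero (s : ℕ) : nd s 0 = [] := rfl
theorem nd_succ (s i : ℕ) : nd s (i + 1) = nd s i ++ [ou s i] := rfl
theorem cx_zero (s : ℕ) : cx s 0 = (1, rl s, s.bodd) := rfl
theorem cx_succ (s i : ℕ) : cx s (i + 1) =
    if ou s i < 4 then (co (st s i).bi i, lab (st s i).cu i, (st s i).ta) else cx s i := rfl

@[simp] theorem nd_length (s i : ℕ) : (nd s i).length = i := by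
  induction i with
  | zero => rfl
  | succ i ih => simp [nd_succ, ih]

theorem nd_take {s i j : ℕ} (h : i ≤ j) : (nd s j).take i = nd s i := by
  induction j with
  | zero => obtain rfl : i = 0 := by omega
            rfl
  | succ j ih =>
    rcases Nat.lt_or_ge j i with h1 | h1
    · obtain rfl : i = j + 1 := by omega
      exact List.take_of_length_le (by simp)
    · rw [nd_succ, List.take_append_of_le_length (by simpa using h1), ih h1]

theorem nd_getD {s i j : ℕ} (h : i < j) : (nd s j).getD i 0 = ou s i := by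
  have h1 : (nd s j).take (i + 1) = nd s (i + 1) := nd_take h
  have h2 : ((nd s j).take (i + 1)).getD i 0 = (nd s j).getD i 0 := by
    simp [List.getD_eq_getElem?_getD]
  rw [← h2, h1, nd_succ]
  simp [List.getD_eq_getElem?_getD]

theorem nd_prefix {s i j : ℕ} (h : i ≤ j) : nd s i <+: nd s j := by
  rw [← nd_take h]; exact List.take_prefix _ _

theorem eq_nd_of_prefix {s j : ℕ} {β : List ℕ} (h : β <+: nd s j) : nd s β.length = β := by
  have h1 : β.length ≤ j := by simpa using h.length_le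
  rw [← nd_take h1]
  exact (List.prefix_iff_eq_take.1 h).symm

theorem vis_nd {s i : ℕ} (h : i < s) : Vis s (nd s i) := ⟨by simpa using h, by simp⟩

theorem Vis.pre {s : ℕ} {α β : List ℕ} (h : Vis s α) (hb : β <+: α) : Vis s β :=
  ⟨lt_of_le_of_lt hb.length_le h.1, eq_nd_of_prefix (j := α.length) (by rw [h.2]; exact hb)⟩

theorem Vis.st_eq {s : ℕ} {α : List ℕ} (h : Vis s α) : st s α.length = TT s α := by
  rw [st, h.2]

theorem Vis.getD {s i : ℕ} {α : List ℕ} (h : Vis s α) (hi : i < α.length) :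
    α.getD i 0 = ou s i := by
  conv_lhs => rw [← h.2]
  exact nd_getD hi

theorem Vis.not_ini {s : ℕ} {α : List ℕ} (h : Vis s α) : ¬ Ini s α := by
  rintro ⟨i, -, hi, -, h3⟩
  rw [h.getD hi] at h3
  exact lt_irrefl _ h3

theorem Ini.extend {s : ℕ} {α β : List ℕ} (h : Ini s α) (hb : α <+: β) : Ini s β := by
  obtain ⟨i, h1, h2, h3, h4⟩ := h
  obtain ⟨r, rfl⟩ := hb
  refine ⟨i, h1, by simp; omega, ?_, ?_⟩
  · rw [List.take_append_of_le_length h2.le]; exact h3
  · rw [List.getD_append _ _ _ _ h2]; exact h4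

theorem NoIni.pre {α β : List ℕ} {a b : ℕ} (h : NoIni β a b) (hb : α <+: β) : NoIni α a b :=
  fun t h1 h2 h3 => h t h1 h2 (h3.extend hb)

theorem NoIni.mono {α : List ℕ} {a b a' b' : ℕ} (h : NoIni α a b) (h1 : a ≤ a') (h2 : b' ≤ b) :
    NoIni α a' b' := fun t h3 h4 => h t (h1.trans h3) (lt_of_lt_of_le h4 h2)

theorem NoIni.trans {α : List ℕ} {a b c : ℕ} (h : NoIni α a b) (h' : NoIni α b c) :
    NoIni α a c := fun t h3 h4 => by
  rcases Nat.lt_or_ge t b with h5 | h5
  · exact h t h3 h5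
  · exact h' t h5 h4

theorem rightOf_iff (s : ℕ) (α : List ℕ) : rightOf s (TT s) α = true ↔ Ini s α := by
  simp only [rightOf, List.any_eq_true, List.mem_range, Bool.and_eq_true, decide_eq_true_eq,
    beq_iff_eq, Ini]
  constructor
  · rintro ⟨i, h1, ⟨h2, h3⟩, h4⟩; exact ⟨i, h1, h2, h3, h4⟩
  · rintro ⟨i, h1, h2, h3, h4⟩; exact ⟨i, h1, ⟨h2, h3⟩, h4⟩

theorem TT_vis {s : ℕ} {α : List ℕ} (h : Vis s α) :
    TT (s + 1) α = nst s α.length (TT s α) (cx s α.length) (later s (TT s) α.length) := by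
  have : (decide (α.length < s) && ((run s (TT s) α.length).1 == α)) = true := by
    simp only [Bool.and_eq_true, decide_eq_true_eq, beq_iff_eq]; exact h
  simp only [TT, step, this, if_true]; rfl

theorem not_vis_aux {s : ℕ} {α : List ℕ} (h : ¬ Vis s α) :
    ¬ (decide (α.length < s) && ((run s (TT s) α.length).1 == α)) = true := by
  simp only [Bool.and_eq_true, decide_eq_true_eq, beq_iff_eq]; exact h

theorem TT_ini {s : ℕ} {α : List ℕ} (h : Ini s α) : TT (s + 1) α = fresh := by
  have h1 : ¬ Vis s α := fun h2 => h2.not_ini h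
  simp only [TT, step]
  rw [if_neg (not_vis_aux h1), if_pos ((rightOf_iff s α).2 h)]

theorem TT_idle {s : ℕ} {α : List ℕ} (h1 : ¬ Vis s α) (h : ¬ Ini s α) :
    TT (s + 1) α = TT s α := by
  have h2 : ¬ rightOf s (TT s) α = true := fun h3 => h ((rightOf_iff s α).1 h3)
  simp only [TT, step]
  rw [if_neg (not_vis_aux h1), if_neg h2]

theorem Vis.ac_eq {s : ℕ} {α : List ℕ} (h : Vis s α) :
    ac s α.length = act s α.length (TT s α) (cx s α.length) := by rw [ac, h.st_eq]

theorem Vis.ou_eq {s : ℕ} {α : List ℕ} (h : Vis s α) :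
    ou s α.length = out s α.length (TT s α) (cx s α.length) := by rw [ou, h.st_eq]

theorem mem_later {s i : ℕ} {x : ℕ × ℕ × ℕ} :
    x ∈ later s (TT s) i ↔ ∃ j, j < s ∧ i < j ∧ tr s j = some x := by
  simp only [later, List.mem_filterMap, List.mem_range]
  constructor
  · rintro ⟨j, h1, h2⟩
    by_cases h : i < j
    · rw [if_pos h] at h2; exact ⟨j, h1, h, h2⟩
    · rw [if_neg h] at h2; exact absurd h2 (by simp)
  · rintro ⟨j, h1, h2, h3⟩
    exact ⟨j, h1, by rw [if_pos h2]; exact h3⟩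

/-! ### actions and phases -/

theorem act_le (s i : ℕ) (z : NS) (c : Ctx) : act s i z c ≤ 4 := by
  unfold act; split_ifs <;> omega

theorem act_eq_one {s i : ℕ} {z : NS} {c : Ctx} : act s i z c = 1 ↔ z.ph = 0 := by
  unfold act; split_ifs <;> simp_all

theorem act_eq_two {s i : ℕ} {z : NS} {c : Ctx} :
    act s i z c = 2 ↔ z.ph = 1 ∧ condL s i z c = true := by
  unfold act; split_ifs <;> simp_all

theorem act_eq_three {s i : ℕ} {z : NS} {c : Ctx} :
    act s i z c = 3 ↔ z.ph = 2 ∧ (resp s i z).isSome = true := by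
  unfold act; split_ifs <;> simp_all

theorem act_eq_four {s i : ℕ} {z : NS} {c : Ctx} :
    act s i z c = 4 ↔ 3 ≤ z.ph ∧ z.ck.all (okT s (i / 2)) = true ∧ c.2.2 = z.ta := by
  unfold act; split_ifs <;> simp_all; omega

theorem pick_le (τ d : Bool) (du : List ℕ) : pick τ d du ≤ 4 := by
  unfold pick
  cases h : ([0, 1, 2, 3] : List ℕ).find? (fun o => (oval o τ == d) && (du.contains o == τ)) with
  | none => simp
  | some o =>
    have := List.mem_of_find?_eq_some h
    simp at this ⊢; omega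

theorem pick_spec {τ d : Bool} {du : List ℕ} (h : pick τ d du < 4) :
    oval (pick τ d du) τ = d ∧ du.contains (pick τ d du) = τ := by
  unfold pick at h ⊢
  cases h' : ([0, 1, 2, 3] : List ℕ).find? (fun o => (oval o τ == d) && (du.contains o == τ)) with
  | none => rw [h'] at h; simp at h
  | some o =>
    have := List.find?_some h'
    simpa using this

theorem pick_lt {τ d : Bool} {du : List ℕ} {o : ℕ} (ho : o < 4) (h1 : oval o τ = d)
    (h2 : du.contains o = τ) : pick τ d du < 4 := by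
  unfold pick
  cases h' : ([0, 1, 2, 3] : List ℕ).find? (fun o => (oval o τ == d) && (du.contains o == τ)) with
  | none =>
    rw [List.find?_eq_none] at h'
    have := h' o (by simp; omega)
    rw [h1, h2] at this
    simp at this
  | some o' =>
    have := List.mem_of_find?_eq_some h'
    simp at this ⊢; omega

theorem ou_le (s i : ℕ) : ou s i ≤ 4 := by
  unfold ou out; split_ifs
  · exact pick_le _ _ _
  · exact le_rfl

theorem ac_of_ou {s i : ℕ} (h : ou s i < 4) : ac s i = 3 := by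
  by_contra h1
  have : ou s i = 4 := by unfold ou out; exact if_neg h1
  omega

theorem ou_of_ac {s i : ℕ} (h : ac s i ≠ 3) : ou s i = 4 := by
  unfold ou out; exact if_neg h

theorem tr_eq_some {s i : ℕ} {x : ℕ × ℕ × ℕ} : tr s i = some x ↔
    (ac s i = 2 ∨ ac s i = 4) ∧ x = (lab s i, lab (st s i).cu i, (cx s i).2.1) := by
  unfold tr tri ac
  split_ifs with h1 h2
  · simp [h1, eq_comm]
  · simp [h2, eq_comm]
  · simp [h1, h2]

theorem TT_ac0 {s : ℕ} {α : List ℕ} (h : Vis s α) (h0 : ac s α.length = 0) :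
    TT (s + 1) α = TT s α := by
  rw [h.ac_eq] at h0
  rw [TT_vis h]; simp [nst, h0]

theorem TT_ac1 {s : ℕ} {α : List ℕ} (h : Vis s α) (h0 : ac s α.length = 1) :
    TT (s + 1) α = ⟨1, s, false, s, [], []⟩ := by
  rw [h.ac_eq] at h0
  rw [TT_vis h]; simp [nst, h0]

theorem TT_ac2 {s : ℕ} {α : List ℕ} (h : Vis s α) (h0 : ac s α.length = 2) :
    TT (s + 1) α = ⟨2, (TT s α).bi, (cx s α.length).2.2, s, (TT s α).du, (TT s α).ck⟩ := by
  rw [h.ac_eq] at h0
  rw [TT_vis h]; simp [nst, h0]

theorem TT_ac3 {s : ℕ} {α : List ℕ} (h : Vis s α) (h0 : ac s α.length = 3) :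
    TT (s + 1) α = ⟨3, (TT s α).bi, (TT s α).ta, (TT s α).cu,
      updu (TT s α).ta (ou s α.length) (TT s α).du,
      if ou s α.length < 4 then later s (TT s) α.length else []⟩ := by
  rw [h.ac_eq] at h0
  rw [TT_vis h, h.ou_eq]; simp [nst, h0]

theorem TT_ac4 {s : ℕ} {α : List ℕ} (h : Vis s α) (h0 : ac s α.length = 4) :
    TT (s + 1) α = ⟨1, (TT s α).bi, (TT s α).ta, s, (TT s α).du, (TT s α).ck⟩ := by
  rw [h.ac_eq] at h0
  rw [TT_vis h]; simp [nst, h0]

theorem ac_cases (s i : ℕ) :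
    ac s i = 0 ∨ ac s i = 1 ∨ ac s i = 2 ∨ ac s i = 3 ∨ ac s i = 4 := by
  have := act_le s i (st s i) (cx s i)
  unfold ac; omega

theorem Vis.ph_of_ac1 {s : ℕ} {α : List ℕ} (h : Vis s α) :
    ac s α.length = 1 ↔ (TT s α).ph = 0 := by rw [h.ac_eq, act_eq_one]

theorem Vis.ph_of_ac2 {s : ℕ} {α : List ℕ} (h : Vis s α) (h0 : ac s α.length = 2) :
    (TT s α).ph = 1 := by rw [h.ac_eq, act_eq_two] at h0; exact h0.1

theorem Vis.ph_of_ac3 {s : ℕ} {α : List ℕ} (h : Vis s α) (h0 : ac s α.length = 3) :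
    (TT s α).ph = 2 := by rw [h.ac_eq, act_eq_three] at h0; exact h0.1

theorem Vis.ph_of_ac4 {s : ℕ} {α : List ℕ} (h : Vis s α) (h0 : ac s α.length = 4) :
    3 ≤ (TT s α).ph := by rw [h.ac_eq, act_eq_four] at h0; exact h0.1

end Pool.Agent.P.MP_dc233e_lc
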